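import Pool.Agent.H537R3.SC.PLK
import Pool.Agent.H520R2.Prog

/-!
# APX: approximation of monotone straight-line programs by small families of colourings
-/

set_option autoImplicit false

namespace Pool.Agent.H537R3.SC

open Finset Pool.Agent.H520R2

theorem ap_recolour {E K : Type} [Fintype E] [DecidableEq E] [Fintype K] [DecidableEq K] (o : K)
    (J : E → K × K) (himg : (univ.image J).card ≤ Fintype.card K) (hoo : ∃ e, J e = (o, o)) :
    ∃ r : K × K → K, r (o, o) = o ∧ ∀ e e', r (J e) = r (J e') → J e = J e' := by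
  obtain ⟨i⟩ : Nonempty ({y // y ∈ univ.image J} ↪ K) :=
    Function.Embedding.nonempty_of_card_le (by rw [Fintype.card_coe]; exact himg)
  obtain ⟨e0, he0⟩ := hoo
  have hmem : ∀ e, J e ∈ univ.image J := fun e => mem_image_of_mem _ (mem_univ _)
  have hoo' : (o, o) ∈ univ.image J := he0 ▸ hmem e0
  refine ⟨fun y => if hy : y ∈ univ.image J then Equiv.swap (i ⟨(o, o), hoo'⟩) o (i ⟨y, hy⟩) else o,
    ?_, ?_⟩
  · simp only [dif_pos hoo', Equiv.swap_apply_left]
  · intro e e' h
    simp only [dif_pos (hmem e), dif_pos (hmem e')] at h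
    have h1 := i.injective ((Equiv.swap _ _).injective h)
    simpa using h1

theorem ap_perp_join {E K : Type} [Fintype E] [Fintype K] [DecidableEq K] {p : ℕ} (o : K)
    (T1 T2 : E → K) (r : K × K → K) (hr : r (o, o) = o)
    (hinj : ∀ e e', r (T1 e, T2 e) = r (T1 e', T2 e') → (T1 e, T2 e) = (T1 e', T2 e'))
    (hoo : ∃ e, (T1 e, T2 e) = (o, o)) (a : E → ZMod p)
    (h : Perp o a (fun e => r (T1 e, T2 e))) : Perp o a T1 ∧ Perp o a T2 := by
  obtain ⟨e1, he1⟩ := hoo
  have key : ∀ x y : K, (x, y) ≠ (o, o) →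
      ∑ e ∈ univ.filter (fun e => (T1 e, T2 e) = (x, y)), a e = 0 := by
    intro x y hxy
    by_cases hex : ∃ e0, (T1 e0, T2 e0) = (x, y)
    · obtain ⟨e0, he0⟩ := hex
      have h1 : r (x, y) ≠ o := by
        intro h2
        apply hxy
        rw [← he0, ← he1]
        apply hinj
        rw [he0, he1, h2, hr]
      have h2 := h (r (x, y)) h1
      rw [← h2]
      congr 1
      ext e
      simp only [mem_filter, mem_univ, true_and]
      constructor
      · intro h3; rw [h3]
      · intro h3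
        rw [← he0]
        apply hinj
        rw [h3, he0]
    · push Not at hex
      rw [filter_false_of_mem (fun e _ => hex e), sum_empty]
  constructor
  · intro x hx
    rw [← sum_fiberwise_of_maps_to (s := univ.filter (fun e => T1 e = x)) (t := univ) (g := T2)
      (fun _ _ => mem_univ _)]
    refine sum_eq_zero fun y _ => ?_
    rw [filter_filter]
    have h1 := key x y (fun h2 => hx (congrArg Prod.fst h2))
    rw [← h1]
    congr 1
    ext e
    simp only [mem_filter, mem_univ, true_and, Prod.mk.injEq]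
  · intro y hy
    rw [← sum_fiberwise_of_maps_to (s := univ.filter (fun e => T2 e = y)) (t := univ) (g := T1)
      (fun _ _ => mem_univ _)]
    refine sum_eq_zero fun x _ => ?_
    rw [filter_filter]
    have h1 := key x y (fun h2 => hy (congrArg Prod.snd h2))
    rw [← h1]
    congr 1
    ext e
    simp only [mem_filter, mem_univ, true_and, Prod.mk.injEq]
    tauto

theorem ap_compat_card {J : Type} [DecidableEq J] {b t : ℕ} (hb : 0 < b) (T : Fin b × Fin t → J)
    (σ : Fin b → Equiv.Perm (Fin t)) (hT : Compat T σ) : (univ.image T).card ≤ t := by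
  have h1 : univ.image T ⊆ univ.image (fun i : Fin t => T (⟨0, hb⟩, i)) := by
    intro y hy
    rw [mem_image] at hy
    obtain ⟨⟨x, i⟩, _, rfl⟩ := hy
    rw [mem_image]
    refine ⟨(σ ⟨0, hb⟩).symm (σ x i), mem_univ _, ?_⟩
    apply hT
    simp
  calc (univ.image T).card ≤ (univ.image (fun i : Fin t => T (⟨0, hb⟩, i))).card :=
        card_le_card h1
    _ ≤ (univ : Finset (Fin t)).card := card_image_le
    _ = t := by simp

open Classical in
/-- the distinguished colour class has more than half of the elements -/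
def Light {K : Type} {b t : ℕ} (h : ℕ) (o : K) (T : Fin b × Fin t → K) : Prop :=
  b * h < (univ.filter (fun e => T e = o)).card

theorem ap_light_comp {J K : Type} {b t : ℕ} {h : ℕ} {o : J} {o' : K}
    {T : Fin b × Fin t → J} (hT : Light h o T) (ρ : J → K) (hρ : ρ o = o') :
    Light h o' (ρ ∘ T) := by
  classical
  refine lt_of_lt_of_le hT (card_le_card ?_)
  intro e he
  rw [mem_filter] at he ⊢
  refine ⟨mem_univ _, ?_⟩
  simp only [Function.comp, he.2, hρ]

theorem ap_light_ex {J : Type} {b t : ℕ} {h : ℕ} {o : J} {T : Fin b × Fin t → J}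
    (hT : Light h o T) : ∃ e, T e = o := by
  classical
  have h1 : 0 < (univ.filter (fun e => T e = o)).card := by
    refine lt_of_le_of_lt (Nat.zero_le _) (lt_of_lt_of_le hT (card_le_card ?_))
    intro e he
    exact mem_filter.2 ⟨mem_univ _, (mem_filter.1 he).2⟩
  obtain ⟨e, he⟩ := card_pos.1 h1
  exact ⟨e, (mem_filter.1 he).2⟩

open Classical in
theorem ap_class_le {J K : Type} {b : ℕ} {h : ℕ} {o : K} {T : Fin b × Fin (2 * h) → K}
    (hT : Light h o T) (T' : Fin b × Fin (2 * h) → J) (π : J → K) (hπ : ∀ e, π (T' e) = T e)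
    (y' : J) (hy : π y' ≠ o) : (univ.filter (fun e => T' e = y')).card ≤ b * h := by
  have h3 := Finset.card_filter_add_card_filter_not
    (s := (univ : Finset (Fin b × Fin (2 * h)))) (fun e => T e = o)
  have h4 : (univ.filter (fun e => T' e = y')).card ≤
      (univ.filter (fun e => ¬ T e = o)).card := by
    refine card_le_card fun e he => ?_
    rw [mem_filter] at he ⊢
    exact ⟨mem_univ _, by rw [← hπ e, he.2]; exact hy⟩
  unfold Light at hT
  simp only [card_univ, Fintype.card_prod, Fintype.card_fin] at h3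
  have h5 : b * (2 * h) = b * h + b * h := by ring
  omega

open Classical in
theorem ap_notlight {J : Type} {b t : ℕ} {h : ℕ} {o : J} {T : Fin b × Fin t → J}
    (hT : ¬ Light h o T) : (univ.filter (fun e => T e = o)).card ≤ b * h := not_lt.1 hT

theorem ap_compat_comp {J J' : Type} {b t : ℕ} {T : Fin b × Fin t → J}
    {σ : Fin b → Equiv.Perm (Fin t)} (hT : Compat T σ) (ρ : J → J') : Compat (ρ ∘ T) σ := by
  intro x i x' i' h
  simp only [Function.comp, hT x i x' i' h]

open Classical in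
/-- `f` is approximated by a family of at most `M` light colourings -/
def Apx {K : Type} {b t p : ℕ} (h : ℕ) (o : K) (M : ℝ)
    (BP : Finset (Fin b → Equiv.Perm (Fin t))) (BN : Finset (Fin b × Fin t → ZMod p))
    (f : Set (Fin b → Fin t) → Bool) : Prop :=
  ∃ G : Finset (Fin b × Fin t → K), (G.card : ℝ) ≤ M ∧ (∀ T ∈ G, Light h o T) ∧
    (∀ σ, σ ∉ BP → f (posX σ) = true → ∃ T ∈ G, Compat T σ) ∧
    ∀ a, a ∉ BN → (∃ T ∈ G, Perp o a T) → f (negX a) = true

theorem Apx.mono {K : Type} {b t p : ℕ} {h : ℕ} {o : K} {M : ℝ}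
    {BP BP' : Finset (Fin b → Equiv.Perm (Fin t))} {BN BN' : Finset (Fin b × Fin t → ZMod p)}
    {f : Set (Fin b → Fin t) → Bool} (hf : Apx h o M BP BN f) (h1 : BP ⊆ BP') (h2 : BN ⊆ BN') :
    Apx h o M BP' BN' f := by
  obtain ⟨G, hG1, hG2, hG3, hG4⟩ := hf
  exact ⟨G, hG1, hG2, fun σ hσ => hG3 σ (fun h' => hσ (h1 h')),
    fun a ha => hG4 a (fun h' => ha (h2 h'))⟩

theorem ap_var {K : Type} {b p : ℕ} {h : ℕ} (hh : 2 ≤ h) (hb : 0 < b)
    {o κ : K} (hκ : κ ≠ o) {M : ℝ} (hM : 1 ≤ M) (BP : Finset (Fin b → Equiv.Perm (Fin (2 * h))))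
    (BN : Finset (Fin b × Fin (2 * h) → ZMod p)) (f : Set (Fin b → Fin (2 * h)) → Bool)
    (hf : f ∈ VarB (Fin b → Fin (2 * h))) : Apx h o M BP BN f := by
  classical
  have hbh : b * h < b * (2 * h) := Nat.mul_lt_mul_of_pos_left (by omega) hb
  rcases hf with ⟨s, rfl⟩ | ⟨v, rfl⟩
  · refine ⟨{fun e => if s e.1 = e.2 then κ else o}, by simpa using hM, ?_, ?_, ?_⟩
    · intro T hT
      rw [mem_singleton] at hT
      subst hT
      unfold Light
      have h1 : (univ.filter (fun e : Fin b × Fin (2 * h) => s e.1 = e.2)).card = b := by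
        have : univ.filter (fun e : Fin b × Fin (2 * h) => s e.1 = e.2) =
            univ.image (fun x : Fin b => (x, s x)) := by
          ext ⟨x, i⟩
          simp
        rw [this, card_image_of_injective _ (fun x y hxy => congrArg Prod.fst hxy)]
        simp
      have h2 := Finset.card_filter_add_card_filter_not
        (s := (univ : Finset (Fin b × Fin (2 * h)))) (fun e => s e.1 = e.2)
      rw [h1] at h2
      have h3 : (univ.filter (fun e : Fin b × Fin (2 * h) =>
          (if s e.1 = e.2 then κ else o) = o)).card =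
          (univ.filter (fun e : Fin b × Fin (2 * h) => ¬ s e.1 = e.2)).card := by
        congr 1
        ext e
        simp only [mem_filter, mem_univ, true_and]
        split_ifs with h4
        · simp [h4, hκ]
        · simp [h4]
      rw [h3]
      simp only [card_univ, Fintype.card_prod, Fintype.card_fin] at h2
      have h4 : b * (2 * h) = b * h + b * h := by ring
      have h5 : b * 2 ≤ b * h := Nat.mul_le_mul_left _ hh
      omega
    · intro σ _ hs
      simp only [decide_eq_true_eq] at hs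
      obtain ⟨c, hc⟩ := hs
      refine ⟨_, mem_singleton_self _, ?_⟩
      have key : ∀ x i, s x = i ↔ σ x i = c := by
        intro x i
        constructor
        · rintro rfl; exact hc x
        · intro h1
          exact (σ x).injective (by rw [hc x, h1])
      intro x i x' i' hxx
      simp only [key, hxx]
    · rintro a - ⟨T, hT, hP⟩
      rw [mem_singleton] at hT
      subst hT
      simp only [decide_eq_true_eq]
      have h1 := hP κ hκ
      change ∑ x, a (x, s x) = 0
      rw [← h1]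
      have : univ.filter (fun e : Fin b × Fin (2 * h) => (if s e.1 = e.2 then κ else o) = κ) =
          univ.image (fun x : Fin b => (x, s x)) := by
        ext ⟨x, i⟩
        simp only [mem_filter, mem_univ, true_and, mem_image, Prod.mk.injEq]
        constructor
        · intro h2
          by_cases h3 : s x = i
          · exact ⟨x, rfl, h3⟩
          · simp [h3, hκ.symm] at h2
        · rintro ⟨y, rfl, rfl⟩
          simp
      rw [this, sum_image (fun x _ y _ hxy => congrArg Prod.fst hxy)]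
  · cases v
    · exact ⟨∅, by simpa using (zero_le_one.trans hM), by simp, by simp, by simp⟩
    · refine ⟨{fun _ => o}, by simpa using hM, ?_, ?_, by simp⟩
      · intro T hT
        rw [mem_singleton] at hT
        subst hT
        unfold Light
        simpa using hbh
      · intro σ _ _
        exact ⟨_, mem_singleton_self _, fun _ _ _ _ _ => rfl⟩

open Classical in
/-- the abstract plucking hypothesis -/
def PluckH {K : Type} [Fintype K] (b t p : ℕ) [NeZero p] (o : K) (M en : ℝ) : Prop :=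
  ∀ G : Finset (Fin b × Fin t → K),
    ∃ G' : Finset (Fin b × Fin t → K), (G'.card : ℝ) ≤ M ∧
      (∀ T' ∈ G', ∃ T ∈ G, ∃ ρ : K → K, ρ o = o ∧ T' = ρ ∘ T) ∧
      (∀ T ∈ G, ∃ T' ∈ G', ∃ ρ : K → K, T' = ρ ∘ T) ∧
      ((univ.filter (fun a : Fin b × Fin t → ZMod p =>
        (∃ T' ∈ G', Perp o a T') ∧ ∀ T ∈ G, ¬ Perp o a T)).card : ℝ) ≤ G.card * en

open Classical in
theorem ap_pluck {K : Type} [Fintype K] {b t p : ℕ} [NeZero p] {h : ℕ} {o : K} {M en : ℝ}
    (hpl : PluckH b t p o M en) {BP : Finset (Fin b → Equiv.Perm (Fin t))}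
    {BN : Finset (Fin b × Fin t → ZMod p)} {f : Set (Fin b → Fin t) → Bool}
    (G : Finset (Fin b × Fin t → K)) (hG2 : ∀ T ∈ G, Light h o T)
    (hG3 : ∀ σ, σ ∉ BP → f (posX σ) = true → ∃ T ∈ G, Compat T σ)
    (hG4 : ∀ a, a ∉ BN → (∃ T ∈ G, Perp o a T) → f (negX a) = true) :
    ∃ BN' : Finset (Fin b × Fin t → ZMod p), (BN'.card : ℝ) ≤ BN.card + G.card * en ∧ BN ⊆ BN' ∧
      Apx h o M BP BN' f := by
  obtain ⟨G', h1, h2, h3, h4⟩ := hpl G
  refine ⟨BN ∪ univ.filter (fun a : Fin b × Fin t → ZMod p =>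
        (∃ T' ∈ G', Perp o a T') ∧ ∀ T ∈ G, ¬ Perp o a T), ?_, subset_union_left, G', h1, ?_, ?_, ?_⟩
  · refine le_trans ?_ (add_le_add_right h4 (BN.card : ℝ))
    exact_mod_cast card_union_le _ _
  · intro T' hT'
    obtain ⟨T, hT, ρ, hρ, rfl⟩ := h2 T' hT'
    exact ap_light_comp (hG2 T hT) ρ hρ
  · intro σ hσ hf
    obtain ⟨T, hT, hc⟩ := hG3 σ hσ hf
    obtain ⟨T', hT', ρ, rfl⟩ := h3 T hT
    exact ⟨_, hT', ap_compat_comp hc ρ⟩
  · intro a ha hP
    rw [mem_union, mem_filter] at ha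
    push Not at ha
    obtain ⟨T, hT, hPT⟩ := ha.2 (mem_univ _) hP
    exact hG4 a ha.1 ⟨T, hT, hPT⟩

open Classical in
theorem ap_or {K : Type} [Fintype K] {b t p : ℕ} [NeZero p] {h : ℕ} {o : K} {M en : ℝ}
    (hpl : PluckH b t p o M en) (hen : 0 ≤ en) (hM : 1 ≤ M)
    {BP : Finset (Fin b → Equiv.Perm (Fin t))}
    {BN : Finset (Fin b × Fin t → ZMod p)} {f g : Set (Fin b → Fin t) → Bool}
    (hf : Apx h o M BP BN f) (hg : Apx h o M BP BN g) :
    ∃ BN' : Finset (Fin b × Fin t → ZMod p), (BN'.card : ℝ) ≤ BN.card + 2 * M ^ 2 * en ∧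
      BN ⊆ BN' ∧ Apx h o M BP BN' (fun X => f X || g X) := by
  obtain ⟨F, hF1, hF2, hF3, hF4⟩ := hf
  obtain ⟨G, hG1, hG2, hG3, hG4⟩ := hg
  obtain ⟨BN', h1, h2, h3⟩ := ap_pluck hpl (h := h) (BP := BP) (BN := BN)
    (f := fun X => f X || g X) (F ∪ G) (by
      intro T hT
      rw [mem_union] at hT
      rcases hT with hT | hT
      · exact hF2 T hT
      · exact hG2 T hT) (by
      intro σ hσ hfg
      simp only [Bool.or_eq_true] at hfg
      rcases hfg with h1 | h1
      · obtain ⟨T, hT, hc⟩ := hF3 σ hσ h1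
        exact ⟨T, mem_union_left _ hT, hc⟩
      · obtain ⟨T, hT, hc⟩ := hG3 σ hσ h1
        exact ⟨T, mem_union_right _ hT, hc⟩) (by
      rintro a ha ⟨T, hT, hP⟩
      simp only [Bool.or_eq_true]
      rw [mem_union] at hT
      rcases hT with hT | hT
      · exact Or.inl (hF4 a ha ⟨T, hT, hP⟩)
      · exact Or.inr (hG4 a ha ⟨T, hT, hP⟩))
  refine ⟨BN', h1.trans ?_, h2, h3⟩
  have h4 : ((F ∪ G).card : ℝ) ≤ 2 * M ^ 2 := by
    have h5 : ((F ∪ G).card : ℝ) ≤ F.card + G.card := by exact_mod_cast card_union_le F G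
    nlinarith
  have := mul_le_mul_of_nonneg_right h4 hen
  linarith

open Classical in
theorem ap_and {K : Type} [Fintype K] {b h p : ℕ} [NeZero p] (hb : 0 < b) {o : K} {M en : ℝ}
    (hK : Fintype.card K = 2 * h)
    (hpl : PluckH b (2 * h) p o M en) (hen : 0 ≤ en) (hM : 1 ≤ M)
    {BP : Finset (Fin b → Equiv.Perm (Fin (2 * h)))}
    {BN : Finset (Fin b × Fin (2 * h) → ZMod p)} {f g : Set (Fin b → Fin (2 * h)) → Bool}
    (hf : Apx h o M BP BN f) (hg : Apx h o M BP BN g) :
    ∃ (BP' : Finset (Fin b → Equiv.Perm (Fin (2 * h))))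
      (BN' : Finset (Fin b × Fin (2 * h) → ZMod p)),
      (BP'.card : ℝ) ≤ BP.card + M ^ 2 * (((2 * h) ^ 2) ^ (2 * h) * (h.factorial ^ 2) ^ b : ℕ) ∧
      (BN'.card : ℝ) ≤ BN.card + 2 * M ^ 2 * en ∧
      BP ⊆ BP' ∧ BN ⊆ BN' ∧ Apx h o M BP' BN' (fun X => f X && g X) := by
  obtain ⟨F, hF1, hF2, hF3, hF4⟩ := hf
  obtain ⟨G, hG1, hG2, hG3, hG4⟩ := hg
  have hM0 : 0 ≤ M := zero_le_one.trans hM
  let join : (Fin b × Fin (2 * h) → K) × (Fin b × Fin (2 * h) → K) → Fin b × Fin (2 * h) → K × K :=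
    fun TT e => (TT.1 e, TT.2 e)
  let good : (Fin b × Fin (2 * h) → K) × (Fin b × Fin (2 * h) → K) → Prop := fun TT =>
    (univ.image (join TT)).card ≤ 2 * h ∧ Light h (o, o) (join TT)
  have hrec : ∀ TT, ∃ r : K × K → K, good TT → (r (o, o) = o ∧
      (∀ e e', r (join TT e) = r (join TT e') → join TT e = join TT e') ∧
      ∃ e, join TT e = (o, o)) := by
    intro TT
    by_cases hgd : good TT
    · have hoo : ∃ e, join TT e = (o, o) := ap_light_ex hgd.2
      obtain ⟨r, hr1, hr2⟩ := ap_recolour o (join TT) (by rw [hK]; exact hgd.1) hoo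
      exact ⟨r, fun _ => ⟨hr1, hr2, hoo⟩⟩
    · exact ⟨fun _ => o, fun h => absurd h hgd⟩
  choose r hr using hrec
  let H : Finset (Fin b × Fin (2 * h) → K) :=
    ((F ×ˢ G).filter good).image (fun TT => r TT ∘ join TT)
  let BPn : Finset (Fin b → Equiv.Perm (Fin (2 * h))) :=
    ((F ×ˢ G).filter (fun TT => ¬ Light h (o, o) (join TT))).biUnion
      (fun TT => univ.filter (fun σ => Compat (join TT) σ))
  have hFG : (((F ×ˢ G).card : ℕ) : ℝ) ≤ M ^ 2 := by
    rw [card_product]
    push_cast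
    rw [sq]
    exact mul_le_mul hF1 hG1 (Nat.cast_nonneg _) hM0
  have hBPn : (BPn.card : ℝ) ≤
      M ^ 2 * (((2 * h) ^ 2) ^ (2 * h) * (h.factorial ^ 2) ^ b : ℕ) := by
    have h1 : BPn.card ≤ (F ×ˢ G).card * (((2 * h) ^ 2) ^ (2 * h) * (h.factorial ^ 2) ^ b) := by
      refine (card_biUnion_le_card_mul _ _ (((2 * h) ^ 2) ^ (2 * h) * (h.factorial ^ 2) ^ b)
        ?_).trans (Nat.mul_le_mul_right _ (card_filter_le _ _))
      intro TT hTT
      rw [mem_filter, mem_product] at hTT
      have h2 := pos_heavy hb (join TT) (by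
        rintro ⟨y1, y2⟩
        by_cases hy : (y1, y2) = (o, o)
        · rw [hy]
          exact ap_notlight hTT.2
        · by_cases hy1 : y1 = o
          · have hy2 : y2 ≠ o := fun h6 => hy (by rw [hy1, h6])
            exact ap_class_le (hG2 _ hTT.1.2) (join TT) Prod.snd (fun _ => rfl) (y1, y2) hy2
          · exact ap_class_le (hF2 _ hTT.1.1) (join TT) Prod.fst (fun _ => rfl) (y1, y2) hy1)
      refine h2.trans (le_of_eq ?_)
      rw [Fintype.card_prod, hK, ← sq]
    calc (BPn.card : ℝ) ≤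
        (((F ×ˢ G).card * (((2 * h) ^ 2) ^ (2 * h) * (h.factorial ^ 2) ^ b) : ℕ) : ℝ) := by
          exact_mod_cast h1
      _ = (((F ×ˢ G).card : ℕ) : ℝ) *
          (((2 * h) ^ 2) ^ (2 * h) * (h.factorial ^ 2) ^ b : ℕ) := by push_cast; ring
      _ ≤ _ := mul_le_mul_of_nonneg_right hFG (Nat.cast_nonneg _)
  obtain ⟨BN', h1, h2, h3⟩ := ap_pluck hpl (h := h) (BP := BP ∪ BPn) (BN := BN)
    (f := fun X => f X && g X) H (by
      intro T hT
      rw [mem_image] at hT
      obtain ⟨TT, hTT, rfl⟩ := hT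
      rw [mem_filter] at hTT
      obtain ⟨hr1, hr2, hr3⟩ := hr TT hTT.2
      exact ap_light_comp hTT.2.2 (r TT) hr1) (by
      intro σ hσ hfg
      rw [mem_union] at hσ
      push Not at hσ
      simp only [Bool.and_eq_true] at hfg
      obtain ⟨T1, hT1, hc1⟩ := hF3 σ hσ.1 hfg.1
      obtain ⟨T2, hT2, hc2⟩ := hG3 σ hσ.1 hfg.2
      have hcJ : Compat (join (T1, T2)) σ := by
        intro x i x' i' hxx
        simp only [join, hc1 x i x' i' hxx, hc2 x i x' i' hxx]
      have hgood : good (T1, T2) := by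
        refine ⟨ap_compat_card hb _ σ hcJ, ?_⟩
        by_contra hl
        apply hσ.2
        rw [mem_biUnion]
        exact ⟨(T1, T2), mem_filter.2 ⟨mem_product.2 ⟨hT1, hT2⟩, hl⟩,
          mem_filter.2 ⟨mem_univ _, hcJ⟩⟩
      exact ⟨_, mem_image_of_mem _ (mem_filter.2 ⟨mem_product.2 ⟨hT1, hT2⟩, hgood⟩),
        ap_compat_comp hcJ _⟩) (by
      rintro a ha ⟨T, hT, hP⟩
      rw [mem_image] at hT
      obtain ⟨TT, hTT, rfl⟩ := hT
      rw [mem_filter, mem_product] at hTT
      obtain ⟨hr1, hr2, hr3⟩ := hr TT hTT.2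
      have h4 := ap_perp_join o TT.1 TT.2 (r TT) hr1 hr2 hr3 a hP
      simp only [Bool.and_eq_true]
      exact ⟨hF4 a ha ⟨_, hTT.1.1, h4.1⟩, hG4 a ha ⟨_, hTT.1.2, h4.2⟩⟩)
  refine ⟨BP ∪ BPn, BN', ?_, h1.trans ?_, subset_union_left, h2, h3⟩
  · refine le_trans ?_ (add_le_add_right hBPn (BP.card : ℝ))
    exact_mod_cast card_union_le _ _
  · have h4 : (H.card : ℝ) ≤ 2 * M ^ 2 := by
      have h5 : H.card ≤ (F ×ˢ G).card := card_image_le.trans (card_filter_le _ _)
      have h6 : (H.card : ℝ) ≤ (((F ×ˢ G).card : ℕ) : ℝ) := by exact_mod_cast h5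
      nlinarith
    have := mul_le_mul_of_nonneg_right h4 hen
    linarith

theorem apx_main {K : Type} [Fintype K] {b h p : ℕ} [NeZero p] (hb : 0 < b)
    (hh : 2 ≤ h) {o : K} {M en : ℝ} (hK : Fintype.card K = 2 * h)
    (hpl : PluckH b (2 * h) p o M en) (hen : 0 ≤ en) (hM : 1 ≤ M)
    {L : List (Set (Fin b → Fin (2 * h)) → Bool)} (hL : MProg (VarB (Fin b → Fin (2 * h))) L) :
    ∃ (BP : Finset (Fin b → Equiv.Perm (Fin (2 * h))))
      (BN : Finset (Fin b × Fin (2 * h) → ZMod p)),
      (BP.card : ℝ) ≤ L.length * (M ^ 2 * (((2 * h) ^ 2) ^ (2 * h) * (h.factorial ^ 2) ^ b : ℕ)) ∧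
      (BN.card : ℝ) ≤ L.length * (2 * M ^ 2 * en) ∧
      ∀ f, (f ∈ VarB (Fin b → Fin (2 * h)) ∨ f ∈ L) → Apx h o M BP BN f := by
  classical
  obtain ⟨κ, hκ⟩ : ∃ κ : K, κ ≠ o := by
    have : 1 < Fintype.card K := by rw [hK]; omega
    exact Fintype.exists_ne_of_one_lt_card this o
  set ep : ℝ := ((((2 * h) ^ 2) ^ (2 * h) * (h.factorial ^ 2) ^ b : ℕ) : ℝ) with hep
  induction hL with
  | nil =>
    refine ⟨∅, ∅, by simp, by simp, fun f hf => ?_⟩
    rcases hf with hf | hf
    · exact ap_var hh hb hκ hM _ _ f hf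
    · simp at hf
  | @and L f g _ hf hg ih =>
    obtain ⟨BP, BN, hBP, hBN, hA⟩ := ih
    obtain ⟨BP', BN', h1, h2, h3, h4, h5⟩ := ap_and hb hK hpl hen hM
      (hA f hf) (hA g hg)
    refine ⟨BP', BN', ?_, ?_, ?_⟩
    · rw [List.length_cons]
      push_cast
      rw [← hep] at h1
      linarith
    · rw [List.length_cons]
      push_cast
      linarith
    · intro f' hf'
      rcases hf' with hf' | hf'
      · exact (hA f' (Or.inl hf')).mono h3 h4
      · rw [List.mem_cons] at hf'
        rcases hf' with rfl | hf'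
        · exact h5
        · exact (hA f' (Or.inr hf')).mono h3 h4
  | @or L f g _ hf hg ih =>
    obtain ⟨BP, BN, hBP, hBN, hA⟩ := ih
    obtain ⟨BN', h2, h4, h5⟩ := ap_or hpl hen hM
      (hA f hf) (hA g hg)
    have hep0 : 0 ≤ M ^ 2 * ep := by positivity
    refine ⟨BP, BN', ?_, ?_, ?_⟩
    · rw [List.length_cons]
      push_cast
      linarith
    · rw [List.length_cons]
      push_cast
      linarith
    · intro f' hf'
      rcases hf' with hf' | hf'
      · exact (hA f' (Or.inl hf')).mono subset_rfl h4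
      · rw [List.mem_cons] at hf'
        rcases hf' with rfl | hf'
        · exact h5
        · exact (hA f' (Or.inr hf')).mono subset_rfl h4

end Pool.Agent.H537R3.SC
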