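import Pool.Agent.H537R3.SC.Defs

set_option autoImplicit false

namespace Pool.Agent.H537R3.SC

theorem cb_nat (m : ℕ) : (2 * m + 1) * (Nat.centralBinom m) ^ 2 ≤ 16 ^ m := by
  induction m with
  | zero => simp
  | succ m ih =>
    have h := Nat.succ_mul_centralBinom_succ m
    have h1 : (m + 1) ^ 2 * ((2 * (m + 1) + 1) * (Nat.centralBinom (m + 1)) ^ 2) ≤
        (m + 1) ^ 2 * 16 ^ (m + 1) := by
      calc (m + 1) ^ 2 * ((2 * (m + 1) + 1) * (Nat.centralBinom (m + 1)) ^ 2)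
          = (2 * (m + 1) + 1) * ((m + 1) * Nat.centralBinom (m + 1)) ^ 2 := by ring
        _ = (2 * (m + 1) + 1) * (2 * (2 * m + 1) * Nat.centralBinom m) ^ 2 := by rw [h]
        _ = 4 * ((2 * m + 3) * (2 * m + 1)) * ((2 * m + 1) * Nat.centralBinom m ^ 2) := by ring
        _ ≤ 4 * (4 * (m + 1) ^ 2) * 16 ^ m := by
            apply Nat.mul_le_mul _ ih
            apply Nat.mul_le_mul_left
            nlinarith
        _ = (m + 1) ^ 2 * 16 ^ (m + 1) := by ring
    exact Nat.le_of_mul_le_mul_left h1 (by positivity)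

/-- CB: the central binomial coefficient -/
theorem choose_half (m : ℕ) : ((2 * m).choose m : ℝ) * Real.sqrt (2 * m + 1) ≤ 4 ^ m := by
  have h := cb_nat m
  rw [Nat.centralBinom_eq_two_mul_choose] at h
  have h' : ((2 * m + 1 : ℕ) : ℝ) * ((2 * m).choose m : ℝ) ^ 2 ≤ (16 : ℝ) ^ m := by
    exact_mod_cast h
  have h16 : (16 : ℝ) ^ m = (4 ^ m) ^ 2 := by
    rw [← pow_mul, mul_comm m 2, pow_mul]; norm_num
  apply le_of_sq_le_sq _ (by positivity)
  rw [mul_pow, Real.sq_sqrt (by positivity), ← h16]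
  push_cast at h'
  linarith

end Pool.Agent.H537R3.SC
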