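import Pool.Agent.H537R3.SC.Defs

set_option autoImplicit false

/-! NAT: Natarajan's lemma. -/

namespace Pool.Agent.H537R3.SC

open Finset

/-- The hypothesis of Natarajan's lemma. -/
def nat_Hyp {E K : Type} [DecidableEq E] (Y : Finset (E → K)) (d : ℕ) : Prop :=
  ∀ (V : Finset E) (α β : E → K), d < V.card → (∀ j ∈ V, α j ≠ β j) →
      ¬ ∀ x : E → Bool, ∃ y ∈ Y, ∀ j ∈ V, y j = if x j then α j else β j

theorem nat_count {K : Type} [DecidableEq K] (s : Finset K) :
    s.card ≤ (if s.Nonempty then 1 else 0) +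
      ((s ×ˢ s).filter (fun p => p.1 ≠ p.2)).card := by
  rcases s.eq_empty_or_nonempty with rfl | hs
  · simp
  · rw [if_pos hs]
    have h1 : ((s ×ˢ s).filter (fun p => p.1 ≠ p.2)).card = s.card * s.card - s.card := by
      have := Finset.offDiag_card s
      rw [← this]
      congr 1
      ext p
      simp only [mem_filter, mem_product, mem_offDiag]
      tauto
    rw [h1]
    have h2 : 1 ≤ s.card := hs.card_pos
    obtain ⟨m, hm⟩ : ∃ m, s.card = m + 1 := ⟨s.card - 1, by omega⟩
    rw [hm]
    have : (m + 1) * (m + 1) - (m + 1) = (m + 1) * m := by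
      rw [Nat.mul_succ]; simp
    rw [this]
    nlinarith

theorem nat_fin {K : Type} [Fintype K] [DecidableEq K] {x : ℝ} (hx0 : 0 < x) (hx1 : x ≤ 1)
    (n : ℕ) : ∀ (Y : Finset (Fin n → K)) (d : ℕ), nat_Hyp Y d →
    (Y.card : ℝ) * x ^ d ≤ (1 + (Fintype.card K : ℝ) ^ 2 * x) ^ n := by
  induction n with
  | zero =>
    intro Y d _
    have h1 : Y.card ≤ 1 := by
      apply Finset.card_le_one.mpr
      intro a _ b _
      exact Subsingleton.elim _ _
    have h1' : (Y.card : ℝ) ≤ 1 := by exact_mod_cast h1
    have h2 : x ^ d ≤ 1 := pow_le_one₀ hx0.le hx1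
    have h3 : 0 ≤ x ^ d := by positivity
    simp only [pow_zero]
    nlinarith [Nat.cast_nonneg (α := ℝ) Y.card]
  | succ n ih =>
    intro Y d h
    classical
    set Y' : Finset (Fin n → K) := Y.image Fin.tail with hY'
    let Z : K → K → Finset (Fin n → K) := fun a b =>
      Y'.filter (fun y => Fin.cons a y ∈ Y ∧ Fin.cons b y ∈ Y)
    -- counting
    have hcount : Y.card ≤ Y'.card +
        ∑ p ∈ (univ : Finset (K × K)).filter (fun p => p.1 ≠ p.2), (Z p.1 p.2).card := by
      have e1 : Y.card = ∑ y ∈ Y', (univ.filter (fun a : K => (Fin.cons a y : Fin (n+1) → K) ∈ Y)).card := by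
        rw [Finset.card_eq_sum_card_image Fin.tail Y]
        apply Finset.sum_congr rfl
        intro y hy
        apply Finset.card_bij (fun z _ => z 0)
        · intro z hz
          rw [mem_filter] at hz
          rw [mem_filter]
          refine ⟨mem_univ _, ?_⟩
          rw [← hz.2, Fin.cons_self_tail]
          exact hz.1
        · intro z hz w hw hzw
          rw [mem_filter] at hz hw
          rw [← Fin.cons_self_tail z, ← Fin.cons_self_tail w, hzw, hz.2, hw.2]
        · intro a ha
          rw [mem_filter] at ha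
          refine ⟨Fin.cons a y, ?_, ?_⟩
          · rw [mem_filter]
            exact ⟨ha.2, Fin.tail_cons _ _⟩
          · exact Fin.cons_zero _ _
      have e2 : ∑ p ∈ (univ : Finset (K × K)).filter (fun p => p.1 ≠ p.2), (Z p.1 p.2).card =
          ∑ y ∈ Y', (((univ.filter (fun a : K => (Fin.cons a y : Fin (n+1) → K) ∈ Y)) ×ˢ
            (univ.filter (fun a : K => (Fin.cons a y : Fin (n+1) → K) ∈ Y))).filter
              (fun p => p.1 ≠ p.2)).card := by
        have e3 : ∀ p : K × K, (Z p.1 p.2).card = ∑ y ∈ Y',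
            if ((Fin.cons p.1 y : Fin (n+1) → K) ∈ Y ∧ (Fin.cons p.2 y : Fin (n+1) → K) ∈ Y)
              then 1 else 0 := by
          intro p
          exact Finset.card_filter _ _
        rw [Finset.sum_congr rfl (fun p _ => e3 p), Finset.sum_comm]
        apply Finset.sum_congr rfl
        intro y _
        rw [← Finset.card_filter]
        congr 1
        ext p
        simp only [mem_filter, mem_product, mem_univ, true_and]
        tauto
      rw [e2, e1, Finset.card_eq_sum_ones Y', ← Finset.sum_add_distrib]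
      apply Finset.sum_le_sum
      intro y hy
      have h3 := nat_count (univ.filter (fun a : K => (Fin.cons a y : Fin (n+1) → K) ∈ Y))
      have h4 : (if (univ.filter (fun a : K => (Fin.cons a y : Fin (n+1) → K) ∈ Y)).Nonempty
        then 1 else 0) ≤ 1 := by split_ifs <;> omega
      omega
    -- the hypothesis for Y'
    have hH' : nat_Hyp Y' d := by
      intro V α β hV hne hsh
      obtain ⟨j0, hj0⟩ : V.Nonempty := Finset.card_pos.mp (by omega)
      have hinj : Function.Injective (Fin.succ : Fin n → Fin (n+1)) := Fin.succ_injective n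
      apply h (V.map ⟨Fin.succ, hinj⟩) (Fin.cons (α j0) α) (Fin.cons (β j0) β)
      · rw [card_map]; exact hV
      · intro j hj
        rw [mem_map] at hj
        obtain ⟨i, hi, rfl⟩ := hj
        exact hne i hi
      · intro x
        obtain ⟨y, hy, hyj⟩ := hsh (fun i => x i.succ)
        rw [hY', mem_image] at hy
        obtain ⟨z, hz, rfl⟩ := hy
        refine ⟨z, hz, ?_⟩
        intro j hj
        rw [mem_map] at hj
        obtain ⟨i, hi, rfl⟩ := hj
        exact hyj i hi
    have hY'b := ih Y' d hH'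
    set k : ℝ := (Fintype.card K : ℝ) with hk
    have hk0 : 0 ≤ k := by positivity
    -- each term
    have hterm : ∀ p ∈ (univ : Finset (K × K)).filter (fun p => p.1 ≠ p.2),
        ((Z p.1 p.2).card : ℝ) * x ^ d ≤ x * (1 + k ^ 2 * x) ^ n := by
      intro p hp
      rw [mem_filter] at hp
      obtain ⟨_, hp⟩ := hp
      -- if Z is shattered on V' then Y is shattered on V' plus 0
      have hshift : ∀ (V : Finset (Fin n)) (α β : Fin n → K), (∀ j ∈ V, α j ≠ β j) →
          (∀ x : Fin n → Bool, ∃ y ∈ Z p.1 p.2, ∀ j ∈ V, y j = if x j then α j else β j) →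
          ¬ d < V.card + 1 := by
        intro V α β hne hsh hV
        have hinj : Function.Injective (Fin.succ : Fin n → Fin (n+1)) := Fin.succ_injective n
        have h0 : (0 : Fin (n+1)) ∉ V.map ⟨Fin.succ, hinj⟩ := by
          rw [mem_map]
          rintro ⟨i, _, hi⟩
          exact Fin.succ_ne_zero i hi
        apply h (insert 0 (V.map ⟨Fin.succ, hinj⟩)) (Fin.cons p.1 α) (Fin.cons p.2 β)
        · rw [card_insert_of_notMem h0, card_map]; exact hV
        · intro j hj
          rw [mem_insert, mem_map] at hj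
          rcases hj with rfl | ⟨i, hi, rfl⟩
          · exact hp
          · exact hne i hi
        · intro x
          obtain ⟨y, hy, hyj⟩ := hsh (fun i => x i.succ)
          rw [mem_filter] at hy
          obtain ⟨_, hya, hyb⟩ := hy
          refine ⟨Fin.cons (if x 0 then p.1 else p.2) y, ?_, ?_⟩
          · split_ifs
            · exact hya
            · exact hyb
          · intro j hj
            rw [mem_insert, mem_map] at hj
            rcases hj with rfl | ⟨i, hi, rfl⟩
            · rfl
            · exact hyj i hi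
      rcases d with _ | d
      · -- Z is empty
        have hZ : Z p.1 p.2 = ∅ := by
          by_contra hne
          obtain ⟨y, hy⟩ := Finset.nonempty_iff_ne_empty.mpr hne
          have := hshift ∅ y y (by simp) (fun x => ⟨y, hy, by simp⟩)
          simp at this
        rw [hZ]
        simp only [card_empty, Nat.cast_zero, zero_mul]
        positivity
      · have hHZ : nat_Hyp (Z p.1 p.2) d := by
          intro V α β hV hne hsh
          exact hshift V α β hne hsh (by omega)
        have := ih (Z p.1 p.2) d hHZ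
        rw [pow_succ]
        calc ((Z p.1 p.2).card : ℝ) * (x ^ d * x) = x * (((Z p.1 p.2).card : ℝ) * x ^ d) := by ring
          _ ≤ x * (1 + k ^ 2 * x) ^ n := by
            apply mul_le_mul_of_nonneg_left this hx0.le
    have hcount' : (Y.card : ℝ) ≤ (Y'.card : ℝ) +
        ∑ p ∈ (univ : Finset (K × K)).filter (fun p => p.1 ≠ p.2), ((Z p.1 p.2).card : ℝ) := by
      exact_mod_cast hcount
    have hxd : 0 ≤ x ^ d := by positivity
    have hnum : (((univ : Finset (K × K)).filter (fun p => p.1 ≠ p.2)).card : ℝ) ≤ k ^ 2 := by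
      have h1 : ((univ : Finset (K × K)).filter (fun p => p.1 ≠ p.2)).card ≤
          Fintype.card K * Fintype.card K := by
        calc _ ≤ (univ : Finset (K × K)).card := card_filter_le _ _
          _ = _ := by rw [Finset.card_univ, Fintype.card_prod]
      calc (((univ : Finset (K × K)).filter (fun p => p.1 ≠ p.2)).card : ℝ) ≤
          ((Fintype.card K * Fintype.card K : ℕ) : ℝ) := by exact_mod_cast h1
        _ = k ^ 2 := by push_cast; rw [hk]; ring
    calc (Y.card : ℝ) * x ^ d ≤ ((Y'.card : ℝ) +
        ∑ p ∈ (univ : Finset (K × K)).filter (fun p => p.1 ≠ p.2), ((Z p.1 p.2).card : ℝ)) * x ^ d :=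
          mul_le_mul_of_nonneg_right hcount' hxd
      _ = (Y'.card : ℝ) * x ^ d + ∑ p ∈ (univ : Finset (K × K)).filter (fun p => p.1 ≠ p.2),
          ((Z p.1 p.2).card : ℝ) * x ^ d := by rw [add_mul, Finset.sum_mul]
      _ ≤ (1 + k ^ 2 * x) ^ n + ∑ p ∈ (univ : Finset (K × K)).filter (fun p => p.1 ≠ p.2),
          x * (1 + k ^ 2 * x) ^ n := add_le_add hY'b (Finset.sum_le_sum hterm)
      _ = (1 + k ^ 2 * x) ^ n +
          (((univ : Finset (K × K)).filter (fun p => p.1 ≠ p.2)).card : ℝ) *
            (x * (1 + k ^ 2 * x) ^ n) := by rw [Finset.sum_const, nsmul_eq_mul]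
      _ ≤ (1 + k ^ 2 * x) ^ n + k ^ 2 * (x * (1 + k ^ 2 * x) ^ n) := by
          have : 0 ≤ x * (1 + k ^ 2 * x) ^ n := by positivity
          have := mul_le_mul_of_nonneg_right hnum this
          linarith
      _ = (1 + k ^ 2 * x) ^ (n + 1) := by ring

/-- NAT: Natarajan's lemma -/
theorem natarajan {E K : Type} [Fintype E] [Fintype K] [DecidableEq E] [DecidableEq K]
    (Y : Finset (E → K)) (d : ℕ)
    (h : ∀ (V : Finset E) (α β : E → K), d < V.card → (∀ j ∈ V, α j ≠ β j) →
      ¬ ∀ x : E → Bool, ∃ y ∈ Y, ∀ j ∈ V, y j = if x j then α j else β j)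
    {x : ℝ} (hx0 : 0 < x) (hx1 : x ≤ 1) :
    (Y.card : ℝ) * x ^ d ≤ (1 + (Fintype.card K : ℝ) ^ 2 * x) ^ Fintype.card E := by
  classical
  let e : E ≃ Fin (Fintype.card E) := Fintype.equivFin E
  have hinj : Function.Injective (fun y : E → K => y ∘ e.symm) := by
    intro y z hyz
    funext j
    have := congrFun hyz (e j)
    simpa using this
  let Y2 : Finset (Fin (Fintype.card E) → K) := Y.map ⟨fun y => y ∘ e.symm, hinj⟩
  have hc : Y2.card = Y.card := card_map _
  rw [← hc]
  apply nat_fin hx0 hx1
  intro V α β hV hne hsh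
  apply h (V.map e.symm.toEmbedding) (α ∘ e) (β ∘ e)
  · rw [card_map]; exact hV
  · intro j hj
    rw [mem_map] at hj
    obtain ⟨i, hi, rfl⟩ := hj
    simpa using hne i hi
  · intro x
    obtain ⟨y, hy, hyj⟩ := hsh (x ∘ e.symm)
    rw [mem_map] at hy
    obtain ⟨z, hz, rfl⟩ := hy
    refine ⟨z, hz, ?_⟩
    intro j hj
    rw [mem_map] at hj
    obtain ⟨i, hi, rfl⟩ := hj
    simpa using hyj i hi

/-- NAT: with the same pair of values at all the elements of the shattered set -/
theorem natarajan_pair {E K : Type} [Fintype E] [Fintype K] [DecidableEq E] [DecidableEq K]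
    (Y : Finset (E → K)) (v : ℕ)
    (h : ∀ (V : Finset E) (a b : K), V.card = v → a ≠ b →
      ¬ ∀ x : E → Bool, ∃ y ∈ Y, ∀ j ∈ V, y j = if x j then a else b)
    {x : ℝ} (hx0 : 0 < x) (hx1 : x ≤ 1) :
    (Y.card : ℝ) * x ^ (Fintype.card K ^ 2 * v) ≤
      (1 + (Fintype.card K : ℝ) ^ 2 * x) ^ Fintype.card E := by
  classical
  apply natarajan Y _ _ hx0 hx1
  intro V α β hV hne hsh
  obtain ⟨j0, hj0⟩ : V.Nonempty := Finset.card_pos.mp (by omega)
  -- pigeonhole
  have hmaps : ∀ j ∈ V, (fun j => (α j, β j)) j ∈ (univ : Finset (K × K)) := fun j _ => mem_univ _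
  have hcard : (univ : Finset (K × K)).card * v < V.card := by
    rw [Finset.card_univ, Fintype.card_prod, ← pow_two]
    exact hV
  obtain ⟨p, _, hp⟩ := Finset.exists_lt_card_fiber_of_mul_lt_card_of_maps_to hmaps hcard
  obtain ⟨W, hW, hWc⟩ := Finset.exists_subset_card_eq hp.le
  have hpos : (V.filter (fun j => (fun j => (α j, β j)) j = p)).Nonempty :=
    Finset.card_pos.mp (lt_of_le_of_lt (Nat.zero_le v) hp)
  obtain ⟨j1, hj1⟩ := hpos
  rw [mem_filter] at hj1
  have hab : p.1 ≠ p.2 := by
    rw [← hj1.2]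
    exact hne j1 hj1.1
  apply h W p.1 p.2 hWc hab
  intro x
  obtain ⟨y, hy, hyj⟩ := hsh x
  refine ⟨y, hy, ?_⟩
  intro j hj
  have hj2 := hW hj
  rw [mem_filter] at hj2
  rw [hyj j hj2.1, ← hj2.2]

end Pool.Agent.H537R3.SC
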