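import Pool.Agent.H537R3.SC.Defs
import Pool.Agent.H537R3.SC.NAT

set_option autoImplicit false

/-! # Extraction of a subfamily with uniformly distributed patterns -/

namespace Pool.Agent.H537R3.SC

open Finset

theorem ext_choose (n v : ℕ) (y : ℝ) (hy : 0 ≤ y) : (n.choose v : ℝ) * y ^ v ≤ (1 + y) ^ n := by
  rcases le_or_gt v n with h | h
  · rw [add_comm, add_pow]
    have := Finset.single_le_sum (f := fun m => y ^ m * 1 ^ (n - m) * (n.choose m : ℝ))
      (s := Finset.range (n + 1)) (fun i _ => by positivity) (Finset.mem_range.mpr (by omega : v < n + 1))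
    simpa [mul_comm] using this
  · rw [Nat.choose_eq_zero_of_lt h]
    simp only [Nat.cast_zero, zero_mul]
    positivity

theorem ext_base (c : ℝ) (hc : 0 < c) (A : ℝ) (hA : 0 ≤ A) :
    ∃ x : ℝ, 0 < x ∧ x ≤ 1 ∧ 1 + A * x ≤ Real.exp c := by
  have h1 : 0 < Real.exp c - 1 := by
    have := Real.add_one_lt_exp hc.ne'
    linarith
  refine ⟨min 1 ((Real.exp c - 1) / (A + 1)), ?_, min_le_left _ _, ?_⟩
  · exact lt_min one_pos (by positivity)
  · have h2 : A * min 1 ((Real.exp c - 1) / (A + 1)) ≤ A * ((Real.exp c - 1) / (A + 1)) :=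
      mul_le_mul_of_nonneg_left (min_le_right _ _) hA
    have h3 : A * ((Real.exp c - 1) / (A + 1)) ≤ Real.exp c - 1 := by
      rw [← mul_div_assoc, div_le_iff₀ (by linarith)]
      nlinarith
    linarith

/-- `L v ≤ c n / 4` for `v = ⌈η n⌉`. -/
theorem ext_v {L c η : ℝ} {n : ℕ} (hL : 0 ≤ L) (hc : 0 < c) (hη : 0 ≤ η) (h1 : η * (8 * (L + 1)) ≤ c)
    (h2 : 8 * (L + 1) ≤ c * n) : L * (⌈η * n⌉₊ : ℝ) ≤ c * n / 4 := by
  have h3 : (⌈η * n⌉₊ : ℝ) ≤ η * n + 1 := (Nat.ceil_lt_add_one (by positivity)).le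
  have h4 : (0:ℝ) ≤ n := by positivity
  calc L * (⌈η * n⌉₊ : ℝ) ≤ (L + 1) * (η * n + 1) := by
        apply mul_le_mul (by linarith) h3 (by positivity) (by linarith)
    _ = (η * (8 * (L + 1))) * n / 8 + (8 * (L + 1)) / 8 := by ring
    _ ≤ c * n / 8 + (c * n) / 8 := by
        gcongr
    _ = c * n / 4 := by ring

theorem ext_par (k : ℕ) {ξ l : ℝ} (hξ : 0 < ξ) (hl : 0 < l) :
    ∃ η : ℝ, 0 < η ∧ ∃ x : ℝ, 0 < x ∧ x ≤ 1 ∧ ∃ n0 : ℕ, 0 < n0 ∧ ∀ n : ℕ, n0 ≤ n →
      (1 + (k : ℝ) ^ 2 * x) ^ n ≤ x ^ (k ^ 2 * ⌈η * n⌉₊) * 2 ^ (ξ * n / 2) ∧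
      (n.choose ⌈η * n⌉₊ : ℝ) * k ^ 2 * 2 ≤ 2 ^ (l * n) ∧ 2 < (2 : ℝ) ^ (ξ * n / 2) := by
  have hlog : 0 < Real.log 2 := Real.log_pos (by norm_num)
  obtain ⟨x, hx0, hx1, hx⟩ := ext_base (Real.log 2 * ξ / 4) (by positivity) ((k : ℝ) ^ 2) (by positivity)
  obtain ⟨y, hy0, hy1, hy⟩ := ext_base (Real.log 2 * l / 4) (by positivity) 1 (by norm_num)
  rw [one_mul] at hy
  set Lx := -Real.log x * (k : ℝ) ^ 2 with hLx
  set Ly := -Real.log y with hLy
  have hLx0 : 0 ≤ Lx := by
    rw [hLx]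
    have := Real.log_nonpos hx0.le hx1
    have h2 : 0 ≤ -Real.log x := by linarith
    positivity
  have hLy0 : 0 ≤ Ly := by
    rw [hLy]
    have := Real.log_nonpos hy0.le hy1
    linarith
  set η := min (Real.log 2 * ξ / (8 * (Lx + 1))) (Real.log 2 * l / (8 * (Ly + 1))) with hη
  have hη0 : 0 < η := lt_min (by positivity) (by positivity)
  obtain ⟨n0, hn0⟩ := exists_nat_gt (max (max (8 * (Lx + 1) / (Real.log 2 * ξ))
    (8 * (Ly + 1) / (Real.log 2 * l))) (max (2 / ξ) ((k : ℝ) ^ 2 * 2 * 2 / (Real.log 2 * l))))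
  refine ⟨η, hη0, x, hx0, hx1, n0 + 1, by omega, fun n hn => ?_⟩
  have hn' : (n0 : ℝ) ≤ n := by
    exact_mod_cast (by omega : n0 ≤ n)
  have hb := lt_of_lt_of_le hn0 hn'
  have hb1 := lt_of_le_of_lt ((le_max_left _ _).trans (le_max_left _ _)) hb
  have hb2 := lt_of_le_of_lt ((le_max_right _ _).trans (le_max_left _ _)) hb
  have hb3 := lt_of_le_of_lt ((le_max_left _ _).trans (le_max_right _ _)) hb
  have hb4 := lt_of_le_of_lt ((le_max_right _ _).trans (le_max_right _ _)) hb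
  rw [div_lt_iff₀ (by positivity)] at hb1 hb2 hb3 hb4
  have hn1 : (0:ℝ) < n := by
    have : 0 < n := by omega
    exact_mod_cast this
  have hv1 : Lx * (⌈η * n⌉₊ : ℝ) ≤ Real.log 2 * ξ * n / 4 := by
    apply ext_v hLx0 (by positivity) hη0.le
    · have := min_le_left (Real.log 2 * ξ / (8 * (Lx + 1))) (Real.log 2 * l / (8 * (Ly + 1)))
      rw [← hη, le_div_iff₀ (by positivity)] at this
      exact this
    · linarith
  have hv2 : Ly * (⌈η * n⌉₊ : ℝ) ≤ Real.log 2 * l * n / 4 := by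
    apply ext_v hLy0 (by positivity) hη0.le
    · have := min_le_right (Real.log 2 * ξ / (8 * (Lx + 1))) (Real.log 2 * l / (8 * (Ly + 1)))
      rw [← hη, le_div_iff₀ (by positivity)] at this
      exact this
    · linarith
  refine ⟨?_, ?_, ?_⟩
  · have h1 : x ^ (k ^ 2 * ⌈η * n⌉₊) = Real.exp (-(Lx * (⌈η * n⌉₊ : ℝ))) := by
      rw [← Real.rpow_natCast, Real.rpow_def_of_pos hx0]
      congr 1
      rw [hLx]
      push_cast
      ring
    rw [h1, Real.rpow_def_of_pos (by norm_num : (0:ℝ) < 2), ← Real.exp_add]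
    calc (1 + (k : ℝ) ^ 2 * x) ^ n ≤ (Real.exp (Real.log 2 * ξ / 4)) ^ n := by
          gcongr
      _ = Real.exp (Real.log 2 * ξ * n / 4) := by
          rw [← Real.exp_nat_mul]
          congr 1
          ring
      _ ≤ _ := by
          apply Real.exp_le_exp.mpr
          linarith
  · have h1 := ext_choose n ⌈η * n⌉₊ y hy0.le
    have h2 : y ^ ⌈η * n⌉₊ = Real.exp (-(Ly * (⌈η * n⌉₊ : ℝ))) := by
      rw [← Real.rpow_natCast, Real.rpow_def_of_pos hy0]
      congr 1
      rw [hLy]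
      ring
    have h3 : (n.choose ⌈η * n⌉₊ : ℝ) ≤ Real.exp (Real.log 2 * l * n / 2) := by
      have h4 : (1 + y) ^ n ≤ Real.exp (Real.log 2 * l * n / 4) := by
        calc (1 + y) ^ n ≤ (Real.exp (Real.log 2 * l / 4)) ^ n := by gcongr
          _ = Real.exp (Real.log 2 * l * n / 4) := by
              rw [← Real.exp_nat_mul]
              congr 1
              ring
      have h5 : (n.choose ⌈η * n⌉₊ : ℝ) * Real.exp (-(Ly * (⌈η * n⌉₊ : ℝ))) ≤
          Real.exp (Real.log 2 * l * n / 4) := by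
        rw [← h2]
        exact h1.trans h4
      calc (n.choose ⌈η * n⌉₊ : ℝ) = ((n.choose ⌈η * n⌉₊ : ℝ) * Real.exp (-(Ly * (⌈η * n⌉₊ : ℝ)))) *
            Real.exp (Ly * (⌈η * n⌉₊ : ℝ)) := by
              rw [mul_assoc, ← Real.exp_add]
              simp
        _ ≤ Real.exp (Real.log 2 * l * n / 4) * Real.exp (Real.log 2 * l * n / 4) := by
            gcongr
        _ = Real.exp (Real.log 2 * l * n / 2) := by
            rw [← Real.exp_add]
            congr 1
            ring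
    have h6 : (k : ℝ) ^ 2 * 2 ≤ Real.exp (Real.log 2 * l * n / 2) := by
      have h7 := Real.add_one_le_exp (Real.log 2 * l * n / 2)
      linarith
    rw [Real.rpow_def_of_pos (by norm_num : (0:ℝ) < 2)]
    calc (n.choose ⌈η * n⌉₊ : ℝ) * k ^ 2 * 2 = (n.choose ⌈η * n⌉₊ : ℝ) * (k ^ 2 * 2) := by ring
      _ ≤ Real.exp (Real.log 2 * l * n / 2) * Real.exp (Real.log 2 * l * n / 2) := by
          gcongr
      _ = _ := by
          rw [← Real.exp_add]
          congr 1
          ring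
  · calc (2:ℝ) = 2 ^ (1:ℝ) := by rw [Real.rpow_one]
      _ < 2 ^ (ξ * n / 2) := by
          apply Real.rpow_lt_rpow_of_exponent_lt (by norm_num)
          linarith

open Classical in
/-- Existence of a good triple. -/
theorem ext_triple {E K : Type} [Fintype E] [Fintype K] (S : Finset (E → K)) (ρ : K → K)
    (v : ℕ) (hS : S.Nonempty) (Λ Ξ x : ℝ) (hΛ : 0 < Λ) (hΞ : 0 < Ξ) (hx0 : 0 < x) (hx1 : x ≤ 1)
    (h1 : (1 + (Fintype.card K : ℝ) ^ 2 * x) ^ Fintype.card E ≤
      x ^ (Fintype.card K ^ 2 * v) * Ξ)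
    (h2 : ((Fintype.card E).choose v : ℝ) * (Fintype.card K : ℝ) ^ 2 * 2 ≤ Λ) (h3 : 2 < Ξ)
    (hfib : ∀ T ∈ S, ((S.filter (fun T' => ρ ∘ T' = ρ ∘ T)).card : ℝ) * (Ξ * Ξ) ≤ S.card) :
    ∃ (V : Finset E) (a b : K), V.card = v ∧ a ≠ b ∧ ∀ p : E → Bool,
      (S.card : ℝ) ≤ (S.filter (fun T => ∀ j ∈ V, ρ (T j) = if p j then a else b)).card *
        (2 ^ v * Λ) := by
  by_contra hcon
  push Not at hcon
  have hSpos : (0:ℝ) < S.card := by exact_mod_cast hS.card_pos
  -- the index set of triples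
  set I : Finset (Finset E × K × K) :=
    ((Finset.univ.powersetCard v) ×ˢ ((Finset.univ : Finset K) ×ˢ (Finset.univ : Finset K))).filter
      (fun q => q.2.1 ≠ q.2.2) with hI
  have hIcard : (I.card : ℝ) ≤ ((Fintype.card E).choose v : ℝ) * (Fintype.card K : ℝ) ^ 2 := by
    have h4 : I.card ≤ (Fintype.card E).choose v * (Fintype.card K) ^ 2 := by
      calc I.card ≤ ((Finset.univ.powersetCard v) ×ˢ
            ((Finset.univ : Finset K) ×ˢ (Finset.univ : Finset K))).card := card_filter_le _ _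
        _ = _ := by
            rw [card_product, card_product, card_powersetCard, Finset.card_univ, Finset.card_univ]
            ring
    exact_mod_cast h4
  have hpat : ∀ q : Finset E × K × K, ∃ p : E → Bool, q ∈ I →
      ((S.filter (fun T => ∀ j ∈ q.1, ρ (T j) = if p j then q.2.1 else q.2.2)).card : ℝ) *
        (2 ^ v * Λ) < S.card := by
    intro q
    by_cases hq : q ∈ I
    · rw [hI, mem_filter, mem_product, mem_powersetCard] at hq
      obtain ⟨p, hp⟩ := hcon q.1 q.2.1 q.2.2 hq.1.1.2 hq.2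
      exact ⟨p, fun _ => hp⟩
    · exact ⟨fun _ => true, fun h => absurd h hq⟩
  choose P hP using hpat
  set F : Finset E × K × K → Finset (E → K) := fun q =>
    S.filter (fun T => ∀ j ∈ q.1, ρ (T j) = if P q j then q.2.1 else q.2.2) with hF
  set R := I.biUnion F with hR
  have hRcard : (R.card : ℝ) * 2 ≤ S.card := by
    have h5 : (R.card : ℝ) ≤ ∑ q ∈ I, ((F q).card : ℝ) := by
      exact_mod_cast card_biUnion_le
    have h6 : ∑ q ∈ I, ((F q).card : ℝ) ≤ ∑ q ∈ I, (S.card : ℝ) / Λ := by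
      apply sum_le_sum
      intro q hq
      rw [le_div_iff₀ hΛ]
      have h7 := (hP q hq).le
      have h8 : ((F q).card : ℝ) * Λ ≤ (F q).card * (2 ^ v * Λ) := by
        have h9 : (1:ℝ) ≤ 2 ^ v := one_le_pow₀ (by norm_num)
        have h10 : Λ ≤ 2 ^ v * Λ := le_mul_of_one_le_left hΛ.le h9
        exact mul_le_mul_of_nonneg_left h10 (by positivity)
      exact h8.trans h7
    rw [sum_const, nsmul_eq_mul] at h6
    have h11 : (I.card : ℝ) * (S.card / Λ) * 2 ≤ S.card := by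
      have h12 : (I.card : ℝ) * 2 ≤ Λ := by linarith
      calc (I.card : ℝ) * (S.card / Λ) * 2 = (I.card * 2) * (S.card / Λ) := by ring
        _ ≤ Λ * (S.card / Λ) := by gcongr
        _ = S.card := by field_simp
    linarith
  set S' := S \ R with hS'
  have hS'card : (S.card : ℝ) ≤ 2 * S'.card := by
    have h5 : S.card ≤ S'.card + R.card := by
      rw [hS']
      exact Finset.card_le_card_sdiff_add_card
    have h7 : (S.card : ℝ) ≤ S'.card + R.card := by exact_mod_cast h5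
    linarith
  set Y := S'.image (fun T => ρ ∘ T) with hY
  have hYcard : (Y.card : ℝ) ≤ Ξ := by
    have h5 := natarajan_pair Y v (fun V a b hV hab hall => by
      have hq : (V, a, b) ∈ I := by
        rw [hI, mem_filter, mem_product, mem_powersetCard]
        exact ⟨⟨⟨subset_univ _, hV⟩, by simp⟩, hab⟩
      obtain ⟨y, hy, hyj⟩ := hall (P (V, a, b))
      rw [hY, mem_image] at hy
      obtain ⟨T, hT, rfl⟩ := hy
      rw [hS', mem_sdiff] at hT
      apply hT.2
      rw [hR, mem_biUnion]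
      refine ⟨(V, a, b), hq, ?_⟩
      rw [hF, mem_filter]
      exact ⟨hT.1, hyj⟩) hx0 hx1
    have h6 : (Y.card : ℝ) * x ^ (Fintype.card K ^ 2 * v) ≤ Ξ * x ^ (Fintype.card K ^ 2 * v) := by
      rw [mul_comm Ξ]
      exact h5.trans h1
    exact le_of_mul_le_mul_right h6 (by positivity)
  have hfin : (S'.card : ℝ) * (Ξ * Ξ) ≤ Y.card * S.card := by
    have h5 : S'.card = ∑ y ∈ Y, (S'.filter (fun T => ρ ∘ T = y)).card :=
      card_eq_sum_card_image _ _
    rw [h5]
    push_cast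
    rw [sum_mul]
    calc ∑ y ∈ Y, ((S'.filter (fun T => ρ ∘ T = y)).card : ℝ) * (Ξ * Ξ) ≤ ∑ y ∈ Y, (S.card : ℝ) := by
          apply sum_le_sum
          intro y hy
          rw [hY, mem_image] at hy
          obtain ⟨T, hT, rfl⟩ := hy
          have hTS : T ∈ S := (mem_sdiff.mp hT).1
          refine le_trans ?_ (hfib T hTS)
          apply mul_le_mul_of_nonneg_right _ (by positivity)
          have h6 : (S'.filter (fun T' => ρ ∘ T' = ρ ∘ T)).card ≤
              (S.filter (fun T' => ρ ∘ T' = ρ ∘ T)).card :=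
            card_le_card (filter_subset_filter _ sdiff_subset)
          exact_mod_cast h6
      _ = Y.card * S.card := by rw [sum_const, nsmul_eq_mul]
  have h7 : (S'.card : ℝ) * (Ξ * Ξ) ≤ Ξ * (2 * S'.card) := by
    calc (S'.card : ℝ) * (Ξ * Ξ) ≤ Y.card * S.card := hfin
      _ ≤ Ξ * (2 * S'.card) := by
          apply mul_le_mul hYcard hS'card hSpos.le hΞ.le
  have h8 : (0:ℝ) < S'.card := by linarith
  have h9 : (S'.card : ℝ) * Ξ * Ξ ≤ (S'.card : ℝ) * Ξ * 2 := by linarith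
  have h10 : Ξ ≤ 2 := le_of_mul_le_mul_left h9 (by positivity)
  linarith

open Classical in
/-- EXT: extraction of a subfamily with uniformly distributed patterns -/
theorem extract (K : Type) [Fintype K] {ξ l : ℝ} (hξ : 0 < ξ) (hl : 0 < l) :
    ∃ η : ℝ, 0 < η ∧ ∃ n0 : ℕ, ∀ (E : Type) [Fintype E] (S : Finset (E → K)) (ρ : K → K),
      n0 ≤ Fintype.card E → S.Nonempty →
      (∀ T ∈ S, ((S.filter (fun T' => ρ ∘ T' = ρ ∘ T)).card : ℝ) * 2 ^ (ξ * Fintype.card E) ≤
        S.card) →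
      ∃ (V : Finset E) (a b : K) (S₁ : Finset (E → K)), a ≠ b ∧ (∃ x, ρ x = a) ∧ (∃ x, ρ x = b) ∧
        S₁ ⊆ S ∧ S₁.Nonempty ∧
        η * Fintype.card E ≤ V.card ∧ (S.card : ℝ) ≤ 2 ^ (l * Fintype.card E) * S₁.card ∧
        (∀ T ∈ S₁, ∀ j ∈ V, ρ (T j) = a ∨ ρ (T j) = b) ∧
        ∀ x : E → Bool, 2 ^ V.card *
          (S₁.filter (fun T => ∀ j ∈ V, ρ (T j) = if x j then a else b)).card ≤ S₁.card := by
  obtain ⟨η, hη, x, hx0, hx1, n0, hn0, hpar⟩ := ext_par (Fintype.card K) hξ hl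
  refine ⟨η, hη, n0, fun E _ S ρ hn hS hfib => ?_⟩
  obtain ⟨h1, h2, h3⟩ := hpar _ hn
  set n := Fintype.card E with hndef
  set v := ⌈η * n⌉₊ with hvdef
  have hSpos : (0:ℝ) < S.card := by exact_mod_cast hS.card_pos
  have hΛ : (0:ℝ) < 2 ^ (l * n) := by positivity
  have hΞ : (0:ℝ) < 2 ^ (ξ * n / 2) := by positivity
  have hsq : (2:ℝ) ^ (ξ * n / 2) * 2 ^ (ξ * n / 2) = 2 ^ (ξ * n) := by
    rw [← Real.rpow_add (by norm_num)]
    congr 1
    ring
  obtain ⟨V, a, b, hV, hab, hpat⟩ := ext_triple S ρ v hS _ _ x hΛ hΞ hx0 hx1 h1 h2 h3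
    (fun T hT => by rw [hsq]; exact hfib T hT)
  have hv1 : 1 ≤ v := by
    rw [hvdef, Nat.one_le_ceil_iff]
    have : (0:ℝ) < n := by
      have : 0 < n := by omega
      exact_mod_cast this
    positivity
  set mm := ⌈(S.card : ℝ) / (2 ^ v * 2 ^ (l * n))⌉₊ with hmm
  have hmm1 : 1 ≤ mm := by
    rw [hmm, Nat.one_le_ceil_iff]
    positivity
  have hmmle : ∀ p : E → Bool,
      mm ≤ (S.filter (fun T => ∀ j ∈ V, ρ (T j) = if p j then a else b)).card := by
    intro p
    rw [hmm, Nat.ceil_le, div_le_iff₀ (by positivity)]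
    exact hpat p
  have hsub : ∀ X : Finset E, ∃ A : Finset (E → K),
      A ⊆ S.filter (fun T => ∀ j ∈ V, ρ (T j) = if decide (j ∈ X) then a else b) ∧ A.card = mm :=
    fun X => Finset.exists_subset_card_eq (hmmle (fun j => decide (j ∈ X)))
  choose A hA hAc using hsub
  have hAS : ∀ X T, T ∈ A X → T ∈ S ∧ ∀ j ∈ V, ρ (T j) = if j ∈ X then a else b := by
    intro X T hT
    have := hA X hT
    rw [mem_filter] at this
    simpa using this
  -- different patterns have disjoint families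
  have huniq : ∀ X X' T, X ⊆ V → X' ⊆ V → T ∈ A X → T ∈ A X' → X = X' := by
    intro X X' T hX hX' h4 h5
    have h6 := (hAS X T h4).2
    have h7 := (hAS X' T h5).2
    ext j
    constructor
    · intro hj
      have h8 := h6 j (hX hj)
      have h9 := h7 j (hX hj)
      rw [if_pos hj] at h8
      rw [h8] at h9
      by_contra hj'
      rw [if_neg hj'] at h9
      exact hab h9
    · intro hj
      have h8 := h7 j (hX' hj)
      have h9 := h6 j (hX' hj)
      rw [if_pos hj] at h8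
      rw [h8] at h9
      by_contra hj'
      rw [if_neg hj'] at h9
      exact hab h9
  set S₁ := V.powerset.biUnion A with hS₁
  have hS₁card : S₁.card = 2 ^ v * mm := by
    rw [hS₁, card_biUnion]
    · rw [sum_congr rfl (fun X _ => hAc X), sum_const, card_powerset, hV, smul_eq_mul]
    · intro X hX X' hX' hne
      change Disjoint (A X) (A X')
      rw [disjoint_left]
      intro T hT hT'
      exact hne (huniq X X' T (mem_powerset.mp hX) (mem_powerset.mp hX') hT hT')
  have hmem : ∀ T ∈ S₁, ∃ X, X ⊆ V ∧ T ∈ A X := by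
    intro T hT
    rw [hS₁, mem_biUnion] at hT
    obtain ⟨X, hX, hT⟩ := hT
    exact ⟨X, mem_powerset.mp hX, hT⟩
  have hVne : V.Nonempty := by
    rw [← card_pos, hV]
    omega
  obtain ⟨j0, hj0⟩ := hVne
  have hAne : ∀ X, (A X).Nonempty := fun X => by
    rw [← card_pos, hAc]
    omega
  refine ⟨V, a, b, S₁, hab, ?_, ?_, ?_, ?_, ?_, ?_, ?_, ?_⟩
  · obtain ⟨T, hT⟩ := hAne {j0}
    refine ⟨T j0, ?_⟩
    have := (hAS _ T hT).2 j0 hj0
    simpa using this
  · obtain ⟨T, hT⟩ := hAne ∅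
    refine ⟨T j0, ?_⟩
    have := (hAS _ T hT).2 j0 hj0
    simpa using this
  · intro T hT
    obtain ⟨X, _, hT⟩ := hmem T hT
    exact (hAS X T hT).1
  · rw [← card_pos, hS₁card]
    positivity
  · rw [hV, hvdef]
    exact Nat.le_ceil _
  · rw [hS₁card]
    push_cast
    have h4 : (S.card : ℝ) / (2 ^ v * 2 ^ (l * n)) ≤ mm := Nat.le_ceil _
    rw [div_le_iff₀ (by positivity)] at h4
    linarith
  · intro T hT j hj
    obtain ⟨X, _, hT⟩ := hmem T hT
    have := (hAS X T hT).2 j hj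
    by_cases hjX : j ∈ X
    · rw [if_pos hjX] at this
      exact Or.inl this
    · rw [if_neg hjX] at this
      exact Or.inr this
  · intro p
    rw [hS₁card, hV]
    apply Nat.mul_le_mul_left
    rw [← hAc (V.filter (fun j => p j = true))]
    apply card_le_card
    intro T hT
    rw [mem_filter] at hT
    obtain ⟨hT, hTp⟩ := hT
    obtain ⟨X, hX, hTX⟩ := hmem T hT
    have : X = V.filter (fun j => p j = true) := by
      ext j
      rw [mem_filter]
      constructor
      · intro hj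
        have h5 := (hAS X T hTX).2 j (hX hj)
        rw [if_pos hj] at h5
        have h6 := hTp j (hX hj)
        rw [h5] at h6
        refine ⟨hX hj, ?_⟩
        by_contra hp
        rw [if_neg hp] at h6
        exact hab h6
      · rintro ⟨hj, hp⟩
        have h6 := hTp j hj
        rw [if_pos hp] at h6
        have h5 := (hAS X T hTX).2 j hj
        rw [h6] at h5
        by_contra hj'
        rw [if_neg hj'] at h5
        exact hab h5
    rw [← this]
    exact hTX

end Pool.Agent.H537R3.SC
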