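import Pool.Agent.H537R3.SC.Defs

set_option autoImplicit false

/-! # Task MOM: the moment method (helper341) -/

namespace Pool.Agent.H537R3.SC

open Finset

open Classical in
/-- the additive map of a finite sum through the standard additive character -/
theorem mom_char_sum {p : ℕ} [Fact p.Prime] {ι : Type} (s : Finset ι) (f : ι → ZMod p) :
    ZMod.stdAddChar (∑ i ∈ s, f i) = ∏ i ∈ s, (ZMod.stdAddChar (f i) : ℂ) := by
  classical
  refine Finset.induction_on s ?_ ?_
  · simp
  · intro a s ha ih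
    rw [Finset.sum_insert ha, Finset.prod_insert ha, AddChar.map_add_eq_mul, ih]

open Classical in
theorem mom_linear {E K : Type} [Fintype E] [Fintype K] {p : ℕ} [Fact p.Prime]
    (c : K → ZMod p) (T : E → K) (a : E → ZMod p) :
    ∑ e, c (T e) * a e = ∑ x, c x * ∑ e ∈ univ.filter (fun e => T e = x), a e := by
  rw [← Finset.sum_fiberwise (s := univ) (g := T)]
  refine Finset.sum_congr rfl fun x _ => ?_
  rw [Finset.mul_sum]
  refine Finset.sum_congr rfl fun e he => ?_
  rw [(Finset.mem_filter.mp he).2]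

open Classical in
/-- the sum over all coefficient functions vanishing at `o` -/
theorem mom_full {E K : Type} [Fintype E] [Fintype K] {p : ℕ} [Fact p.Prime] (o : K)
    (T : E → K) (a : E → ZMod p) (h : ¬ Perp o a T) :
    ∑ c ∈ univ.filter (fun c : K → ZMod p => c o = 0),
      (ZMod.stdAddChar (∑ e, c (T e) * a e) : ℂ) = 0 := by
  unfold Perp at h
  push Not at h
  obtain ⟨x, hxo, hx⟩ := h
  set C := univ.filter (fun c : K → ZMod p => c o = 0) with hC
  set δ : K → ZMod p := Pi.single x 1 with hδ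
  have hδo : δ o = 0 := by rw [hδ, Pi.single_eq_of_ne (Ne.symm hxo)]
  have hl : ∀ c : K → ZMod p, ∑ e, (c + δ) (T e) * a e =
      ∑ e, c (T e) * a e + ∑ e ∈ univ.filter (fun e => T e = x), a e := by
    intro c
    rw [mom_linear (c + δ) T a, mom_linear c T a]
    simp only [Pi.add_apply, add_mul, Finset.sum_add_distrib]
    congr 1
    rw [Finset.sum_eq_single x]
    · rw [hδ, Pi.single_eq_same, one_mul]
    · intro y _ hy
      rw [hδ, Pi.single_eq_of_ne hy, zero_mul]
    · intro hx'; exact absurd (Finset.mem_univ x) hx'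
  have h1 : ∑ c ∈ C, (ZMod.stdAddChar (∑ e, c (T e) * a e) : ℂ) =
      ∑ c ∈ C, (ZMod.stdAddChar (∑ e, (c + δ) (T e) * a e) : ℂ) := by
    symm
    refine Finset.sum_bij (fun c _ => c + δ) ?_ ?_ ?_ ?_
    · intro c hc
      rw [hC, Finset.mem_filter] at hc ⊢
      exact ⟨Finset.mem_univ _, by rw [Pi.add_apply, hc.2, hδo, add_zero]⟩
    · intro c _ c' _ hcc
      exact add_right_cancel hcc
    · intro c hc
      refine ⟨c - δ, ?_, sub_add_cancel _ _⟩
      rw [hC, Finset.mem_filter] at hc ⊢
      exact ⟨Finset.mem_univ _, by rw [Pi.sub_apply, hc.2, hδo, sub_zero]⟩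
    · intro c _
      rfl
  have h2 : ∑ c ∈ C, (ZMod.stdAddChar (∑ e, (c + δ) (T e) * a e) : ℂ) =
      (∑ c ∈ C, (ZMod.stdAddChar (∑ e, c (T e) * a e) : ℂ)) *
        (ZMod.stdAddChar (∑ e ∈ univ.filter (fun e => T e = x), a e) : ℂ) := by
    rw [Finset.sum_mul]
    refine Finset.sum_congr rfl fun c _ => ?_
    rw [hl, AddChar.map_add_eq_mul]
  have h3 : (ZMod.stdAddChar (∑ e ∈ univ.filter (fun e => T e = x), a e) : ℂ) ≠ 1 := by
    intro h
    apply hx
    apply ZMod.injective_stdAddChar
    rw [h, AddChar.map_zero_eq_one]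
  rw [h2] at h1
  have h4 : (∑ c ∈ C, (ZMod.stdAddChar (∑ e, c (T e) * a e) : ℂ)) *
      (1 - (ZMod.stdAddChar (∑ e ∈ univ.filter (fun e => T e = x), a e) : ℂ)) = 0 := by
    rw [mul_sub, mul_one, ← h1, sub_self]
  rcases mul_eq_zero.mp h4 with h5 | h5
  · exact h5
  · exact absurd (sub_eq_zero.mp h5).symm h3

open Classical in
/-- the sum over all labellings of one character -/
theorem mom_orth {E : Type} [Fintype E] {p : ℕ} [Fact p.Prime] (w : E → ZMod p) :
    ∑ a : E → ZMod p, (ZMod.stdAddChar (∑ e, w e * a e) : ℂ) =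
      if ∀ e, w e = 0 then (p : ℂ) ^ Fintype.card E else 0 := by
  have h1 : ∀ a : E → ZMod p, (ZMod.stdAddChar (∑ e, w e * a e) : ℂ) =
      ∏ e, (ZMod.stdAddChar (a e * w e) : ℂ) := by
    intro a
    rw [mom_char_sum]
    refine Finset.prod_congr rfl fun e _ => ?_
    rw [mul_comm]
  simp_rw [h1]
  rw [← Fintype.prod_sum (fun e (x : ZMod p) => (ZMod.stdAddChar (x * w e) : ℂ))]
  have h2 : ∀ e, ∑ x : ZMod p, (ZMod.stdAddChar (x * w e) : ℂ) =
      if w e = 0 then (p : ℂ) else 0 := by
    intro e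
    rw [AddChar.sum_mulShift (w e) (ZMod.isPrimitive_stdAddChar p), ZMod.card]
    split_ifs <;> simp
  simp_rw [h2]
  split_ifs with h
  · rw [Finset.prod_congr rfl (fun e _ => if_pos (h e)), Finset.prod_const, Finset.card_univ]
  · push Not at h
    obtain ⟨e, he⟩ := h
    exact Finset.prod_eq_zero (Finset.mem_univ e) (if_neg he)

open Classical in
/-- MOM: the moment method -/
theorem moment {E K : Type} [Fintype E] [Fintype K] {p : ℕ} [Fact p.Prime] (o : K)
    (S : Finset (E → K)) (hS : S.Nonempty) (ρ : K → K) (hρ : ρ o = o) (T0 : E → K)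
    (hT0 : ∀ T ∈ S, ρ ∘ T = T0) (m : ℕ) (R : ℝ) (hR : 0 ≤ R)
    (hrel : ∀ c : Fin (2 * m) → K → ZMod p, (∀ i, c i o = 0 ∧ c i ∘ ρ ≠ c i) →
      ((univ.filter (fun f : Fin (2 * m) → E → K =>
        (∀ i, f i ∈ S) ∧ ∀ e, ∑ i, c i (f i e) = 0)).card : ℝ) ≤ R * (S.card : ℝ) ^ (2 * m)) :
    ((univ.filter (fun a : E → ZMod p => Perp o a T0 ∧ ∀ T ∈ S, ¬ Perp o a T)).card : ℝ) ≤
      (p : ℝ) ^ Fintype.card E * ((p : ℝ) ^ Fintype.card K) ^ (2 * m) * R := by
  set C := univ.filter (fun c : K → ZMod p => c o = 0) with hC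
  set D := C.filter (fun c => c ∘ ρ ≠ c) with hD
  set C0 := C.filter (fun c => c ∘ ρ = c) with hC0
  set χ : (E → K) → (K → ZMod p) → (E → ZMod p) → ℂ :=
    fun T c a => ZMod.stdAddChar (∑ e, c (T e) * a e) with hχ
  set Z : (E → ZMod p) → ℂ := fun a => ∑ q ∈ S ×ˢ D, χ q.1 q.2 a with hZ
  have hS0 : (0 : ℝ) < S.card := by exact_mod_cast hS.card_pos
  -- Z at the bad labellings
  have hbad : ∀ a, Perp o a T0 → (∀ T ∈ S, ¬ Perp o a T) →
      Z a = -((S.card : ℂ) * (C0.card : ℂ)) := by
    intro a ha1 ha2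
    have h1 : ∀ T ∈ S, ∑ c ∈ D, χ T c a = -(C0.card : ℂ) := by
      intro T hT
      have h2 := mom_full o T a (ha2 T hT)
      rw [← hC, ← Finset.sum_filter_add_sum_filter_not C (fun c => c ∘ ρ = c)] at h2
      have h3 : ∑ c ∈ C.filter (fun c => c ∘ ρ = c),
          (ZMod.stdAddChar (∑ e, c (T e) * a e) : ℂ) = (C0.card : ℂ) := by
        rw [← hC0, Finset.sum_congr rfl (g := fun _ => (1 : ℂ)), Finset.sum_const,
          nsmul_eq_mul, mul_one]
        intro c hc
        rw [hC0, Finset.mem_filter, hC, Finset.mem_filter] at hc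
        have h4 : ∑ e, c (T e) * a e = ∑ e, c (T0 e) * a e := by
          refine Finset.sum_congr rfl fun e _ => ?_
          have h5 : c (T0 e) = c (T e) := by
            rw [← hT0 T hT]
            exact congrFun hc.2 (T e)
          rw [h5]
        rw [h4, mom_linear, Finset.sum_eq_zero, AddChar.map_zero_eq_one]
        intro x _
        by_cases hx : x = o
        · rw [hx, hc.1.2, zero_mul]
        · rw [ha1 x hx, mul_zero]
      rw [h3] at h2
      have h6 : ∑ c ∈ D, χ T c a = ∑ c ∈ C.filter (fun c => ¬ c ∘ ρ = c),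
          (ZMod.stdAddChar (∑ e, c (T e) * a e) : ℂ) := rfl
      rw [h6]
      exact eq_neg_of_add_eq_zero_right h2
    rw [hZ]
    simp only
    rw [Finset.sum_product, Finset.sum_congr rfl h1, Finset.sum_const, nsmul_eq_mul]
    ring
  -- Z is real
  have hreal : ∀ a, (starRingEnd ℂ) (Z a) = Z a := by
    intro a
    rw [hZ]
    simp only
    rw [map_sum]
    refine Finset.sum_bij (fun q _ => (q.1, -q.2)) ?_ ?_ ?_ ?_
    · intro q hq
      rw [Finset.mem_product, hD, Finset.mem_filter, hC, Finset.mem_filter] at hq ⊢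
      refine ⟨hq.1, ⟨Finset.mem_univ _, ?_⟩, ?_⟩
      · simp [hq.2.1.2]
      · intro h
        apply hq.2.2
        funext x
        have := congrFun h x
        simpa using this
    · intro q _ q' _ h
      rw [Prod.mk.injEq, neg_inj] at h
      exact Prod.ext h.1 h.2
    · intro q hq
      refine ⟨(q.1, -q.2), ?_, by simp⟩
      rw [Finset.mem_product, hD, Finset.mem_filter, hC, Finset.mem_filter] at hq ⊢
      refine ⟨hq.1, ⟨Finset.mem_univ _, ?_⟩, ?_⟩
      · simp [hq.2.1.2]
      · intro h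
        apply hq.2.2
        funext x
        have := congrFun h x
        simpa using this
    · intro q _
      rw [hχ]
      simp only
      rw [← AddChar.map_neg_eq_conj]
      congr 1
      rw [← Finset.sum_neg_distrib]
      refine Finset.sum_congr rfl fun e _ => ?_
      simp
  have hre : ∀ a, Z a = ((Z a).re : ℂ) := fun a => (Complex.conj_eq_iff_re.mp (hreal a)).symm
  -- the moment
  set W := ∑ a, (Z a) ^ (2 * m) with hW
  set NT := (Fintype.piFinset (fun _ : Fin (2 * m) => S ×ˢ D)).filter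
    (fun q => ∀ e, ∑ i, (q i).2 ((q i).1 e) = 0) with hNT
  have hW1 : W = (p : ℂ) ^ Fintype.card E * (NT.card : ℂ) := by
    rw [hW]
    have h1 : ∀ a, (Z a) ^ (2 * m) = ∑ q ∈ Fintype.piFinset (fun _ : Fin (2 * m) => S ×ˢ D),
        (ZMod.stdAddChar (∑ e, (∑ i, (q i).2 ((q i).1 e)) * a e) : ℂ) := by
      intro a
      rw [hZ]
      simp only
      rw [Finset.sum_pow']
      refine Finset.sum_congr rfl fun q _ => ?_
      rw [hχ]
      simp only
      rw [← mom_char_sum, Finset.sum_comm]
      congr 1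
      refine Finset.sum_congr rfl fun e _ => ?_
      rw [Finset.sum_mul]
    simp_rw [h1]
    rw [Finset.sum_comm]
    simp_rw [mom_orth]
    rw [← Finset.sum_filter, ← hNT, Finset.sum_const, nsmul_eq_mul, mul_comm]
  have hW2 : ((univ.filter (fun a : E → ZMod p => Perp o a T0 ∧ ∀ T ∈ S, ¬ Perp o a T)).card : ℝ)
      * (S.card : ℝ) ^ (2 * m) ≤ (p : ℝ) ^ Fintype.card E * (NT.card : ℝ) := by
    have h1 : W = ((∑ a, ((Z a).re) ^ (2 * m) : ℝ) : ℂ) := by
      rw [hW]
      push_cast
      refine Finset.sum_congr rfl fun a _ => ?_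
      rw [← hre a]
    have h2 : (∑ a, ((Z a).re) ^ (2 * m) : ℝ) = (p : ℝ) ^ Fintype.card E * (NT.card : ℝ) := by
      have := h1.symm.trans hW1
      exact_mod_cast this
    rw [← h2]
    calc ((univ.filter (fun a : E → ZMod p => Perp o a T0 ∧ ∀ T ∈ S, ¬ Perp o a T)).card : ℝ)
          * (S.card : ℝ) ^ (2 * m)
        = ∑ a ∈ univ.filter (fun a : E → ZMod p => Perp o a T0 ∧ ∀ T ∈ S, ¬ Perp o a T),
          (S.card : ℝ) ^ (2 * m) := by rw [Finset.sum_const, nsmul_eq_mul]
      _ ≤ ∑ a ∈ univ.filter (fun a : E → ZMod p => Perp o a T0 ∧ ∀ T ∈ S, ¬ Perp o a T),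
          ((Z a).re) ^ (2 * m) := by
          refine Finset.sum_le_sum fun a ha => ?_
          rw [Finset.mem_filter] at ha
          have h3 := hbad a ha.2.1 ha.2.2
          have h4 : (Z a).re = -((S.card : ℝ) * (C0.card : ℝ)) := by
            rw [h3]
            simp
          rw [h4, Even.neg_pow (even_two_mul m)]
          have h5 : (1 : ℝ) ≤ C0.card := by
            have : 0 < C0.card := by
              refine Finset.card_pos.mpr ⟨0, ?_⟩
              rw [hC0, Finset.mem_filter, hC, Finset.mem_filter]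
              exact ⟨⟨Finset.mem_univ _, rfl⟩, rfl⟩
            exact_mod_cast this
          have h6 : (S.card : ℝ) ≤ (S.card : ℝ) * (C0.card : ℝ) := by nlinarith
          exact pow_le_pow_left₀ hS0.le h6 _
      _ ≤ ∑ a, ((Z a).re) ^ (2 * m) := by
          refine Finset.sum_le_sum_of_subset_of_nonneg (Finset.subset_univ _) fun a _ _ => ?_
          rw [pow_mul]
          positivity
  -- the number of relations
  have hN : (NT.card : ℝ) ≤ ((p : ℝ) ^ Fintype.card K) ^ (2 * m) *
      (R * (S.card : ℝ) ^ (2 * m)) := by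
    have h1 : NT.card = ∑ c ∈ Fintype.piFinset (fun _ : Fin (2 * m) => D),
        (NT.filter (fun q => (fun i => (q i).2) = c)).card := by
      refine Finset.card_eq_sum_card_fiberwise ?_
      intro q hq
      have hq' : q ∈ NT := hq
      rw [hNT, Finset.mem_filter, Fintype.mem_piFinset] at hq'
      have : (fun i => (q i).2) ∈ Fintype.piFinset (fun _ : Fin (2 * m) => D) := by
        rw [Fintype.mem_piFinset]
        intro i
        exact (Finset.mem_product.mp (hq'.1 i)).2
      exact this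
    have h2 : ∀ c ∈ Fintype.piFinset (fun _ : Fin (2 * m) => D),
        ((NT.filter (fun q => (fun i => (q i).2) = c)).card : ℝ) ≤
          R * (S.card : ℝ) ^ (2 * m) := by
      intro c hc
      rw [Fintype.mem_piFinset] at hc
      have h3 := hrel c (fun i => by
        have := hc i
        rw [hD, Finset.mem_filter, hC, Finset.mem_filter] at this
        exact ⟨this.1.2, this.2⟩)
      refine le_trans ?_ h3
      norm_cast
      refine Finset.card_le_card_of_injOn (fun q i => (q i).1) ?_ ?_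
      · intro q hq
        have hq' : q ∈ NT.filter (fun q => (fun i => (q i).2) = c) := hq
        rw [Finset.mem_filter, hNT, Finset.mem_filter, Fintype.mem_piFinset] at hq'
        have : (fun i => (q i).1) ∈ univ.filter (fun f : Fin (2 * m) → E → K =>
            (∀ i, f i ∈ S) ∧ ∀ e, ∑ i, c i (f i e) = 0) := by
          rw [Finset.mem_filter]
          refine ⟨Finset.mem_univ _, fun i => (Finset.mem_product.mp (hq'.1.1 i)).1, fun e => ?_⟩
          rw [← hq'.1.2 e]
          refine Finset.sum_congr rfl fun i _ => ?_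
          rw [← hq'.2]
        exact this
      · intro q hq q' hq' h
        have h4 : q ∈ NT.filter (fun q => (fun i => (q i).2) = c) := hq
        have h5 : q' ∈ NT.filter (fun q => (fun i => (q i).2) = c) := hq'
        have h6 := (Finset.mem_filter.mp h4).2
        have h7 := (Finset.mem_filter.mp h5).2
        funext i
        refine Prod.ext (congrFun h i) ?_
        exact (congrFun h6 i).trans (congrFun h7 i).symm
    have h8 : (D.card : ℝ) ≤ (p : ℝ) ^ Fintype.card K := by
      have : D.card ≤ p ^ Fintype.card K := by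
        calc D.card ≤ (univ : Finset (K → ZMod p)).card := Finset.card_le_card (Finset.subset_univ _)
          _ = p ^ Fintype.card K := by
            rw [Finset.card_univ, Fintype.card_fun, ZMod.card]
      exact_mod_cast this
    calc (NT.card : ℝ) = ∑ c ∈ Fintype.piFinset (fun _ : Fin (2 * m) => D),
        ((NT.filter (fun q => (fun i => (q i).2) = c)).card : ℝ) := by rw [h1]; push_cast; rfl
      _ ≤ ∑ _c ∈ Fintype.piFinset (fun _ : Fin (2 * m) => D), R * (S.card : ℝ) ^ (2 * m) :=
        Finset.sum_le_sum h2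
      _ = (D.card : ℝ) ^ (2 * m) * (R * (S.card : ℝ) ^ (2 * m)) := by
        rw [Finset.sum_const, nsmul_eq_mul, Fintype.card_piFinset, Finset.prod_const,
          Finset.card_univ, Fintype.card_fin]
        push_cast
        ring
      _ ≤ _ := mul_le_mul_of_nonneg_right (pow_le_pow_left₀ (Nat.cast_nonneg _) h8 _)
        (mul_nonneg hR (pow_nonneg hS0.le _))
  -- conclusion
  have hfin : ((univ.filter (fun a : E → ZMod p =>
      Perp o a T0 ∧ ∀ T ∈ S, ¬ Perp o a T)).card : ℝ) * (S.card : ℝ) ^ (2 * m) ≤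
      ((p : ℝ) ^ Fintype.card E * ((p : ℝ) ^ Fintype.card K) ^ (2 * m) * R) *
        (S.card : ℝ) ^ (2 * m) := by
    refine hW2.trans ?_
    calc (p : ℝ) ^ Fintype.card E * (NT.card : ℝ)
        ≤ (p : ℝ) ^ Fintype.card E * (((p : ℝ) ^ Fintype.card K) ^ (2 * m) *
          (R * (S.card : ℝ) ^ (2 * m))) := mul_le_mul_of_nonneg_left hN
            (pow_nonneg (Nat.cast_nonneg _) _)
      _ = _ := by ring
  exact le_of_mul_le_mul_right hfin (pow_pos hS0 _)

end Pool.Agent.H537R3.SC
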