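import Pool.Agent.H537R3.SC.Defs

set_option autoImplicit false

/-! Task POS: few partitions are compatible with a colouring (helper215). -/

namespace Pool.Agent.H537R3.SC

open Finset

namespace POS

theorem exists_g {J : Type} {b t : ℕ} (hb : 0 < b) (T : Fin b × Fin t → J)
    (σ : Fin b → Equiv.Perm (Fin t)) (h : Compat T σ) :
    ∃ g : Fin t → J, ∀ x i, T (x, i) = g (σ x i) := by
  refine ⟨fun c => T (⟨0, hb⟩, (σ ⟨0, hb⟩).symm c), fun x i => ?_⟩
  apply h
  simp

open Classical in
/-- permutations of one column that are compatible with `g` -/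
noncomputable def AA {J : Type} {b t : ℕ} (T : Fin b × Fin t → J) (g : Fin t → J) (x : Fin b) :
    Finset (Equiv.Perm (Fin t)) := univ.filter (fun τ => ∀ i, T (x, i) = g (τ i))

open Classical in
theorem card_compat_le {J : Type} [Fintype J] {b t : ℕ} (hb : 0 < b) (T : Fin b × Fin t → J)
    (M : ℕ) (hM : ∀ g : Fin t → J, ∏ x, (AA T g x).card ≤ M) :
    (univ.filter (fun σ : Fin b → Equiv.Perm (Fin t) => Compat T σ)).card ≤
      Fintype.card J ^ t * M := by
  have h1 : univ.filter (fun σ : Fin b → Equiv.Perm (Fin t) => Compat T σ) ⊆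
      (univ : Finset (Fin t → J)).biUnion (fun g => Fintype.piFinset (AA T g)) := by
    intro σ hσ
    rw [Finset.mem_filter] at hσ
    obtain ⟨g, hg⟩ := exists_g hb T σ hσ.2
    rw [Finset.mem_biUnion]
    refine ⟨g, Finset.mem_univ _, ?_⟩
    rw [Fintype.mem_piFinset]
    intro x
    unfold AA
    rw [Finset.mem_filter]
    exact ⟨Finset.mem_univ _, hg x⟩
  refine (Finset.card_le_card h1).trans ?_
  have h2 := Finset.card_biUnion_le_card_mul (univ : Finset (Fin t → J))
    (fun g => Fintype.piFinset (AA T g)) M (fun g _ => by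
      rw [Fintype.card_piFinset]
      exact hM g)
  rw [Finset.card_univ, Fintype.card_fun, Fintype.card_fin] at h2
  exact h2

open Classical in
theorem card_AA_le {J : Type} [Fintype J] {b t : ℕ} (T : Fin b × Fin t → J) (g : Fin t → J)
    (x : Fin b) : (AA T g x).card ≤ ∏ y, (Fintype.card {i // g i = y}).factorial := by
  by_cases hne : (AA T g x).Nonempty
  · obtain ⟨τ₀, h0⟩ := hne
    unfold AA at h0
    rw [Finset.mem_filter] at h0
    have h0' := h0.2
    have h2 := DomMulAct.stabilizer_card g
    rw [← h2, ← Finset.card_univ]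
    have h3 : (AA T g x).card ≤ (univ : Finset {π : Equiv.Perm (Fin t) // g ∘ π = g}).card := by
      apply Finset.card_le_card_of_injOn
        (fun τ => if h : g ∘ (τ₀.symm.trans τ) = g then
          (⟨τ₀.symm.trans τ, h⟩ : {π : Equiv.Perm (Fin t) // g ∘ π = g}) else ⟨1, by
            funext i; rfl⟩)
      · intro τ _
        exact Finset.mem_univ _
      · intro τ hτ τ' hτ' he
        have key : ∀ τ ∈ (AA T g x : Set (Equiv.Perm (Fin t))), g ∘ (τ₀.symm.trans τ) = g := by
          intro τ hτ
          have hτ2 : τ ∈ AA T g x := hτ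
          unfold AA at hτ2
          rw [Finset.mem_filter] at hτ2
          funext i
          have e1 := hτ2.2 (τ₀.symm i)
          have e2 := h0' (τ₀.symm i)
          rw [Equiv.apply_symm_apply] at e2
          show g (τ (τ₀.symm i)) = g i
          rw [← e1, e2]
        simp only [key τ hτ, key τ' hτ', dif_pos, Subtype.mk.injEq] at he
        ext i
        have e3 := congrArg (fun π : Equiv.Perm (Fin t) => π (τ₀ i)) he
        simp only [Equiv.trans_apply, Equiv.symm_apply_apply] at e3
        rw [e3]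
    exact h3
  · rw [Finset.not_nonempty_iff_eq_empty] at hne
    rw [hne, Finset.card_empty]
    exact Nat.zero_le _

open Classical in
theorem card_fib {J : Type} {b t : ℕ} (T : Fin b × Fin t → J) (g : Fin t → J)
    (x : Fin b) (hne : (AA T g x).Nonempty) (y : J) :
    (univ.filter (fun i => T (x, i) = y)).card = Fintype.card {i // g i = y} := by
  obtain ⟨τ₀, h0⟩ := hne
  unfold AA at h0
  rw [Finset.mem_filter] at h0
  have h0' := h0.2
  rw [Fintype.card_subtype]
  apply Finset.card_bij (fun i _ => τ₀ i)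
  · intro i hi
    rw [Finset.mem_filter] at hi ⊢
    exact ⟨Finset.mem_univ _, by rw [← h0' i]; exact hi.2⟩
  · intro i _ j _ h
    exact τ₀.injective h
  · intro j hj
    rw [Finset.mem_filter] at hj
    refine ⟨τ₀.symm j, ?_, by simp⟩
    rw [Finset.mem_filter]
    refine ⟨Finset.mem_univ _, ?_⟩
    rw [h0', Equiv.apply_symm_apply]
    exact hj.2

theorem sum_fib {J : Type} [Fintype J] {t : ℕ} (g : Fin t → J) [DecidableEq J] :
    ∑ y, Fintype.card {i // g i = y} = t := by
  simp only [Fintype.card_subtype]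
  have := Finset.card_eq_sum_card_fiberwise (s := (univ : Finset (Fin t)))
    (t := (univ : Finset J)) (f := g) (fun i _ => Finset.mem_univ _)
  rw [Finset.card_univ, Fintype.card_fin] at this
  exact this.symm

/-- the product of the sizes is at most `M ^ b`, if the product of factorials is at most `M`
whenever no factor is empty -/
theorem prod_le {J : Type} [Fintype J] {b t : ℕ} (T : Fin b × Fin t → J) (g : Fin t → J) (M : ℕ)
    (hM : (∀ x, (AA T g x).Nonempty) → ∀ x, (AA T g x).card ≤ M) :
    ∏ x, (AA T g x).card ≤ M ^ b := by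
  by_cases h : ∀ x, (AA T g x).Nonempty
  · have h1 := Finset.prod_le_prod' (s := univ) (fun x _ => hM h x)
    rw [Finset.prod_const, Finset.card_univ, Fintype.card_fin] at h1
    exact h1
  · push Not at h
    obtain ⟨x, hx⟩ := h
    rw [Finset.prod_eq_zero (Finset.mem_univ x) (by rw [hx, Finset.card_empty])]
    exact Nat.zero_le _

theorem fact_pow {a : ℕ} (h : ℕ) (hah : a ≤ h) : a.factorial ^ h ≤ h.factorial ^ a := by
  induction h, hah using Nat.le_induction with
  | base => exact le_rfl
  | succ h hah ih =>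
    rw [pow_succ, Nat.factorial_succ, mul_pow, mul_comm]
    apply Nat.mul_le_mul _ ih
    calc a.factorial ≤ a ^ a := Nat.factorial_le_pow a
      _ ≤ (h + 1) ^ a := Nat.pow_le_pow_left (by omega) a

theorem prod_fact_le {J : Type} [Fintype J] (a : J → ℕ) (h : ℕ) (ha : ∀ y, a y ≤ h)
    (hs : ∑ y, a y = 2 * h) : ∏ y, (a y).factorial ≤ h.factorial ^ 2 := by
  rcases Nat.eq_zero_or_pos h with h0 | h0
  · subst h0
    have : ∀ y, a y = 0 := fun y => Nat.le_zero.1 (ha y)
    simp [this]
  · have h1 : (∏ y, (a y).factorial) ^ h ≤ (h.factorial ^ 2) ^ h := by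
      calc (∏ y, (a y).factorial) ^ h = ∏ y, (a y).factorial ^ h := by
            rw [Finset.prod_pow]
        _ ≤ ∏ y, h.factorial ^ (a y) := Finset.prod_le_prod' fun y _ => fact_pow h (ha y)
        _ = h.factorial ^ (∑ y, a y) := by rw [Finset.prod_pow_eq_pow_sum]
        _ = (h.factorial ^ 2) ^ h := by rw [hs, pow_mul]
    exact (Nat.pow_le_pow_iff_left h0.ne').1 h1

theorem fact_mul (a c : ℕ) (hc : 1 ≤ c) : (a + 1).factorial * c.factorial ≤ (a + c).factorial := by
  induction a with
  | zero => simp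
  | succ a ih =>
    have e : a + 1 + c = (a + c) + 1 := by ring
    rw [e, Nat.factorial_succ (a + c), Nat.factorial_succ (a + 1), mul_assoc]
    exact Nat.mul_le_mul (by omega) ih

theorem prod_fact_le' {J : Type} [Fintype J] [DecidableEq J] (a : J → ℕ) (t : ℕ)
    (hs : ∑ y, a y = t) (y₁ y₂ : J) (hne : y₁ ≠ y₂) (h1 : 1 ≤ a y₁) (h2 : 1 ≤ a y₂) :
    ∏ y, (a y).factorial ≤ (t - 1).factorial := by
  have e1 : ∏ y, (a y).factorial = (a y₁).factorial * ∏ y ∈ univ.erase y₁, (a y).factorial :=
    (Finset.mul_prod_erase univ (fun y => (a y).factorial) (Finset.mem_univ y₁)).symm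
  have e2 : a y₁ + ∑ y ∈ univ.erase y₁, a y = t := by
    rw [Finset.add_sum_erase univ a (Finset.mem_univ y₁)]
    exact hs
  have e3 : ∏ y ∈ univ.erase y₁, (a y).factorial ≤ (∑ y ∈ univ.erase y₁, a y).factorial :=
    Nat.le_of_dvd (Nat.factorial_pos _) (Nat.prod_factorial_dvd_factorial_sum _ _)
  have e4 : a y₂ ≤ ∑ y ∈ univ.erase y₁, a y :=
    Finset.single_le_sum (f := a) (fun _ _ => Nat.zero_le _)
      (Finset.mem_erase.2 ⟨hne.symm, Finset.mem_univ _⟩)
  rw [e1]
  refine (Nat.mul_le_mul_left _ e3).trans ?_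
  obtain ⟨k, hk⟩ : ∃ k, a y₁ = k + 1 := ⟨a y₁ - 1, by omega⟩
  rw [hk]
  refine (fact_mul k _ (by omega)).trans (le_of_eq ?_)
  congr 1
  omega

end POS

open Classical POS in
/-- POS: few partitions are compatible with a colouring without a large colour class -/
theorem pos_heavy {J : Type} [Fintype J] {b h : ℕ} (hb : 0 < b)
    (T : Fin b × Fin (2 * h) → J)
    (hT : ∀ y, (univ.filter (fun e => T e = y)).card ≤ b * h) :
    (univ.filter (fun σ : Fin b → Equiv.Perm (Fin (2 * h)) => Compat T σ)).card ≤
      Fintype.card J ^ (2 * h) * (h.factorial ^ 2) ^ b := by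
  apply card_compat_le hb T
  intro g
  apply prod_le
  intro hne x
  refine (card_AA_le T g x).trans ?_
  apply prod_fact_le _ h _ (sum_fib g)
  intro y
  have e1 : (univ.filter (fun e => T e = y)).card = b * Fintype.card {i // g i = y} := by
    have e2 : (univ.filter (fun e => T e = y)).card =
        ∑ x : Fin b, (univ.filter (fun i => T (x, i) = y)).card := by
      simp only [Finset.card_filter]
      rw [← Finset.univ_product_univ, Finset.sum_product]
    rw [e2]
    simp only [card_fib T g _ (hne _) y]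
    rw [Finset.sum_const, Finset.card_univ, Fintype.card_fin, smul_eq_mul]
  have e3 := hT y
  rw [e1] at e3
  exact Nat.le_of_mul_le_mul_left e3 hb

open Classical POS in
/-- POS: few partitions are compatible with a non-constant colouring -/
theorem pos_nontriv {J : Type} [Fintype J] {b t : ℕ} (hb : 0 < b)
    (T : Fin b × Fin t → J) (hT : ∃ e e', T e ≠ T e') :
    (univ.filter (fun σ : Fin b → Equiv.Perm (Fin t) => Compat T σ)).card ≤
      Fintype.card J ^ t * ((t - 1).factorial) ^ b := by
  obtain ⟨⟨x₁, i₁⟩, ⟨x₂, i₂⟩, hne12⟩ := hT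
  apply card_compat_le hb T
  intro g
  apply prod_le
  intro hne x
  refine (card_AA_le T g x).trans ?_
  apply prod_fact_le' _ t (sum_fib g) (T (x₁, i₁)) (T (x₂, i₂)) hne12
  · rw [← card_fib T g x₁ (hne x₁)]
    exact Finset.card_pos.2 ⟨i₁, by rw [Finset.mem_filter]; exact ⟨Finset.mem_univ _, rfl⟩⟩
  · rw [← card_fib T g x₂ (hne x₂)]
    exact Finset.card_pos.2 ⟨i₂, by rw [Finset.mem_filter]; exact ⟨Finset.mem_univ _, rfl⟩⟩

end Pool.Agent.H537R3.SC
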