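import Pool.Agent.H537R3.SC.LO
import Pool.Agent.H537R3.SC.CB
import Pool.Agent.H537R3.SC.EXT
import Pool.Agent.H537R3.SC.MOM
import Pool.Agent.H537R3.SC.POS

/-!
# CORE: large families contain subfamilies with few linear relations
-/

set_option autoImplicit false

namespace Pool.Agent.H537R3.SC

open Finset

open Classical in
/-- relations between some of the functions, the others being fixed -/
theorem co_rel_sub {E K : Type} [Fintype E] [Fintype K] {p : ℕ} (S : Finset (E → K)) {ι : Type}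
    [Fintype ι] (c : ι → K → ZMod p) (P : ι → Prop) [inst : Fintype {i // P i}]
    [dec : DecidableEq {i // P i}] (R : ℝ)
    (h : ∀ z : E → ZMod p, ((univ.filter (fun f : {i // P i} → E → K =>
        (∀ i, f i ∈ S) ∧ ∀ e, ∑ i, c i.1 (f i e) = z e)).card : ℝ) ≤
        R * (S.card : ℝ) ^ Fintype.card {i // P i}) (z : E → ZMod p) :
    ((univ.filter (fun f : ι → E → K =>
        (∀ i, f i ∈ S) ∧ ∀ e, ∑ i, c i (f i e) = z e)).card : ℝ) ≤
        R * (S.card : ℝ) ^ Fintype.card ι := by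
  obtain rfl : inst = Subtype.fintype P := Subsingleton.elim _ _
  obtain rfl : dec = fun a b => a.instDecidableEq b := Subsingleton.elim _ _
  set A := univ.filter (fun f : ι → E → K => (∀ i, f i ∈ S) ∧ ∀ e, ∑ i, c i (f i e) = z e)
    with hA
  set G := univ.filter (fun g : {i // ¬ P i} → E → K => ∀ j, g j ∈ S) with hG
  have hmaps : ∀ f ∈ A, (fun j : {i // ¬ P i} => f j.1) ∈ G := by
    intro f hf
    rw [hA, mem_filter] at hf
    rw [hG, mem_filter]
    exact ⟨mem_univ _, fun j => hf.2.1 j.1⟩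
  have h1 := card_eq_sum_card_fiberwise (s := A) (t := G)
    (f := fun f : ι → E → K => (fun j : {i // ¬ P i} => f j.1)) hmaps
  have h2 : ∀ g ∈ G, ((A.filter (fun f => (fun j : {i // ¬ P i} => f j.1) = g)).card : ℝ) ≤
      R * (S.card : ℝ) ^ Fintype.card {i // P i} := by
    intro g hg
    refine le_trans ?_ (h (fun e => z e - ∑ j : {i // ¬ P i}, c j.1 (g j e)))
    norm_cast
    refine card_le_card_of_injOn (fun f => (fun j : {i // P i} => f j.1)) ?_ ?_
    · intro f hf
      simp only [coe_filter, Set.mem_ofPred_eq, mem_univ, true_and] at hf ⊢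
      obtain ⟨hfA, hfg⟩ := hf
      rw [hA, mem_filter] at hfA
      refine ⟨fun j => hfA.2.1 j.1, fun e => ?_⟩
      have h3 := hfA.2.2 e
      rw [← Fintype.sum_subtype_add_sum_subtype P (fun i => c i (f i e))] at h3
      rw [← h3, ← hfg]
      ring
    · intro f hf f' hf' hff
      simp only [coe_filter, Set.mem_ofPred_eq] at hf hf'
      funext i
      by_cases hi : P i
      · exact congrFun hff ⟨i, hi⟩
      · have := congrFun (hf.2.trans hf'.2.symm) ⟨i, hi⟩
        exact this
  have hGc : (G.card : ℝ) = (S.card : ℝ) ^ Fintype.card {i // ¬ P i} := by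
    have hGp : G = Fintype.piFinset (fun _ => S) := by
      ext g
      simp [hG, Fintype.mem_piFinset]
    rw [hGp, Fintype.card_piFinset, prod_const, card_univ]
    push_cast
    rfl
  calc ((A.card : ℕ) : ℝ) = ∑ g ∈ G,
        ((A.filter (fun f => (fun j : {i // ¬ P i} => f j.1) = g)).card : ℝ) := by
        rw [h1]; push_cast; rfl
    _ ≤ ∑ g ∈ G, R * (S.card : ℝ) ^ Fintype.card {i // P i} := sum_le_sum h2
    _ = R * (S.card : ℝ) ^ Fintype.card ι := by
        rw [sum_const, nsmul_eq_mul, hGc]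
        have : Fintype.card ι = Fintype.card {i // P i} + Fintype.card {i // ¬ P i} := by
          rw [Fintype.card_subtype_compl]
          have := Fintype.card_subtype_le P
          omega
        rw [this, pow_add]
        ring

open Classical in
/-- one coordinate -/
theorem co_lo {K : Type} {p k : ℕ} [Fact p.Prime] (hp : (2 * k) ^ k < p) {J : Type} [Fintype J]
    (hJ : Fintype.card J = k) (c : J → K → ZMod p) (a b : K) (hc : ∀ j, c j a ≠ c j b)
    (w : ZMod p) :
    (univ.filter (fun u : J → Bool => ∑ j, (if u j then c j a else c j b) = w)).card ≤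
      k.choose (k / 2) := by
  refine le_trans (le_of_eq ?_) (lo_mod hp hJ (fun j => c j a - c j b)
    (fun j => sub_ne_zero.2 (hc j)) (w - ∑ j, c j b))
  congr 1
  ext u
  simp only [mem_filter, mem_univ, true_and]
  have : ∑ j, (if u j then c j a else c j b) =
      ∑ j, (if u j then c j a - c j b else 0) + ∑ j, c j b := by
    rw [← sum_add_distrib]
    refine sum_congr rfl fun j _ => ?_
    split_ifs <;> ring
  rw [this]
  constructor
  · intro h; rw [← h]; ring
  · intro h; rw [h]; ring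

open Classical in
/-- counting relations with the patterns on `V` -/
theorem co_rain {E K : Type} [Fintype E] [Fintype K] {p k : ℕ} [Fact p.Prime]
    (hp : (2 * k) ^ k < p) (S : Finset (E → K)) (ρ : K → K) (V : Finset E) (a b : K)
    (hab : a ≠ b) (hV : ∀ T ∈ S, ∀ j ∈ V, ρ (T j) = a ∨ ρ (T j) = b) (μ : ℝ)
    (hμ : ∀ x : E → Bool,
      ((S.filter (fun T => ∀ j ∈ V, ρ (T j) = if x j then a else b)).card : ℝ) ≤ μ)
    {J : Type} [Fintype J] (hJ : Fintype.card J = k) (c : J → K → ZMod p)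
    (hcρ : ∀ j, c j ∘ ρ = c j) (hc : ∀ j, c j a ≠ c j b) (z : E → ZMod p) :
    ((univ.filter (fun f : J → E → K =>
        (∀ i, f i ∈ S) ∧ ∀ e, ∑ i, c i (f i e) = z e)).card : ℝ) ≤
        μ ^ k * ((k.choose (k / 2) : ℕ) : ℝ) ^ V.card := by
  have hμ0 : 0 ≤ μ := le_trans (Nat.cast_nonneg _) (hμ (fun _ => true))
  set A := univ.filter (fun f : J → E → K => (∀ i, f i ∈ S) ∧ ∀ e, ∑ i, c i (f i e) = z e)
    with hA
  let pat : (E → K) → {e // e ∈ V} → Bool := fun T e => decide (ρ (T e.1) = a)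
  set G := univ.filter (fun g : {e // e ∈ V} → J → Bool =>
    ∀ e, ∑ j, (if g e j then c j a else c j b) = z e.1) with hG
  have hmaps : ∀ f ∈ A, (fun (e : {e // e ∈ V}) (j : J) => pat (f j) e) ∈ G := by
    intro f hf
    rw [hA, mem_filter] at hf
    rw [hG, mem_filter]
    refine ⟨mem_univ _, fun e => ?_⟩
    rw [← hf.2.2 e.1]
    refine sum_congr rfl fun j _ => ?_
    have h1 : c j (f j e.1) = c j (ρ (f j e.1)) := by
      conv_lhs => rw [← hcρ j]
      rfl
    rw [h1]
    rcases hV (f j) (hf.2.1 j) e.1 e.2 with h | h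
    · simp [pat, h]
    · have : ¬ (ρ (f j e.1) = a) := by rw [h]; exact hab.symm
      simp [pat, h, hab.symm]
  have h1 := card_eq_sum_card_fiberwise (s := A) (t := G)
    (f := fun f : J → E → K => (fun (e : {e // e ∈ V}) (j : J) => pat (f j) e)) hmaps
  have hGc : G.card ≤ (k.choose (k / 2)) ^ V.card := by
    have : G = Fintype.piFinset (fun e : {e // e ∈ V} =>
        univ.filter (fun u : J → Bool => ∑ j, (if u j then c j a else c j b) = z e.1)) := by
      ext g
      simp [hG, Fintype.mem_piFinset]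
    rw [this, Fintype.card_piFinset]
    calc ∏ e : {e // e ∈ V}, (univ.filter (fun u : J → Bool =>
          ∑ j, (if u j then c j a else c j b) = z e.1)).card
        ≤ ∏ _e : {e // e ∈ V}, k.choose (k / 2) :=
          prod_le_prod' fun e _ => co_lo hp hJ c a b hc _
      _ = _ := by rw [prod_const, card_univ, Fintype.card_coe]
  have h2 : ∀ g ∈ G, ((A.filter (fun f =>
      (fun (e : {e // e ∈ V}) (j : J) => pat (f j) e) = g)).card : ℝ) ≤ μ ^ k := by
    intro g hg
    have hsub : A.filter (fun f => (fun (e : {e // e ∈ V}) (j : J) => pat (f j) e) = g) ⊆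
        Fintype.piFinset (fun j : J => S.filter (fun T => pat T = fun e => g e j)) := by
      intro f hf
      rw [mem_filter, hA, mem_filter] at hf
      rw [Fintype.mem_piFinset]
      intro j
      rw [mem_filter]
      refine ⟨hf.1.2.1 j, ?_⟩
      funext e
      have := congrFun (congrFun hf.2 e) j
      exact this
    have h3 : ∀ j : J, ((S.filter (fun T => pat T = fun e => g e j)).card : ℝ) ≤ μ := by
      intro j
      refine le_trans ?_ (hμ (fun e => if he : e ∈ V then g ⟨e, he⟩ j else false))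
      norm_cast
      refine card_le_card ?_
      intro T hT
      rw [mem_filter] at hT ⊢
      refine ⟨hT.1, fun e he => ?_⟩
      have h4 : pat T ⟨e, he⟩ = g ⟨e, he⟩ j := congrFun hT.2 ⟨e, he⟩
      simp only [dif_pos he, ← h4, pat]
      rcases hV T hT.1 e he with h | h
      · simp [h]
      · simp [h, hab.symm]
    calc ((A.filter (fun f =>
          (fun (e : {e // e ∈ V}) (j : J) => pat (f j) e) = g)).card : ℝ)
        ≤ ((Fintype.piFinset (fun j : J =>
            S.filter (fun T => pat T = fun e => g e j))).card : ℝ) := by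
          exact_mod_cast card_le_card hsub
      _ = ∏ j : J, ((S.filter (fun T => pat T = fun e => g e j)).card : ℝ) := by
          rw [Fintype.card_piFinset]; push_cast; rfl
      _ ≤ ∏ _j : J, μ := prod_le_prod (fun _ _ => Nat.cast_nonneg _) fun j _ => h3 j
      _ = μ ^ k := by rw [prod_const, card_univ, hJ]
  calc ((A.card : ℕ) : ℝ) = ∑ g ∈ G, ((A.filter (fun f =>
          (fun (e : {e // e ∈ V}) (j : J) => pat (f j) e) = g)).card : ℝ) := by
        rw [h1]; push_cast; rfl
    _ ≤ ∑ g ∈ G, μ ^ k := sum_le_sum h2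
    _ = G.card * μ ^ k := by rw [sum_const, nsmul_eq_mul]
    _ ≤ ((k.choose (k / 2)) ^ V.card : ℕ) * μ ^ k := by
        refine mul_le_mul_of_nonneg_right ?_ (pow_nonneg hμ0 k)
        exact_mod_cast hGc
    _ = _ := by push_cast; ring

open Classical in
/-- CORE -/
theorem core (K : Type) [Fintype K] (o : K) (m : ℕ) : ∀ ξ : ℝ, 0 < ξ → ∀ C : ℝ, 0 ≤ C →
    ∃ k p0 n0 : ℕ, ∀ (p : ℕ) [Fact p.Prime], p0 ≤ p → ∀ (E : Type) [Fintype E],
      n0 ≤ Fintype.card E → ∀ ρ : K → K, ρ ∘ ρ = ρ → ρ o = o → (univ.image ρ).card ≤ m →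
      ∀ S : Finset (E → K), S.Nonempty → ∃ S' ⊆ S, ∃ ρ' : K → K, S'.Nonempty ∧ ρ' ∘ ρ = ρ' ∧
        ρ' o = o ∧ (S.card : ℝ) ≤ 2 ^ (ξ * Fintype.card E) * S'.card ∧
        (∀ T ∈ S', ∀ T' ∈ S', ρ' ∘ T = ρ' ∘ T') ∧
        RelB p S' ρ ρ' k (2 ^ (-(C * Fintype.card E))) := by
  induction m with
  | zero =>
    intro ξ _ C _
    refine ⟨0, 0, 0, fun p _ _ E _ _ ρ _ _ hm => ?_⟩
    exfalso
    have : ρ o ∈ univ.image ρ := mem_image_of_mem _ (mem_univ _)
    rw [Nat.le_zero, card_eq_zero] at hm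
    rw [hm] at this
    exact absurd this (notMem_empty _)
  | succ m ih =>
    intro ξ hξ C hC
    obtain ⟨η, hη, n1, hext⟩ := extract K hξ (half_pos hξ)
    -- the number of summands
    obtain ⟨q, hq⟩ := exists_nat_ge (((2 : ℝ) ^ ((C + 1) / η)) ^ 2)
    set k₁ := 2 * (q + 1) with hk₁
    have hk₁pos : (0 : ℝ) < k₁ := by rw [hk₁]; positivity
    set s : ℝ := Real.sqrt (2 * ((q + 1 : ℕ) : ℝ) + 1) with hs
    have hs2 : (2 : ℝ) ^ ((C + 1) / η) ≤ s := by
      rw [hs]
      apply Real.le_sqrt_of_sq_le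
      push_cast
      linarith
    have hL := choose_half (q + 1)
    rw [← hs] at hL
    obtain ⟨k', p1, n2, hih⟩ := ih (min (ξ / 2) (1 / k₁)) (by positivity) C hC
    refine ⟨k₁ + k', max p1 ((2 * k₁) ^ k₁ + 1), max n1 n2, ?_⟩
    intro p _ hp E _ hn ρ hρρ hρo hρm S hS
    set n := Fintype.card E with hndef
    have hp1 : p1 ≤ p := (le_max_left _ _).trans hp
    have hp2 : (2 * k₁) ^ k₁ < p := lt_of_lt_of_le (Nat.lt_succ_self _) ((le_max_right _ _).trans hp)
    by_cases hpop : ∃ T ∈ S, (S.card : ℝ) <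
        ((S.filter (fun T' => ρ ∘ T' = ρ ∘ T)).card : ℝ) * 2 ^ (ξ * n)
    · obtain ⟨T, hT, hpop⟩ := hpop
      refine ⟨S.filter (fun T' => ρ ∘ T' = ρ ∘ T), filter_subset _ _, ρ, ⟨T, by simp [hT]⟩, hρρ,
        hρo, ?_, ?_, ?_⟩
      · rw [mul_comm]; exact hpop.le
      · intro T1 h1 T2 h2
        rw [mem_filter] at h1 h2
        rw [h1.2, h2.2]
      · intro ι _ hι c hc
        have hne : Nonempty ι := by
          rw [← Fintype.card_pos_iff]
          omega
        obtain ⟨i⟩ := hne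
        exact absurd (hc i).1 (hc i).2
    push Not at hpop
    obtain ⟨V, a, b, S₁, hab, hxa, hxb, hS₁, hS₁ne, hVη, hSS₁, hV, hμ⟩ :=
      hext E S ρ ((le_max_left _ _).trans hn) hS hpop
    -- without loss of generality `b ≠ o`
    obtain ⟨a, b, hab, hxa, hxb, hbo, hV, hμ⟩ : ∃ a b : K, a ≠ b ∧ (∃ x, ρ x = a) ∧
        (∃ x, ρ x = b) ∧ b ≠ o ∧ (∀ T ∈ S₁, ∀ j ∈ V, ρ (T j) = a ∨ ρ (T j) = b) ∧
        ∀ x : E → Bool, 2 ^ V.card *
          (S₁.filter (fun T => ∀ j ∈ V, ρ (T j) = if x j then a else b)).card ≤ S₁.card := by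
      by_cases hbo : b = o
      · refine ⟨b, a, hab.symm, hxb, hxa, fun h => hab (h.trans hbo.symm), ?_, ?_⟩
        · intro T hT j hj
          exact (hV T hT j hj).symm
        · intro x
          have := hμ (fun e => !x e)
          refine le_trans (le_of_eq ?_) this
          congr 3
          ext T
          constructor
          · intro h j hj
            rw [h j hj]
            cases x j <;> simp
          · intro h j hj
            rw [h j hj]
            cases x j <;> simp
      · exact ⟨a, b, hab, hxa, hxb, hbo, hV, hμ⟩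
    have hρa : ρ a = a := by
      obtain ⟨x, rfl⟩ := hxa
      exact congrFun hρρ x
    have hρb : ρ b = b := by
      obtain ⟨x, rfl⟩ := hxb
      exact congrFun hρρ x
    set ρ₁ : K → K := fun x => if ρ x = b then a else ρ x with hρ₁
    have h11 : ρ₁ ∘ ρ₁ = ρ₁ := by
      funext x
      simp only [hρ₁, Function.comp]
      by_cases h : ρ x = b
      · simp [h, hρa, hab]
      · have : ρ (ρ x) = ρ x := congrFun hρρ x
        simp [h, this]
    have h1ρ : ρ₁ ∘ ρ = ρ₁ := by
      funext x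
      have : ρ (ρ x) = ρ x := congrFun hρρ x
      simp only [hρ₁, Function.comp, this]
    have h1o : ρ₁ o = o := by
      simp only [hρ₁, hρo]
      rw [if_neg (Ne.symm hbo)]
    have h1m : (univ.image ρ₁).card ≤ m := by
      have hsub : univ.image ρ₁ ⊆ (univ.image ρ).erase b := by
        intro y hy
        rw [mem_image] at hy
        obtain ⟨x, _, rfl⟩ := hy
        rw [mem_erase]
        simp only [hρ₁]
        split_ifs with h
        · obtain ⟨x', hx'⟩ := hxa
          exact ⟨hab, hx' ▸ mem_image_of_mem _ (mem_univ _)⟩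
        · exact ⟨h, mem_image_of_mem _ (mem_univ _)⟩
      have hb : b ∈ univ.image ρ := by
        obtain ⟨x', hx'⟩ := hxb
        exact hx' ▸ mem_image_of_mem _ (mem_univ _)
      have := card_le_card hsub
      rw [card_erase_of_mem hb] at this
      omega
    obtain ⟨S', hS'S₁, ρ', hS'ne, hρ'ρ₁, hρ'o, hS₁S', hconst, hrel⟩ :=
      hih p hp1 E ((le_max_right _ _).trans hn) ρ₁ h11 h1o h1m S₁ hS₁ne
    have hρ'ρ : ρ' ∘ ρ = ρ' := by
      calc ρ' ∘ ρ = (ρ' ∘ ρ₁) ∘ ρ := by rw [hρ'ρ₁]
        _ = ρ' ∘ (ρ₁ ∘ ρ) := rfl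
        _ = ρ' := by rw [h1ρ, hρ'ρ₁]
    have hn0 : (0 : ℝ) ≤ n := Nat.cast_nonneg _
    refine ⟨S', hS'S₁.trans hS₁, ρ', hS'ne, hρ'ρ, hρ'o, ?_, hconst, ?_⟩
    · calc (S.card : ℝ) ≤ 2 ^ (ξ / 2 * n) * S₁.card := hSS₁
        _ ≤ 2 ^ (ξ / 2 * n) * (2 ^ (min (ξ / 2) (1 / k₁) * n) * S'.card) :=
          mul_le_mul_of_nonneg_left hS₁S' (by positivity)
        _ ≤ 2 ^ (ξ / 2 * n) * (2 ^ (ξ / 2 * n) * S'.card) := by
          refine mul_le_mul_of_nonneg_left ?_ (by positivity)
          refine mul_le_mul_of_nonneg_right ?_ (Nat.cast_nonneg _)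
          refine Real.rpow_le_rpow_of_exponent_le (by norm_num) ?_
          exact mul_le_mul_of_nonneg_right (min_le_left _ _) hn0
        _ = 2 ^ (ξ * n) * S'.card := by
          rw [← mul_assoc, ← Real.rpow_add (by norm_num)]
          congr 2
          ring
    -- the relations
    intro ι _ hι c hc z
    set μ : ℝ := 2 ^ (1 / k₁ * (n : ℝ)) / 2 ^ V.card * S'.card with hμdef
    have hμ' : ∀ x : E → Bool,
        ((S'.filter (fun T => ∀ j ∈ V, ρ (T j) = if x j then a else b)).card : ℝ) ≤ μ := by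
      intro x
      have h1 : ((S'.filter (fun T => ∀ j ∈ V, ρ (T j) = if x j then a else b)).card : ℝ) ≤
          ((S₁.filter (fun T => ∀ j ∈ V, ρ (T j) = if x j then a else b)).card : ℝ) := by
        exact_mod_cast card_le_card (filter_subset_filter _ hS'S₁)
      have h2 : (2 : ℝ) ^ V.card *
          ((S₁.filter (fun T => ∀ j ∈ V, ρ (T j) = if x j then a else b)).card : ℝ) ≤
          S₁.card := by exact_mod_cast hμ x
      have h3 : (S₁.card : ℝ) ≤ 2 ^ (1 / k₁ * (n : ℝ)) * S'.card := by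
        refine hS₁S'.trans ?_
        refine mul_le_mul_of_nonneg_right ?_ (Nat.cast_nonneg _)
        refine Real.rpow_le_rpow_of_exponent_le (by norm_num) ?_
        exact mul_le_mul_of_nonneg_right (min_le_right _ _) hn0
      rw [hμdef, div_mul_eq_mul_div, le_div_iff₀ (by positivity), mul_comm]
      calc (2 : ℝ) ^ V.card *
          ((S'.filter (fun T => ∀ j ∈ V, ρ (T j) = if x j then a else b)).card : ℝ)
          ≤ 2 ^ V.card *
          ((S₁.filter (fun T => ∀ j ∈ V, ρ (T j) = if x j then a else b)).card : ℝ) :=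
            mul_le_mul_of_nonneg_left h1 (by positivity)
        _ ≤ _ := h2.trans h3
    have hnum : μ ^ k₁ * ((k₁.choose (k₁ / 2) : ℕ) : ℝ) ^ V.card ≤
        2 ^ (-(C * n)) * (S'.card : ℝ) ^ k₁ := by
      have hL' : ((k₁.choose (k₁ / 2) : ℕ) : ℝ) * s ≤ 2 ^ k₁ := by
        have h1 : k₁ / 2 = q + 1 := by omega
        rw [h1, hk₁]
        refine hL.trans (le_of_eq ?_)
        rw [pow_mul]
        norm_num
      have hsV : (2 : ℝ) ^ ((C + 1) * n) ≤ s ^ V.card := by
        calc (2 : ℝ) ^ ((C + 1) * n) ≤ 2 ^ ((C + 1) / η * V.card) := by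
              refine Real.rpow_le_rpow_of_exponent_le (by norm_num) ?_
              have h1 : (C + 1) * n = (C + 1) / η * (η * n) := by field_simp
              rw [h1]
              exact mul_le_mul_of_nonneg_left hVη (by positivity)
          _ = ((2 : ℝ) ^ ((C + 1) / η)) ^ V.card := by
              rw [Real.rpow_mul (by norm_num), Real.rpow_natCast]
          _ ≤ s ^ V.card := pow_le_pow_left₀ (by positivity) hs2 _
      have h1 : (((k₁.choose (k₁ / 2) : ℕ) : ℝ)) ^ V.card * 2 ^ ((C + 1) * n) ≤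
          ((2 : ℝ) ^ V.card) ^ k₁ := by
        calc (((k₁.choose (k₁ / 2) : ℕ) : ℝ)) ^ V.card * 2 ^ ((C + 1) * n)
            ≤ (((k₁.choose (k₁ / 2) : ℕ) : ℝ)) ^ V.card * s ^ V.card :=
              mul_le_mul_of_nonneg_left hsV (by positivity)
          _ = (((k₁.choose (k₁ / 2) : ℕ) : ℝ) * s) ^ V.card := by rw [mul_pow]
          _ ≤ ((2 : ℝ) ^ k₁) ^ V.card := pow_le_pow_left₀ (by positivity) hL' _
          _ = ((2 : ℝ) ^ V.card) ^ k₁ := by rw [← pow_mul, ← pow_mul, mul_comm]
      have h2 : ((2 : ℝ) ^ (1 / k₁ * (n : ℝ))) ^ k₁ = 2 ^ (n : ℝ) := by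
        rw [← Real.rpow_natCast, ← Real.rpow_mul (by norm_num)]
        congr 1
        field_simp
      have h3 : μ ^ k₁ = 2 ^ (n : ℝ) / ((2 : ℝ) ^ V.card) ^ k₁ * (S'.card : ℝ) ^ k₁ := by
        rw [hμdef, mul_pow, div_pow, h2]
      rw [h3]
      have h4 : (2 : ℝ) ^ ((C + 1) * n) = 2 ^ (C * n) * 2 ^ (n : ℝ) := by
        rw [← Real.rpow_add (by norm_num)]
        congr 1
        ring
      have h5 : (2 : ℝ) ^ (-(C * n)) = ((2 : ℝ) ^ (C * n))⁻¹ := Real.rpow_neg (by norm_num) _
      rw [h5]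
      rw [h4] at h1
      have h6 : (0 : ℝ) < 2 ^ (C * n) := by positivity
      have h7 : (0 : ℝ) < 2 ^ (n : ℝ) := by positivity
      have h8 : (0 : ℝ) < ((2 : ℝ) ^ V.card) ^ k₁ := by positivity
      have h9 : 2 ^ (n : ℝ) / ((2 : ℝ) ^ V.card) ^ k₁ *
          (((k₁.choose (k₁ / 2) : ℕ) : ℝ)) ^ V.card ≤ ((2 : ℝ) ^ (C * n))⁻¹ := by
        rw [div_mul_eq_mul_div, div_le_iff₀ h8, ← one_div, div_mul_eq_mul_div, one_mul,
          le_div_iff₀ h6]
        calc _ = (((k₁.choose (k₁ / 2) : ℕ) : ℝ)) ^ V.card * (2 ^ (C * n) * 2 ^ (n : ℝ)) := by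
              ring
          _ ≤ _ := h1
      calc 2 ^ (n : ℝ) / ((2 : ℝ) ^ V.card) ^ k₁ * (S'.card : ℝ) ^ k₁ *
          (((k₁.choose (k₁ / 2) : ℕ) : ℝ)) ^ V.card
          = 2 ^ (n : ℝ) / ((2 : ℝ) ^ V.card) ^ k₁ *
          (((k₁.choose (k₁ / 2) : ℕ) : ℝ)) ^ V.card * (S'.card : ℝ) ^ k₁ := by ring
        _ ≤ _ := mul_le_mul_of_nonneg_right h9 (by positivity)
    by_cases hI : k₁ ≤ (univ.filter (fun i => c i ∘ ρ₁ ≠ c i)).card
    · obtain ⟨I, hIsub, hIcard⟩ := exists_subset_card_eq hI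
      refine co_rel_sub (dec := fun a b => Classical.propDecidable (a = b)) S' c (fun i => i ∈ I) _ ?_ z
      intro z'
      have hJ : Fintype.card {i // i ∈ I} = k₁ := by rw [Fintype.card_coe, hIcard]
      have hcab : ∀ j : {i // i ∈ I}, c j.1 a ≠ c j.1 b := by
        intro j hj
        have h1 := hIsub j.2
        rw [mem_filter] at h1
        apply h1.2
        have h2 := (hc j.1).1
        funext x
        simp only [hρ₁, Function.comp]
        have h3 : c j.1 (ρ x) = c j.1 x := congrFun h2 x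
        split_ifs with h
        · rw [hj, ← h, h3]
        · exact h3
      have h1 := co_rain hp2 S' ρ V a b hab (fun T hT => hV T (hS'S₁ hT)) μ hμ' hJ
        (fun j => c j.1) (fun j => (hc j.1).1) hcab z'
      rw [hJ]
      exact h1.trans hnum
    · refine co_rel_sub (dec := fun a b => Classical.propDecidable (a = b)) S' c
        (fun i => c i ∘ ρ₁ = c i) _ ?_ z
      intro z'
      refine hrel {i // c i ∘ ρ₁ = c i} ?_ (fun j => c j.1) (fun j => ⟨j.2, (hc j.1).2⟩) z'
      have h1 := Finset.card_filter_add_card_filter_not (s := (univ : Finset ι))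
        (fun i => c i ∘ ρ₁ = c i)
      rw [Fintype.card_subtype]
      rw [card_univ] at h1
      push Not at hI
      simp only [ne_eq] at hI
      omega

end Pool.Agent.H537R3.SC
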