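import Pool.Agent.H537R3.SC.APX

/-!
# DIC: small monotone circuits accept almost no partition or almost all labellings
-/

set_option autoImplicit false

namespace Pool.Agent.H537R3.SC

open Finset Pool.Agent.H520R2

set_option maxHeartbeats 1000000 in
theorem di_neg {b t p : ℕ} [Fact p.Prime] (hb : 0 < b) (ht : 0 < t) :
    (p : ℝ) ^ (b * t) ≤
      2 * ((univ.filter (fun a : Fin b × Fin t → ZMod p => ∑ e, a e ≠ 0)).card : ℝ) := by
  classical
  have hp2 : 2 ≤ p := (Fact.out : p.Prime).two_le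
  let e0 : Fin b × Fin t := (⟨0, hb⟩, ⟨0, ht⟩)
  set Z := univ.filter (fun a : Fin b × Fin t → ZMod p => ∑ e, a e = 0) with hZ
  have h1 : Z.card * 2 ≤ p ^ (b * t) := by
    have h2 : (Z ×ˢ (univ : Finset (ZMod p))).card ≤
        (univ : Finset (Fin b × Fin t → ZMod p)).card := by
      refine card_le_card_of_injOn
        (fun x => (x.1 + Pi.single e0 x.2 : Fin b × Fin t → ZMod p)) (fun _ _ => by simp) ?_
      rintro ⟨a, u⟩ h ⟨a', u'⟩ h' hxy
      simp only [coe_product, Set.mem_prod, mem_coe, hZ, mem_filter, mem_univ, true_and] at h h'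
      have h3 : ∑ e, (a + Pi.single e0 u : Fin b × Fin t → ZMod p) e =
          ∑ e, (a' + Pi.single e0 u' : Fin b × Fin t → ZMod p) e := by
        have : (a + Pi.single e0 u : Fin b × Fin t → ZMod p) = a' + Pi.single e0 u' := hxy
        rw [this]
      simp only [Pi.add_apply, sum_add_distrib, h.1, h'.1, zero_add] at h3
      have h4 : u = u' := by
        simpa [Pi.single_apply] using h3
      subst h4
      have h5 : (a + Pi.single e0 u : Fin b × Fin t → ZMod p) = a' + Pi.single e0 u := hxy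
      rw [add_right_cancel h5]
    rw [card_product, card_univ, card_univ, ZMod.card, Fintype.card_fun, ZMod.card,
      Fintype.card_prod, Fintype.card_fin, Fintype.card_fin] at h2
    exact (Nat.mul_le_mul_left _ hp2).trans h2
  have h2 := Finset.card_filter_add_card_filter_not
    (s := (univ : Finset (Fin b × Fin t → ZMod p))) (fun a => ∑ e, a e = 0)
  rw [card_univ, Fintype.card_fun, ZMod.card, Fintype.card_prod, Fintype.card_fin,
    Fintype.card_fin, ← hZ] at h2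
  have h3 : p ^ (b * t) ≤
      2 * (univ.filter (fun a : Fin b × Fin t → ZMod p => ∑ e, a e ≠ 0)).card := by
    simp only [ne_eq]
    omega
  exact_mod_cast h3

theorem di_x0 {δ : ℝ} (hδ : 0 < δ) : ∃ x0 : ℝ, ∀ x : ℝ, x0 ≤ x → x ≤ 2 ^ (δ / 4 * x) := by
  have h1 := Real.isLittleO_log_id_atTop.def (c := δ / 4 * Real.log 2)
    (by have := Real.log_pos one_lt_two; positivity)
  obtain ⟨x0, hx0⟩ := Filter.eventually_atTop.1 h1
  refine ⟨max x0 1, fun x hx => ?_⟩
  have h2 := hx0 x ((le_max_left _ _).trans hx)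
  have hx1 : 1 ≤ x := (le_max_right _ _).trans hx
  simp only [id_eq, Real.norm_eq_abs] at h2
  rw [abs_of_nonneg (Real.log_nonneg hx1), abs_of_nonneg (by linarith)] at h2
  have h3 : (2 : ℝ) ^ (δ / 4 * x) = Real.exp (δ / 4 * Real.log 2 * x) := by
    rw [Real.rpow_def_of_pos two_pos]
    congr 1
    ring
  rw [h3]
  calc x = Real.exp (Real.log x) := (Real.exp_log (by linarith)).symm
    _ ≤ _ := Real.exp_le_exp.2 h2

/-- numerics of the positive case -/
theorem di_posnum {N s W T1 T2 F1 F2 Q X : ℝ} (hs : 0 ≤ s) (hF1' : 0 ≤ F1) (hF2' : 0 ≤ F2)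
    (hW1 : 1 ≤ W) (hT2 : 1 ≤ T2) (hWbig : 2 * T2 ≤ W) (hT12 : T1 ≤ T2) (hsn : s * W ^ 16 ≤ X)
    (hF1 : F1 * X ≤ Q * W ^ 4) (hF2 : F2 * W ^ 4 = Q)
    (hN : N ≤ s * (W ^ 2 * (T2 * F1)) + W * (T1 * F2)) : N * W ≤ Q := by
  have hW0 : 0 < W := by linarith
  have h3 : (s * F1) * W ^ 12 ≤ Q := by
    have h4 : (s * F1) * W ^ 16 ≤ Q * W ^ 4 := by
      calc (s * F1) * W ^ 16 = F1 * (s * W ^ 16) := by ring
        _ ≤ F1 * X := mul_le_mul_of_nonneg_left hsn hF1'
        _ ≤ _ := hF1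
    have h5 : (0 : ℝ) < W ^ 4 := by positivity
    have h6 : ((s * F1) * W ^ 12) * W ^ 4 ≤ Q * W ^ 4 := by
      calc ((s * F1) * W ^ 12) * W ^ 4 = (s * F1) * W ^ 16 := by ring
        _ ≤ _ := h4
    exact le_of_mul_le_mul_right h6 h5
  have hs1 : 0 ≤ s * F1 := mul_nonneg hs hF1'
  have hA1 : s * (W ^ 2 * (T2 * F1)) * W ≤ Q / 2 := by
    calc s * (W ^ 2 * (T2 * F1)) * W
        = (s * F1) * W ^ 3 * T2 := by ring
      _ ≤ (s * F1) * W ^ 3 * (W / 2) := mul_le_mul_of_nonneg_left (by linarith) (by positivity)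
      _ = (s * F1) * W ^ 4 / 2 := by ring
      _ ≤ (s * F1) * W ^ 12 / 2 := by
          have : W ^ 4 ≤ W ^ 12 := pow_le_pow_right₀ hW1 (by norm_num)
          have := mul_le_mul_of_nonneg_left this hs1
          linarith
      _ ≤ Q / 2 := by linarith
  have hA2 : W * (T1 * F2) * W ≤ Q / 2 := by
    have h4 : T1 ≤ W / 2 := by linarith
    calc W * (T1 * F2) * W = F2 * W ^ 2 * T1 := by ring
      _ ≤ F2 * W ^ 2 * (W / 2) := mul_le_mul_of_nonneg_left h4 (by positivity)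
      _ = F2 * W ^ 3 / 2 := by ring
      _ ≤ F2 * W ^ 4 / 2 := by
          have : W ^ 3 ≤ W ^ 4 := pow_le_pow_right₀ hW1 (by norm_num)
          have := mul_le_mul_of_nonneg_left this hF2'
          linarith
      _ = Q / 2 := by rw [hF2]
  calc N * W ≤ (s * (W ^ 2 * (T2 * F1)) + W * (T1 * F2)) * W :=
        mul_le_mul_of_nonneg_right hN hW0.le
    _ = s * (W ^ 2 * (T2 * F1)) * W + W * (T1 * F2) * W := by ring
    _ ≤ Q / 2 + Q / 2 := add_le_add hA1 hA2
    _ = Q := by ring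

/-- numerics of the negative case -/
theorem di_negnum {N s W P X : ℝ} (hs : 0 ≤ s) (hP0 : 0 ≤ P)
    (hW1 : 1 ≤ W) (hsX : s ≤ X) (h5 : W ^ 3 ≤ X) (h6 : 4 ≤ X)
    (hN : N ≤ s * (2 * W ^ 2 * (P * (X * X * X)⁻¹))) : N * W ≤ P / 2 := by
  have hW0 : 0 < W := by linarith
  have hX0 : 0 < X := by linarith
  calc N * W ≤ (X * (2 * W ^ 2 * (P * (X * X * X)⁻¹))) * W := by
        refine mul_le_mul_of_nonneg_right (hN.trans ?_) hW0.le
        exact mul_le_mul_of_nonneg_right hsX (by positivity)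
    _ = 2 * W ^ 3 * P / (X * X) := by
        field_simp
    _ ≤ P / 2 := by
        rw [div_le_div_iff₀ (by positivity) two_pos]
        have h9 : 4 * W ^ 3 ≤ X * X := by nlinarith
        nlinarith

theorem di_fact1 {h : ℕ} (hh : 1 ≤ h) (b : ℕ) :
    ((h.factorial : ℝ) ^ 2) ^ b * 2 ^ ((2 * h * b : ℕ) : ℝ) ≤
      ((2 * h).factorial : ℝ) ^ b * (2 * h : ℝ) ^ b := by
  have h2 : 4 ^ h * (h.factorial ^ 2) ≤ (2 * h) * (2 * h).factorial := by
    have h3 := Nat.four_pow_le_two_mul_self_mul_centralBinom h (by omega)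
    have h4 : Nat.centralBinom h * (h.factorial ^ 2) = (2 * h).factorial := by
      rw [Nat.centralBinom_eq_two_mul_choose]
      have := Nat.choose_mul_factorial_mul_factorial (show h ≤ 2 * h by omega)
      rw [show 2 * h - h = h by omega] at this
      rw [← this]
      ring
    calc 4 ^ h * (h.factorial ^ 2) ≤ 2 * h * Nat.centralBinom h * (h.factorial ^ 2) :=
          Nat.mul_le_mul_right _ h3
      _ = _ := by rw [mul_assoc, h4]
  have h2' : (4 : ℝ) ^ h * ((h.factorial : ℝ) ^ 2) ≤ (2 * h) * ((2 * h).factorial : ℝ) := by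
    exact_mod_cast h2
  have h3 : (2 : ℝ) ^ ((2 * h * b : ℕ) : ℝ) = ((4 : ℝ) ^ h) ^ b := by
    rw [Real.rpow_natCast, show (4 : ℝ) = 2 ^ 2 by norm_num, ← pow_mul, ← pow_mul, mul_assoc]
  rw [h3, ← mul_pow, ← mul_pow]
  refine pow_le_pow_left₀ (by positivity) ?_ _
  calc (h.factorial : ℝ) ^ 2 * 4 ^ h = 4 ^ h * (h.factorial : ℝ) ^ 2 := by ring
    _ ≤ _ := h2'
    _ = _ := by ring

theorem di_fact2 {h : ℕ} (hh : 1 ≤ h) (b : ℕ) :
    ((2 * h - 1).factorial : ℝ) ^ b * (2 * h : ℝ) ^ b = ((2 * h).factorial : ℝ) ^ b := by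
  rw [← mul_pow]
  congr 1
  have : (2 * h).factorial = (2 * h) * (2 * h - 1).factorial :=
    (Nat.mul_factorial_pred (by omega)).symm
  rw [this]
  push_cast
  ring

open Classical in
set_option maxHeartbeats 1000000 in
/-- the negative case -/
theorem di_case_neg {b h p : ℕ} [Fact p.Prime] (hb : 0 < b) (hh : 2 ≤ h) {s : ℝ} (hs : 0 ≤ s)
    {W X : ℝ} (hW1 : 1 ≤ W) (hsX : s ≤ X) (h5 : W ^ 3 ≤ X) (h6 : 4 ≤ X)
    (BN : Finset (Fin b × Fin (2 * h) → ZMod p))
    (hBN : (BN.card : ℝ) ≤ s * (2 * W ^ 2 * ((p : ℝ) ^ (b * (2 * h)) * (X * X * X)⁻¹)))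
    (g : Set (Fin b → Fin (2 * h)) → Bool) (hg : ∀ a, a ∉ BN → g (negX a) = true) :
    ((univ.filter (fun a : Fin b × Fin (2 * h) → ZMod p =>
          ∑ e, a e ≠ 0 ∧ g (negX a) = false)).card : ℝ) * W ≤
        (univ.filter (fun a : Fin b × Fin (2 * h) → ZMod p => ∑ e, a e ≠ 0)).card := by
  have hsub : (univ.filter (fun a : Fin b × Fin (2 * h) → ZMod p =>
        ∑ e, a e ≠ 0 ∧ g (negX a) = false)) ⊆ BN := by
    intro a ha
    by_contra haB
    have h1 := hg a haB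
    rw [mem_filter] at ha
    rw [ha.2.2] at h1
    exact Bool.false_ne_true h1
  have h1 : ((univ.filter (fun a : Fin b × Fin (2 * h) → ZMod p =>
        ∑ e, a e ≠ 0 ∧ g (negX a) = false)).card : ℝ) ≤ BN.card := by
    exact_mod_cast card_le_card hsub
  have h2 := di_neg (b := b) (t := 2 * h) (p := p) hb (by omega)
  have h3 := di_negnum hs (by positivity) hW1 hsX h5 h6 (h1.trans hBN)
  refine h3.trans ?_
  linarith

open Classical in
set_option maxHeartbeats 1000000 in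
/-- the positive case -/
theorem di_case_pos {b h : ℕ} (hb : 0 < b) (hh : 2 ≤ h) {s : ℝ} (hs : 0 ≤ s)
    {W X : ℝ} (hW1 : 1 ≤ W) (hWb : W ^ 4 = (2 * h : ℝ) ^ b)
    (hWbig : 2 * (2 * h : ℝ) ^ (2 * (2 * h)) ≤ W) (hsn : s * W ^ 16 ≤ X)
    (hX : X = 2 ^ ((2 * h * b : ℕ) : ℝ)) {o : Fin (2 * h)}
    (BP : Finset (Fin b → Equiv.Perm (Fin (2 * h))))
    (hBP : (BP.card : ℝ) ≤ s * (W ^ 2 * (((2 * h) ^ 2) ^ (2 * h) * (h.factorial ^ 2) ^ b : ℕ)))
    (G : Finset (Fin b × Fin (2 * h) → Fin (2 * h))) (hG : (G.card : ℝ) ≤ W)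
    (hGL : ∀ T ∈ G, Light h o T) (hconst : (fun _ => o) ∉ G)
    (g : Set (Fin b → Fin (2 * h)) → Bool)
    (hg : ∀ σ, σ ∉ BP → g (posX σ) = true → ∃ T ∈ G, Compat T σ) :
    ((univ.filter (fun σ : Fin b → Equiv.Perm (Fin (2 * h)) => g (posX σ) = true)).card : ℝ) *
          W ≤ Fintype.card (Fin b → Equiv.Perm (Fin (2 * h))) := by
  have hsub : univ.filter (fun σ : Fin b → Equiv.Perm (Fin (2 * h)) => g (posX σ) = true) ⊆
      BP ∪ G.biUnion (fun T => univ.filter (fun σ => Compat T σ)) := by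
    intro σ hσ
    rw [mem_filter] at hσ
    rw [mem_union, mem_biUnion]
    by_cases hB : σ ∈ BP
    · exact Or.inl hB
    · obtain ⟨T, hTG, hc⟩ := hg σ hB hσ.2
      exact Or.inr ⟨T, hTG, mem_filter.2 ⟨mem_univ _, hc⟩⟩
  have h1 : (G.biUnion (fun T => univ.filter (fun σ : Fin b → Equiv.Perm (Fin (2 * h)) =>
      Compat T σ))).card ≤ G.card * ((2 * h) ^ (2 * h) * ((2 * h - 1).factorial) ^ b) := by
    refine card_biUnion_le_card_mul _ _ _ fun T hTG => ?_
    have h2 := pos_nontriv hb T (by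
      obtain ⟨e, he⟩ := ap_light_ex (hGL T hTG)
      by_contra hcon
      push Not at hcon
      apply hconst
      have : T = fun _ => o := by
        funext e'
        rw [hcon e' e, he]
      rwa [this] at hTG)
    rwa [Fintype.card_fin] at h2
  have hcard : (Fintype.card (Fin b → Equiv.Perm (Fin (2 * h))) : ℝ) =
      ((2 * h).factorial : ℝ) ^ b := by
    rw [Fintype.card_fun, Fintype.card_perm, Fintype.card_fin, Fintype.card_fin]
    push_cast
    rfl
  have h2 : ((univ.filter (fun σ : Fin b → Equiv.Perm (Fin (2 * h)) =>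
      g (posX σ) = true)).card : ℝ) ≤ s * (W ^ 2 * ((2 * h : ℝ) ^ (2 * (2 * h)) *
        ((h.factorial : ℝ) ^ 2) ^ b)) +
        W * ((2 * h : ℝ) ^ (2 * h) * ((2 * h - 1).factorial : ℝ) ^ b) := by
    have h3 := (card_le_card hsub).trans (card_union_le _ _)
    have h4 : ((univ.filter (fun σ : Fin b → Equiv.Perm (Fin (2 * h)) =>
      g (posX σ) = true)).card : ℝ) ≤ BP.card +
      ((G.card * ((2 * h) ^ (2 * h) * ((2 * h - 1).factorial) ^ b) : ℕ) : ℝ) := by
      have h5 := h3.trans (Nat.add_le_add_left h1 _)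
      exact_mod_cast h5
    refine h4.trans (add_le_add ?_ ?_)
    · refine hBP.trans (le_of_eq ?_)
      push_cast
      rw [← pow_mul]
    · push_cast
      exact mul_le_mul_of_nonneg_right hG (by positivity)
  have ht : (1 : ℝ) ≤ 2 * h := by
    have : (2 : ℝ) ≤ h := by exact_mod_cast hh
    linarith
  rw [hcard]
  refine di_posnum hs (F1 := ((h.factorial : ℝ) ^ 2) ^ b)
    (F2 := ((2 * h - 1).factorial : ℝ) ^ b) (by positivity) (by positivity) hW1
    (one_le_pow₀ ht) hWbig (pow_le_pow_right₀ ht (by omega)) hsn ?_ ?_ h2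
  · rw [hX, hWb]
    exact di_fact1 (by omega) b
  · rw [hWb]
    exact di_fact2 (by omega) b

end Pool.Agent.H537R3.SC
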