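import Pool.Agent.H537R3.SC.DIC

/-!
# DIC2: the dichotomy
-/

set_option autoImplicit false

namespace Pool.Agent.H537R3.SC

open Finset Pool.Agent.H520R2

theorem di_perp_const {E K : Type} [Fintype E] [DecidableEq K] {p : ℕ} (o : K)
    (a : E → ZMod p) : Perp o a (fun _ => o) := by
  intro x hx
  rw [filter_false_of_mem (fun e _ h => hx h.symm), sum_empty]

open Classical in
set_option maxHeartbeats 400000 in
/-- the dichotomy, given plucking -/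
theorem di_main {b h p : ℕ} [Fact p.Prime] (hb : 0 < b) (hh : 2 ≤ h) {s : ℕ}
    {W X en : ℝ} (hW1 : 1 ≤ W) (hWb : W ^ 4 = (2 * h : ℝ) ^ b)
    (hWbig : 2 * (2 * h : ℝ) ^ (2 * (2 * h)) ≤ W) (hsn : (s : ℝ) * W ^ 16 ≤ X)
    (hX : X = 2 ^ ((2 * h * b : ℕ) : ℝ)) (h5 : W ^ 3 ≤ X) (h6 : 4 ≤ X)
    (hen : en = (p : ℝ) ^ (b * (2 * h)) * (X * X * X)⁻¹) (o : Fin (2 * h))
    (hpl : PluckH b (2 * h) p o W en)
    {g : Set (Fin b → Fin (2 * h)) → Bool} (hg : MComp (VarB (Fin b → Fin (2 * h))) s g) :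
    ((univ.filter (fun σ : Fin b → Equiv.Perm (Fin (2 * h)) => g (posX σ) = true)).card : ℝ) *
          W ≤ Fintype.card (Fin b → Equiv.Perm (Fin (2 * h))) ∨
    ((univ.filter (fun a : Fin b × Fin (2 * h) → ZMod p =>
          ∑ e, a e ≠ 0 ∧ g (negX a) = false)).card : ℝ) * W ≤
        (univ.filter (fun a : Fin b × Fin (2 * h) → ZMod p => ∑ e, a e ≠ 0)).card := by
  obtain ⟨L, hL, hLs, hgL⟩ := hg
  have hen0 : 0 ≤ en := by
    rw [hen]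
    have : 0 < X := by linarith
    positivity
  obtain ⟨BP, BN, hBP, hBN, hA⟩ := apx_main hb hh (Fintype.card_fin _) hpl hen0 hW1 hL
  have hLs' : (L.length : ℝ) ≤ s := by exact_mod_cast hLs
  have hs0 : (0 : ℝ) ≤ s := Nat.cast_nonneg _
  obtain ⟨G, hG1, hG2, hG3, hG4⟩ := hA g hgL
  by_cases hconst : (fun _ => o) ∈ G
  · right
    refine di_case_neg hb hh hs0 hW1 ?_ h5 h6 BN ?_ g ?_
    · have : (1 : ℝ) ≤ W ^ 16 := one_le_pow₀ hW1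
      nlinarith
    · rw [← hen]
      exact hBN.trans (mul_le_mul_of_nonneg_right hLs' (by positivity))
    · intro a ha
      exact hG4 a ha ⟨_, hconst, @di_perp_const _ _ _ (fun a b => propDecidable (a = b)) _ o a⟩
  · left
    exact di_case_pos hb hh hs0 hW1 hWb hWbig hsn hX BP
      (hBP.trans (mul_le_mul_of_nonneg_right hLs' (by positivity))) G hG1 hG2 hconst g hG3

set_option maxHeartbeats 400000 in
/-- choice of `W` -/
theorem di_W {δ : ℝ} (hδ : 0 < δ) (hδ1 : δ ≤ 1) {t : ℝ} (ht4 : 4 ≤ t) (hT : t ≤ 2 ^ (δ / 4 * t))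
    {m b1 b : ℕ} (hb0 : 0 < b) (hb1 : 2 * t ^ m + 1 ≤ b1) (hbb1 : 4 * b1 ≤ b) :
    1 ≤ t ^ ((b : ℝ) / 4) ∧ (t ^ ((b : ℝ) / 4)) ^ 4 = t ^ b ∧ 2 * t ^ m ≤ t ^ ((b : ℝ) / 4) ∧
      (t ^ ((b : ℝ) / 4)) ^ 16 ≤ 2 ^ (δ * (t * b)) ∧ (t ^ ((b : ℝ) / 4)) ^ 3 ≤ 2 ^ (t * b) ∧
      (4 : ℝ) ≤ 2 ^ (t * b) ∧
      (2 : ℝ) ^ (Real.logb 2 t / (4 * t) * (t * b)) = t ^ ((b : ℝ) / 4) := by
  have ht0 : 0 < t := by linarith
  have hbR : (1 : ℝ) ≤ b := by exact_mod_cast hb0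
  have hW4 : (t ^ ((b : ℝ) / 4)) ^ 4 = t ^ b := by
    rw [← Real.rpow_natCast, ← Real.rpow_mul ht0.le, ← Real.rpow_natCast]
    congr 1
    push_cast
    ring
  have hW1 : 1 ≤ t ^ ((b : ℝ) / 4) := Real.one_le_rpow (by linarith) (by positivity)
  have hWbig : 2 * t ^ m ≤ t ^ ((b : ℝ) / 4) := by
    have h1 : t ^ (b1 : ℝ) ≤ t ^ ((b : ℝ) / 4) := by
      refine Real.rpow_le_rpow_of_exponent_le (by linarith) ?_
      have : ((4 * b1 : ℕ) : ℝ) ≤ b := by exact_mod_cast hbb1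
      push_cast at this
      linarith
    have h2 : (b1 : ℝ) ≤ t ^ (b1 : ℝ) := by
      rw [Real.rpow_natCast]
      calc (b1 : ℝ) ≤ 2 ^ b1 := by exact_mod_cast (Nat.lt_two_pow_self (n := b1)).le
        _ ≤ t ^ b1 := pow_le_pow_left₀ (by norm_num) (by linarith) _
    linarith
  have hW16 : (t ^ ((b : ℝ) / 4)) ^ 16 ≤ 2 ^ (δ * (t * b)) := by
    have h1 : (t ^ ((b : ℝ) / 4)) ^ 16 = (t ^ b) ^ 4 := by rw [← hW4]; ring
    have h2 : t ^ b ≤ ((2 : ℝ) ^ (δ / 4 * t)) ^ b := pow_le_pow_left₀ ht0.le hT _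
    have h3 : (((2 : ℝ) ^ (δ / 4 * t)) ^ b) ^ 4 = 2 ^ (δ * (t * b)) := by
      rw [← Real.rpow_natCast, ← Real.rpow_natCast, ← Real.rpow_mul (by positivity),
        ← Real.rpow_mul (by positivity)]
      congr 1
      push_cast
      ring
    rw [h1, ← h3]
    exact pow_le_pow_left₀ (by positivity) h2 _
  have htb : 4 ≤ t * b := by nlinarith
  refine ⟨hW1, hW4, hWbig, hW16, ?_, ?_, ?_⟩
  · calc (t ^ ((b : ℝ) / 4)) ^ 3 ≤ (t ^ ((b : ℝ) / 4)) ^ 16 := pow_le_pow_right₀ hW1 (by norm_num)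
      _ ≤ 2 ^ (δ * (t * b)) := hW16
      _ ≤ 2 ^ (t * b) := Real.rpow_le_rpow_of_exponent_le (by norm_num) (by nlinarith)
  · calc (4 : ℝ) = 2 ^ (2 : ℝ) := by norm_num
      _ ≤ 2 ^ (t * b) := Real.rpow_le_rpow_of_exponent_le (by norm_num) (by linarith)
  · have h1 : Real.logb 2 t / (4 * t) * (t * b) = Real.logb 2 t * ((b : ℝ) / 4) := by
      field_simp
    rw [h1, Real.rpow_mul (by norm_num), Real.rpow_logb two_pos (by norm_num) ht0]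

set_option maxHeartbeats 400000 in
/-- plucking in the form used -/
theorem di_pluck {h : ℕ} (hh : 2 ≤ h) (o : Fin (2 * h)) : ∃ (p : ℕ) (_ : Fact p.Prime) (n0 : ℕ),
    ∀ b : ℕ, n0 ≤ b → ∀ W : ℝ,
      (2 : ℝ) ^ (Real.logb 2 (2 * h : ℝ) / (4 * (2 * h)) * ((2 * h : ℝ) * b)) = W →
      PluckH b (2 * h) p o W ((p : ℝ) ^ (b * (2 * h)) * 2 ^ (-(3 * ((2 * h : ℝ) * b)))) := by
  have hh2' : (2 : ℝ) ≤ h := by exact_mod_cast hh
  have hξ0 : 0 < Real.logb 2 (2 * h : ℝ) / (4 * (2 * h)) := by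
    have : 0 < Real.logb 2 (2 * h : ℝ) := Real.logb_pos one_lt_two (by linarith)
    positivity
  obtain ⟨p0, hp0⟩ := pluck (Fin (2 * h)) o hξ0 (C := 3) (by norm_num)
  obtain ⟨p, hp0p, hpp⟩ := Nat.exists_infinite_primes p0
  haveI hpf : Fact p.Prime := ⟨hpp⟩
  obtain ⟨n0, hn0⟩ := hp0 p hp0p
  refine ⟨p, hpf, n0, fun b hb W hW G => ?_⟩
  have hcard : Fintype.card (Fin b × Fin (2 * h)) = b * (2 * h) := by
    rw [Fintype.card_prod, Fintype.card_fin, Fintype.card_fin]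
  have hcardR : (Fintype.card (Fin b × Fin (2 * h)) : ℝ) = (2 * h : ℝ) * b := by
    rw [hcard]
    push_cast
    ring
  have h1 := hn0 (Fin b × Fin (2 * h)) (by
    rw [hcard]
    calc n0 ≤ b := hb
      _ = b * 1 := (mul_one b).symm
      _ ≤ b * (2 * h) := Nat.mul_le_mul_left _ (by omega)) G
  rw [hcardR, hW, hcard] at h1
  obtain ⟨G', a1, a2, a3, a4⟩ := h1
  exact ⟨G', a1, a2, a3, le_trans (Nat.cast_le.2 (le_of_eq (card_filter_inst _ _ _ _ _))) a4⟩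

open Classical in
set_option maxHeartbeats 1000000 in
/-- the dichotomy -/
theorem dicho {δ : ℝ} (hδ : 0 < δ) (hδ1 : δ ≤ 1) : ∃ h0 : ℕ, 2 ≤ h0 ∧ ∀ h : ℕ, h0 ≤ h →
    ∃ (p : ℕ) (_ : Fact p.Prime) (b0 : ℕ), 0 < b0 ∧ ∀ b : ℕ, b0 ≤ b → ∀ (s : ℕ)
      (g : Set (Fin b → Fin (2 * h)) → Bool), MComp (VarB (Fin b → Fin (2 * h))) s g →
      (s : ℝ) ≤ 2 ^ ((1 - δ) * (2 * h * b)) →
      ((univ.filter (fun σ : Fin b → Equiv.Perm (Fin (2 * h)) => g (posX σ) = true)).card : ℝ) *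
          (2 * h : ℝ) ^ ((b : ℝ) / 4) ≤ Fintype.card (Fin b → Equiv.Perm (Fin (2 * h))) ∨
      ((univ.filter (fun a : Fin b × Fin (2 * h) → ZMod p =>
          ∑ e, a e ≠ 0 ∧ g (negX a) = false)).card : ℝ) * (2 * h : ℝ) ^ ((b : ℝ) / 4) ≤
        (univ.filter (fun a : Fin b × Fin (2 * h) → ZMod p => ∑ e, a e ≠ 0)).card := by
  obtain ⟨x0, hx0⟩ := di_x0 hδ
  obtain ⟨h0, hh0⟩ := exists_nat_ge x0
  refine ⟨max h0 2, le_max_right _ _, fun h hh => ?_⟩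
  have hh2 : 2 ≤ h := (le_max_right _ _).trans hh
  have hhx : x0 ≤ 2 * (h : ℝ) := by
    have h1 : (h0 : ℝ) ≤ h := by exact_mod_cast (le_max_left _ _).trans hh
    have h2 : (0 : ℝ) ≤ h := Nat.cast_nonneg _
    linarith
  have hT := hx0 _ hhx
  have hh2' : (2 : ℝ) ≤ h := by exact_mod_cast hh2
  have ht4 : (4 : ℝ) ≤ 2 * h := by linarith
  obtain ⟨p, hpf, n0, hn0⟩ := di_pluck hh2 ⟨0, by omega⟩
  obtain ⟨b1, hb1⟩ := exists_nat_ge (2 * (2 * h : ℝ) ^ (2 * (2 * h)) + 1)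
  refine ⟨p, hpf, max (max n0 (4 * b1)) 1, lt_of_lt_of_le zero_lt_one (le_max_right _ _), ?_⟩
  intro b hb s g hg hs
  have hb0 : 0 < b := lt_of_lt_of_le zero_lt_one ((le_max_right _ _).trans hb)
  have hbn0 : n0 ≤ b := (le_max_left _ _).trans ((le_max_left _ _).trans hb)
  have hbb1 : 4 * b1 ≤ b := (le_max_right _ _).trans ((le_max_left _ _).trans hb)
  obtain ⟨w1, w2, w3, w4, w5, w6, w7⟩ := di_W hδ hδ1 ht4 hT hb0 hb1 hbb1
  have hXe : (2 : ℝ) ^ ((2 * h : ℝ) * b) = 2 ^ ((2 * h * b : ℕ) : ℝ) := by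
    congr 1
    push_cast
    ring
  have hsn : (s : ℝ) * ((2 * h : ℝ) ^ ((b : ℝ) / 4)) ^ 16 ≤ 2 ^ ((2 * h : ℝ) * b) := by
    calc (s : ℝ) * ((2 * h : ℝ) ^ ((b : ℝ) / 4)) ^ 16
        ≤ 2 ^ ((1 - δ) * (2 * h * b)) * 2 ^ (δ * ((2 * h : ℝ) * b)) :=
          mul_le_mul hs w4 (by positivity) (by positivity)
      _ = 2 ^ ((2 * h : ℝ) * b) := by
          rw [← Real.rpow_add (by norm_num)]
          congr 1
          ring
  have hen : (p : ℝ) ^ (b * (2 * h)) * 2 ^ (-(3 * ((2 * h : ℝ) * b))) = (p : ℝ) ^ (b * (2 * h)) *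
      ((2 : ℝ) ^ ((2 * h : ℝ) * b) * 2 ^ ((2 * h : ℝ) * b) * 2 ^ ((2 * h : ℝ) * b))⁻¹ := by
    rw [Real.rpow_neg (by norm_num), ← Real.rpow_add (by norm_num),
      ← Real.rpow_add (by norm_num)]
    congr 3
    ring
  exact di_main hb0 hh2 w1 w2 w3 hsn hXe w5 w6 hen _ (hn0 b hbn0 _ w7) hg

end Pool.Agent.H537R3.SC
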