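import Mathlib

/-!
# The Set Cover Conjecture for circuits with few non-monotone gates: definitions

Ground set `E` (in the end `Fin b × Fin t`), colours `K` with a distinguished colour `o`.
-/

set_option autoImplicit false

namespace Pool.Agent.H537R3.SC

open Finset

/-- The labels `a : E → ZMod p` sum to `0` on every colour class of `T` other than the class of the
distinguished colour `o`. -/
def Perp {E K : Type} [Fintype E] [DecidableEq K] {p : ℕ} (o : K) (a : E → ZMod p) (T : E → K) :
    Prop :=
  ∀ x, x ≠ o → ∑ e ∈ univ.filter (fun e => T e = x), a e = 0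

open Classical in
/-- Few relations: for all coefficient functions `c i` (`i` in an index set of size at least `k`)
that are constant on the fibres of `ρ` but not on the fibres of `ρ'`, and every right hand side
`z`, the fraction of the tuples `f` of elements of `S` with `∑ i, c i ∘ f i = z` is at most `R`. -/
def RelB {E K : Type} [Fintype E] [Fintype K] (p : ℕ) (S : Finset (E → K)) (ρ ρ' : K → K) (k : ℕ)
    (R : ℝ) : Prop :=
  ∀ (ι : Type) [Fintype ι], k ≤ Fintype.card ι → ∀ c : ι → K → ZMod p,
    (∀ i, c i ∘ ρ = c i ∧ c i ∘ ρ' ≠ c i) → ∀ z : E → ZMod p,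
      ((univ.filter (fun f : ι → E → K =>
        (∀ i, f i ∈ S) ∧ ∀ e, ∑ i, c i (f i e) = z e)).card : ℝ) ≤
        R * (S.card : ℝ) ^ Fintype.card ι

/-- The colouring `T` of the array `Fin b × Fin t` is constant on all the colour classes
`{(x, i) | σ x i = c}` of the partition `σ` of the array into `t` transversals. -/
def Compat {J : Type} {b t : ℕ} (T : Fin b × Fin t → J) (σ : Fin b → Equiv.Perm (Fin t)) : Prop :=
  ∀ x i x' i', σ x i = σ x' i' → T (x, i) = T (x', i')

/-- The transversals (colour classes) of the partition `σ`. -/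
def posX {b t : ℕ} (σ : Fin b → Equiv.Perm (Fin t)) : Set (Fin b → Fin t) :=
  {s | ∃ c, ∀ x, σ x (s x) = c}

/-- The transversals on which the labels sum to `0`. -/
def negX {b t p : ℕ} (a : Fin b × Fin t → ZMod p) : Set (Fin b → Fin t) :=
  {s | ∑ x, a (x, s x) = 0}

/-- `X` contains `t` transversals that partition the array. -/
def HasPart {b t : ℕ} (X : Set (Fin b → Fin t)) : Prop :=
  ∃ s : Fin t → Fin b → Fin t, (∀ c, s c ∈ X) ∧ ∀ x, Function.Injective (fun c => s c x)

/-- Variables and constants. -/
def VarB (α : Type) : Set (Set α → Bool) :=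
  open Classical in {h | (∃ s, h = fun X => decide (s ∈ X)) ∨ ∃ v : Bool, h = fun _ => v}

/-- The Set Cover instance given by the bits `x` (the universe is `Fin n`, and `x A = true` means
that the set `A`, of at most `w` elements, belongs to the family) has a cover with at most `k`
sets. -/
def SC {n w : ℕ} (k : ℕ) (x : {A : Finset (Fin n) // A.card ≤ w} → Bool) : Prop :=
  ∃ F : Finset {A : Finset (Fin n) // A.card ≤ w}, F.card ≤ k ∧ (∀ A ∈ F, x A = true) ∧
    ∀ u : Fin n, ∃ A ∈ F, u ∈ A.1

end Pool.Agent.H537R3.SC
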