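import Pool.Agent.H537R3.SC.Defs
import Pool.Agent.H560R2.Neg4

set_option autoImplicit false

/-! # `2 ^ L` partition problems in one Set Cover instance -/

namespace Pool.Agent.H537R3.SC

open Finset Pool.Agent.H560R2 Pool.Agent.H520R2.NM

section enc

/-- codes of the numbers below `2 ^ L`: one element of each of the pairs `{2i, 2i+1}` -/
def enc_code (L : ℕ) (q : ℕ) : Finset (Fin (3 * L)) :=
  (univ : Finset (Fin L)).image fun i =>
    ⟨2 * i.1 + (if q.testBit i.1 then 1 else 0), by split_ifs <;> omega⟩

lemma enc_code_card (L q : ℕ) : (enc_code L q).card = L := by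
  unfold enc_code
  rw [card_image_of_injective, card_univ, Fintype.card_fin]
  intro i j h
  simp only [Fin.mk.injEq] at h
  apply Fin.ext
  split_ifs at h <;> omega

lemma enc_code_inj (L : ℕ) {q q' : ℕ} (hq : q < 2 ^ L) (hq' : q' < 2 ^ L)
    (h : enc_code L q ⊆ enc_code L q') : q = q' := by
  apply Nat.eq_of_testBit_eq
  intro i
  by_cases hi : i < L
  · have h1 : (⟨2 * i + (if q.testBit i then 1 else 0), by split_ifs <;> omega⟩ : Fin (3 * L)) ∈
        enc_code L q := by
      unfold enc_code
      rw [mem_image]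
      exact ⟨⟨i, hi⟩, mem_univ _, rfl⟩
    have h2 := h h1
    unfold enc_code at h2
    rw [mem_image] at h2
    obtain ⟨j, -, hj⟩ := h2
    simp only [Fin.mk.injEq] at hj
    have hij : j.1 = i := by split_ifs at hj <;> omega
    rw [hij] at hj
    by_cases h3 : q.testBit i = true <;> by_cases h4 : q'.testBit i = true <;>
      simp_all
  · have e1 : q < 2 ^ i := lt_of_lt_of_le hq (Nat.pow_le_pow_right (by norm_num) (by omega))
    have e2 : q' < 2 ^ i := lt_of_lt_of_le hq' (Nat.pow_le_pow_right (by norm_num) (by omega))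
    rw [Nat.testBit_lt_two_pow e1, Nat.testBit_lt_two_pow e2]

/-- the universe -/
abbrev EncV (b t L r : ℕ) := (Fin b × Fin t) ⊕ ((Fin t × Fin (3 * L)) ⊕ Fin r)

/-- the sets of the instance -/
def enc_set {b t L r : ℕ} (q : ℕ) (c : Fin (t + 2)) (s : Fin b → Fin (t + 2)) :
    Finset (EncV b (t + 2) L r) :=
  (univ.image fun x => Sum.inl (x, s x)) ∪
    ((univ.image fun j => Sum.inr (Sum.inl (if j ∈ enc_code L q then c else c + 1, j))) ∪
      (if c = 0 then univ.image fun z => Sum.inr (Sum.inr z) else ∅))

variable {b t L r : ℕ}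

lemma enc_set_card (q : ℕ) (c : Fin (t + 2)) (s : Fin b → Fin (t + 2)) :
    (enc_set (L := L) (r := r) q c s).card ≤ b + 3 * L + r := by
  unfold enc_set
  have h1 : (univ.image fun x => (Sum.inl (x, s x) : EncV b (t + 2) L r)).card ≤ b := by
    refine card_image_le.trans ?_
    simp
  have h2 : (univ.image fun j => (Sum.inr (Sum.inl (if j ∈ enc_code L q then c else c + 1, j)) :
      EncV b (t + 2) L r)).card ≤ 3 * L := by
    refine card_image_le.trans ?_
    simp
  have h3 : (if c = 0 then univ.image fun z => (Sum.inr (Sum.inr z) : EncV b (t + 2) L r)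
      else ∅).card ≤ r := by
    split_ifs
    · refine card_image_le.trans ?_
      simp
    · simp
  refine (card_union_le _ _).trans ?_
  have h4 := card_union_le (univ.image fun j => (Sum.inr (Sum.inl
    (if j ∈ enc_code L q then c else c + 1, j)) : EncV b (t + 2) L r))
    (if c = 0 then univ.image fun z => (Sum.inr (Sum.inr z) : EncV b (t + 2) L r) else ∅)
  omega

lemma enc_mem1 (q : ℕ) (c : Fin (t + 2)) (s : Fin b → Fin (t + 2)) (x : Fin b) (y : Fin (t + 2)) :
    (Sum.inl (x, y) : EncV b (t + 2) L r) ∈ enc_set q c s ↔ s x = y := by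
  unfold enc_set
  simp only [mem_union, mem_image, mem_univ, true_and]
  constructor
  · rintro (⟨x', h⟩ | ⟨j, h⟩ | h)
    · simp only [Sum.inl.injEq, Prod.mk.injEq] at h
      rw [← h.1]
      exact h.2
    · simp at h
    · split_ifs at h
      · simp at h
      · simp at h
  · intro h
    left
    exact ⟨x, by rw [h]⟩

lemma enc_mem2 (q : ℕ) (c : Fin (t + 2)) (s : Fin b → Fin (t + 2)) (c' : Fin (t + 2))
    (j : Fin (3 * L)) :
    (Sum.inr (Sum.inl (c', j)) : EncV b (t + 2) L r) ∈ enc_set q c s ↔
      (if j ∈ enc_code L q then c else c + 1) = c' := by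
  unfold enc_set
  simp only [mem_union, mem_image, mem_univ, true_and]
  constructor
  · rintro (⟨x', h⟩ | ⟨j', h⟩ | h)
    · simp at h
    · simp only [Sum.inr.injEq, Sum.inl.injEq, Prod.mk.injEq] at h
      obtain ⟨h1, h2⟩ := h
      rw [← h2]
      exact h1
    · split_ifs at h
      · simp at h
      · simp at h
  · intro h
    right
    left
    exact ⟨j, by rw [h]⟩

lemma enc_mem3 (q : ℕ) (c : Fin (t + 2)) (s : Fin b → Fin (t + 2)) (z : Fin r) :
    (Sum.inr (Sum.inr z) : EncV b (t + 2) L r) ∈ enc_set q c s ↔ c = 0 := by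
  unfold enc_set
  simp only [mem_union, mem_image, mem_univ, true_and]
  constructor
  · rintro (⟨x', h⟩ | ⟨j', h⟩ | h)
    · simp at h
    · simp at h
    · split_ifs at h with hc
      · exact hc
      · simp at h
  · intro h
    right
    right
    rw [if_pos h]
    simp

lemma enc_set_s {q q' : ℕ} {c c' : Fin (t + 2)} {s s' : Fin b → Fin (t + 2)}
    (h : enc_set (L := L) (r := r) q c s = enc_set q' c' s') : s = s' := by
  funext x
  have h1 : (Sum.inl (x, s' x) : EncV b (t + 2) L r) ∈ enc_set q' c' s' := by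
    rw [enc_mem1]
  rw [← h, enc_mem1] at h1
  exact h1

/-- the combinatorial core: a cover with at most `t` sets comes from one problem -/
lemma enc_core (hb : 1 ≤ b) (hL : 1 ≤ L) {ι : Type} [Fintype ι] [DecidableEq ι]
    (hc : Fintype.card ι ≤ t + 2) (qf : ι → Fin (2 ^ L)) (cf : ι → Fin (t + 2))
    (sf : ι → Fin b → Fin (t + 2))
    (hcov : ∀ v : EncV b (t + 2) L r, ∃ i, v ∈ enc_set (qf i).1 (cf i) (sf i)) :
    ∃ q : Fin (2 ^ L), ∃ A : Fin (t + 2) → ι, (∀ c, qf (A c) = q) ∧
      ∀ x, Function.Injective fun c => sf (A c) x := by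
  have hsurj : ∀ x, Function.Surjective fun i => sf i x := by
    intro x y
    obtain ⟨i, hi⟩ := hcov (Sum.inl (x, y))
    rw [enc_mem1] at hi
    exact ⟨i, hi⟩
  have hcard : Fintype.card ι = t + 2 := by
    have h1 := Fintype.card_le_of_surjective _ (hsurj ⟨0, hb⟩)
    rw [Fintype.card_fin] at h1
    omega
  have hbij : ∀ x, Function.Bijective fun i => sf i x := by
    intro x
    rw [Fintype.bijective_iff_surjective_and_card]
    exact ⟨hsurj x, by rw [hcard, Fintype.card_fin]⟩
  -- multiplicities
  let m : Fin (t + 2) → ℕ := fun c => (univ.filter fun i => cf i = c).card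
  have hsum : ∑ c, m c = t + 2 := by
    have := Finset.card_eq_sum_card_fiberwise (s := (univ : Finset ι)) (t := (univ : Finset (Fin (t + 2))))
      (f := cf) (fun _ _ => mem_coe.2 (mem_univ _))
    rw [card_univ, hcard] at this
    exact this.symm
  have hblock : ∀ c, 3 ≤ m (c + 1) + 2 * m c := by
    intro c
    have h1 : (univ : Finset (Fin (3 * L))) ⊆
        ((univ.filter fun i => cf i = c + 1).biUnion fun i => enc_code L (qf i)) ∪
        ((univ.filter fun i => cf i = c).biUnion fun i => (enc_code L (qf i))ᶜ) := by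
      intro j _
      obtain ⟨i, hi⟩ := hcov (Sum.inr (Sum.inl (c + 1, j)))
      rw [enc_mem2] at hi
      rw [mem_union, mem_biUnion, mem_biUnion]
      split_ifs at hi with hj
      · left
        exact ⟨i, by simp [hi], hj⟩
      · right
        refine ⟨i, ?_, by simp [hj]⟩
        simp only [mem_filter, mem_univ, true_and]
        exact add_right_cancel hi
    have h2 := card_le_card h1
    rw [card_univ, Fintype.card_fin] at h2
    have h3 := h2.trans (card_union_le _ _)
    have h4 : ((univ.filter fun i => cf i = c + 1).biUnion fun i => enc_code L (qf i)).card ≤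
        m (c + 1) * L := by
      refine card_biUnion_le_card_mul _ _ _ fun i _ => ?_
      rw [enc_code_card]
    have h5 : ((univ.filter fun i => cf i = c).biUnion fun i => (enc_code L (qf i))ᶜ).card ≤
        m c * (2 * L) := by
      refine card_biUnion_le_card_mul _ _ _ fun i _ => ?_
      rw [card_compl, enc_code_card, Fintype.card_fin]
      omega
    have h6 : L * 3 ≤ L * (m (c + 1) + 2 * m c) := by nlinarith
    exact Nat.le_of_mul_le_mul_left h6 (by omega)
  have hsum' : ∑ c, m (c + 1) = t + 2 :=
    (Equiv.sum_comp (Equiv.addRight (1 : Fin (t + 2))) m).trans hsum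
  have heq : ∀ c, m (c + 1) + 2 * m c = 3 := by
    have h1 : ∑ c : Fin (t + 2), (3 : ℕ) = ∑ c, (m (c + 1) + 2 * m c) := by
      rw [sum_add_distrib, ← mul_sum, hsum, hsum', sum_const, card_univ, Fintype.card_fin]
      simp only [smul_eq_mul]
      ring
    have h2 := (Finset.sum_eq_sum_iff_of_le (fun c _ => hblock c)).1 h1
    intro c
    exact (h2 c (mem_univ c)).symm
  have hone : ∀ c, m c = 1 := by
    intro c
    have h1 := heq c
    have h2 := heq (c + 1)
    omega
  have hA : ∀ c, ∃ i, cf i = c ∧ ∀ i', cf i' = c → i' = i := by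
    intro c
    obtain ⟨i, hi⟩ := card_eq_one.1 (hone c)
    refine ⟨i, ?_, ?_⟩
    · have : i ∈ univ.filter fun i => cf i = c := by rw [hi]; simp
      simpa using this
    · intro i' hi'
      have : i' ∈ univ.filter fun i => cf i = c := by simpa using hi'
      rw [hi] at this
      simpa using this
  choose A hA1 hA2 using hA
  have hAinj : Function.Injective A := by
    intro c c' h
    rw [← hA1 c, ← hA1 c', h]
  have hstep : ∀ c, qf (A c) = qf (A (c + 1)) := by
    intro c
    apply Fin.ext
    apply enc_code_inj L (qf (A c)).2 (qf (A (c + 1))).2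
    intro j hj
    obtain ⟨i, hi⟩ := hcov (Sum.inr (Sum.inl (c + 1, j)))
    rw [enc_mem2] at hi
    split_ifs at hi with hj'
    · rw [hA2 _ i hi] at hj'
      exact hj'
    · have h1 : cf i = c := add_right_cancel hi
      rw [hA2 _ i h1] at hj'
      exact absurd hj hj'
  refine ⟨qf (A 0), A, ?_, ?_⟩
  · intro c
    induction c using Fin.induction with
    | zero => rfl
    | succ i ih =>
      have h1 := hstep i.castSucc
      rw [Fin.coeSucc_eq_succ] at h1
      rw [← h1]
      exact ih
  · intro x
    exact (hbij x).1.comp hAinj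

end enc

/-- ENC: `2 ^ L` problems are put into one Set Cover instance. -/
theorem encode {b t L r n w : ℕ} (hb : 1 ≤ b) (ht : 2 ≤ t) (hL : 1 ≤ L)
    (hn : n = t * (b + 3 * L) + r) (hw : b + 3 * L + r ≤ w) :
    ∃ E : (Fin (2 ^ L) → Set (Fin b → Fin t)) → {A : Finset (Fin n) // A.card ≤ w} → Bool,
      (∀ y y', (∀ j, y j ⊆ y' j) → E y ≤ E y') ∧
      (∀ y, SC t (E y) ↔ ∃ j, HasPart (y j)) ∧
      ∀ (z : Fin (2 ^ L) → Set (Fin b → Fin t)) (J : Fin (2 ^ L)),
        blockBase E z J ⊆ VarB (Fin b → Fin t) := by
  classical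
  obtain ⟨t, rfl⟩ : ∃ t', t = t' + 2 := ⟨t - 2, by omega⟩
  have hcardV : Fintype.card (EncV b (t + 2) L r) = n := by
    simp only [Fintype.card_sum, Fintype.card_prod, Fintype.card_fin]
    rw [hn]
    ring
  let e : EncV b (t + 2) L r ≃ Fin n := Fintype.equivFinOfCardEq hcardV
  let S : ℕ → Fin (t + 2) → (Fin b → Fin (t + 2)) → {A : Finset (Fin n) // A.card ≤ w} :=
    fun q c s => ⟨(enc_set (L := L) (r := r) q c s).map e.toEmbedding, by
      rw [card_map]
      exact (enc_set_card q c s).trans hw⟩
  have hS : ∀ q c s v, e v ∈ (S q c s).1 ↔ v ∈ enc_set (L := L) (r := r) q c s := by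
    intro q c s v
    show e v ∈ (enc_set q c s).map e.toEmbedding ↔ _
    rw [mem_map_equiv]
    simp
  have hSs : ∀ {q q' c c' s s'}, S q c s = S q' c' s' → s = s' := by
    intro q q' c c' s s' h
    have h1 : (enc_set (L := L) (r := r) q c s).map e.toEmbedding =
        (enc_set (L := L) (r := r) q' c' s').map e.toEmbedding := congrArg Subtype.val h
    exact enc_set_s (map_injective _ h1)
  refine ⟨fun y A => decide (∃ (q : Fin (2 ^ L)) (c : Fin (t + 2)) (s : Fin b → Fin (t + 2)),
    s ∈ y q ∧ A = S q.1 c s), ?_, ?_, ?_⟩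
  · intro y y' h A
    show decide _ ≤ decide _
    by_cases h1 : ∃ (q : Fin (2 ^ L)) (c : Fin (t + 2)) (s : Fin b → Fin (t + 2)),
      s ∈ y q ∧ A = S q.1 c s
    · have h2 : ∃ (q : Fin (2 ^ L)) (c : Fin (t + 2)) (s : Fin b → Fin (t + 2)),
          s ∈ y' q ∧ A = S q.1 c s := by
        obtain ⟨q, c, s, hs, hA⟩ := h1
        exact ⟨q, c, s, h q hs, hA⟩
      rw [decide_eq_true h2]
      exact Bool.le_true _
    · rw [decide_eq_false h1]
      exact Bool.false_le _
  · intro y
    constructor
    · rintro ⟨F, hF1, hF2, hF3⟩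
      have hF2' : ∀ A : F, ∃ (q : Fin (2 ^ L)) (c : Fin (t + 2)) (s : Fin b → Fin (t + 2)),
          s ∈ y q ∧ A.1 = S q.1 c s := by
        intro A
        have := hF2 A.1 A.2
        exact of_decide_eq_true this
      choose qf cf sf hs hA using hF2'
      obtain ⟨q, A, hq, hinj⟩ := enc_core (r := r) hb hL (ι := F)
        (by rw [Fintype.card_coe]; exact hF1) qf cf sf (by
          intro v
          obtain ⟨B, hB, hvB⟩ := hF3 (e v)
          refine ⟨⟨B, hB⟩, ?_⟩
          have h1 := hA ⟨B, hB⟩
          simp only at h1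
          rw [h1, hS] at hvB
          exact hvB)
      refine ⟨q, fun c => sf (A c), ?_, hinj⟩
      intro c
      have h1 := hs (A c)
      rw [hq c] at h1
      exact h1
    · rintro ⟨q, s, hs, hinj⟩
      refine ⟨univ.image fun c => S q.1 c (s c), ?_, ?_, ?_⟩
      · refine card_image_le.trans ?_
        simp
      · intro A hA
        rw [mem_image] at hA
        obtain ⟨c, -, rfl⟩ := hA
        exact decide_eq_true ⟨q, c, s c, hs c, rfl⟩
      · intro u
        obtain ⟨v, rfl⟩ := e.surjective u
        have key : ∃ c, v ∈ enc_set (L := L) (r := r) q.1 c (s c) := by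
          rcases v with ⟨x, y⟩ | ⟨c', j⟩ | z
          · have hsur := Finite.surjective_of_injective (hinj x)
            obtain ⟨c, hc⟩ := hsur y
            exact ⟨c, by rw [enc_mem1]; exact hc⟩
          · by_cases hj : j ∈ enc_code L q.1
            · exact ⟨c', by rw [enc_mem2, if_pos hj]⟩
            · exact ⟨c' - 1, by rw [enc_mem2, if_neg hj]; exact sub_add_cancel _ _⟩
          · exact ⟨0, by rw [enc_mem3]⟩
        obtain ⟨c, hc⟩ := key
        exact ⟨S q.1 c (s c), mem_image_of_mem _ (mem_univ c), by rw [hS]; exact hc⟩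
  · intro z J h hh
    obtain ⟨f, hf, rfl⟩ := hh
    rcases hf with ⟨v, rfl⟩ | ⟨A, rfl⟩
    · exact Or.inr ⟨v, rfl⟩
    · by_cases h1 : ∃ (q : Fin (2 ^ L)) (c : Fin (t + 2)) (s : Fin b → Fin (t + 2)),
          q ≠ J ∧ s ∈ z q ∧ A = S q.1 c s
      · right
        refine ⟨true, ?_⟩
        funext X
        obtain ⟨q, c, s, hqJ, hsz, hAS⟩ := h1
        refine decide_eq_true ⟨q, c, s, ?_, hAS⟩
        rw [Function.update_of_ne hqJ]
        exact hsz
      · by_cases h2 : ∃ (c : Fin (t + 2)) (s : Fin b → Fin (t + 2)), A = S J.1 c s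
        · obtain ⟨c, s, hAS⟩ := h2
          left
          refine ⟨s, ?_⟩
          funext X
          have : (∃ (q : Fin (2 ^ L)) (c : Fin (t + 2)) (s : Fin b → Fin (t + 2)),
              s ∈ Function.update z J X q ∧ A = S q.1 c s) ↔ s ∈ X := by
            constructor
            · rintro ⟨q, c', s', hs', hA'⟩
              by_cases hq : q = J
              · subst hq
                rw [Function.update_self] at hs'
                have : s' = s := hSs (hA'.symm.trans hAS)
                rw [← this]
                exact hs'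
              · rw [Function.update_of_ne hq] at hs'
                exact absurd ⟨q, c', s', hq, hs', hA'⟩ h1
            · intro hs
              exact ⟨J, c, s, by rw [Function.update_self]; exact hs, hAS⟩
          exact decide_eq_decide.2 this
        · right
          refine ⟨false, ?_⟩
          funext X
          refine decide_eq_false ?_
          rintro ⟨q, c', s', hs', hA'⟩
          by_cases hq : q = J
          · subst hq
            exact h2 ⟨c', s', hA'⟩
          · rw [Function.update_of_ne hq] at hs'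
            exact h1 ⟨q, c', s', hq, hs', hA'⟩

end Pool.Agent.H537R3.SC
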