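import Pool.Agent.H537R3.SC.DIC2
import Pool.Agent.H537R3.SC.ENC
import Pool.Agent.H560R2.Av4

/-!
# FIN: the hard distribution for Set Cover
-/

set_option autoImplicit false

namespace Pool.Agent.H537R3.SC

open Finset Filter Pool.Agent.H520R2 Pool.Agent.H520R2.NM Pool.Agent.H560R2

theorem fi_pos {b t : ℕ} (σ : Fin b → Equiv.Perm (Fin t)) : HasPart (posX σ) :=
  ⟨fun c x => (σ x).symm c, fun c => ⟨c, fun x => by simp⟩,
    fun x _ _ h => (σ x).symm.injective h⟩

theorem fi_neg {b t p : ℕ} (a : Fin b × Fin t → ZMod p) (ha : ∑ e, a e ≠ 0) :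
    ¬ HasPart (negX a) := by
  rintro ⟨s, hs, hinj⟩
  apply ha
  rw [Fintype.sum_prod_type]
  have h1 : ∀ x, ∑ i, a (x, i) = ∑ c, a (x, s c x) := by
    intro x
    have hb : Function.Bijective (fun c => s c x) := Finite.injective_iff_bijective.1 (hinj x)
    exact (Function.Bijective.sum_comp hb (fun i => a (x, i))).symm
  simp only [h1]
  rw [sum_comm]
  exact sum_eq_zero fun c _ => hs c

theorem fi_empty {b t : ℕ} (ht : 0 < t) : ¬ HasPart (∅ : Set (Fin b → Fin t)) := by
  rintro ⟨s, hs, -⟩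
  exact hs ⟨0, ht⟩

open Classical in
/-- the dichotomy bounds the advantage -/
theorem fi_adv {α Pt Ng : Type} [Fintype Pt] [Fintype Ng] (pos : Pt → Set α) (neg : Ng → Set α)
    (c : ℕ) (W : ℝ) (hW : (2 * c : ℝ) ≤ W) (g : Set α → Bool)
    (h : ((univ.filter (fun q => g (pos q) = true)).card : ℝ) * W ≤ Fintype.card Pt ∨
      ((univ.filter (fun ω => g (neg ω) = false)).card : ℝ) * W ≤ Fintype.card Ng) :
    ((univ.filter (fun q => g (pos q) = true)).card : ℚ) * Fintype.card Ng * (2 * c) ≤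
        ((univ.filter (fun ω => g (neg ω) = true)).card : ℚ) * Fintype.card Pt * (2 * c) +
          Fintype.card Ng * Fintype.card Pt := by
  have key : ∀ (u v : ℕ), (u : ℝ) * W ≤ v → u * (2 * c) ≤ v := by
    intro u v huv
    have h1 : (u : ℝ) * (2 * c) ≤ v := (mul_le_mul_of_nonneg_left hW (Nat.cast_nonneg _)).trans huv
    exact_mod_cast h1
  have hN := Finset.card_filter_add_card_filter_not (s := (univ : Finset Ng))
    (fun ω => g (neg ω) = true)
  rw [card_univ] at hN
  have hP : (univ.filter (fun q => g (pos q) = true)).card ≤ Fintype.card Pt := card_le_univ _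
  have goal : (univ.filter (fun q => g (pos q) = true)).card * Fintype.card Ng * (2 * c) ≤
      (univ.filter (fun ω => g (neg ω) = true)).card * Fintype.card Pt * (2 * c) +
          Fintype.card Ng * Fintype.card Pt := by
    rcases h with h | h
    · have h1 := key _ _ h
      calc _ = Fintype.card Ng * ((univ.filter (fun q => g (pos q) = true)).card * (2 * c)) := by
            ring
        _ ≤ Fintype.card Ng * Fintype.card Pt := Nat.mul_le_mul_left _ h1
        _ ≤ _ := Nat.le_add_left _ _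
    · have h1 := key _ _ h
      have h2 : (univ.filter (fun ω => g (neg ω) = false)).card =
          (univ.filter (fun ω => ¬ g (neg ω) = true)).card := by
        congr 1
        ext ω
        simp
      rw [h2] at h1
      calc _ ≤ Fintype.card Pt * Fintype.card Ng * (2 * c) := by gcongr
        _ = (univ.filter (fun ω => g (neg ω) = true)).card * Fintype.card Pt * (2 * c) +
            ((univ.filter (fun ω => ¬ g (neg ω) = true)).card * (2 * c)) * Fintype.card Pt := by
            rw [← hN]; ring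
        _ ≤ _ := by gcongr
  exact_mod_cast goal

open Classical in
/-- the hard distribution, for given parameters -/
theorem fi_dist {b h l r n w p S : ℕ} [Fact p.Prime] (hb : 1 ≤ b) (hh : 2 ≤ h) (hl : 1 ≤ l)
    (hn : n = 2 * h * (b + 3 * (2 * l)) + r) (hw : b + 3 * (2 * l) + r ≤ w) {W : ℝ}
    (hW : (2 * (2 ^ l : ℕ) : ℝ) ≤ W)
    (hd : ∀ g : Set (Fin b → Fin (2 * h)) → Bool, MComp (VarB (Fin b → Fin (2 * h))) S g →
      ((univ.filter (fun σ : Fin b → Equiv.Perm (Fin (2 * h)) => g (posX σ) = true)).card : ℝ) *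
          W ≤ Fintype.card (Fin b → Equiv.Perm (Fin (2 * h))) ∨
      ((univ.filter (fun a : Fin b × Fin (2 * h) → ZMod p =>
          ∑ e, a e ≠ 0 ∧ g (negX a) = false)).card : ℝ) * W ≤
        (univ.filter (fun a : Fin b × Fin (2 * h) → ZMod p => ∑ e, a e ≠ 0)).card) :
    ∃ (Λ : Type) (_ : Fintype Λ) (_ : Nonempty Λ)
      (D : Λ → {A : Finset (Fin n) // A.card ≤ w} → Bool),
      ∀ (N : ℕ) (C : Circuit {A : Finset (Fin n) // A.card ≤ w} N)
        (out : Wire {A : Finset (Fin n) // A.card ≤ w} N), C.size + C.fanins.sum ≤ S →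
        2 ^ l * (C.fanins.map (· + 1)).prod ≤ 2 ^ (2 * l) →
        2 * 2 ^ l * (univ.filter (fun q =>
          (out.eval (D q) (C.vals (D q)) = true ↔ SC (2 * h) (D q)))).card <
          (2 ^ l + 2) * Fintype.card Λ := by
  obtain ⟨E, hE1, hE2, hE3⟩ := encode (b := b) (t := 2 * h) (L := 2 * l) (r := r) (n := n) (w := w)
    hb (by omega) (by omega) hn hw
  haveI : NeZero p := ⟨(Fact.out : p.Prime).ne_zero⟩
  have hp2 : 2 ≤ p := (Fact.out : p.Prime).two_le
  haveI : Nontrivial (ZMod p) := ZMod.nontrivial_iff.2 (by omega)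
  haveI hNg : Nonempty {a : Fin b × Fin (2 * h) → ZMod p // ∑ e, a e ≠ 0} := by
    let e0 : Fin b × Fin (2 * h) := (⟨0, hb⟩, ⟨0, by omega⟩)
    refine ⟨⟨Pi.single e0 1, ?_⟩⟩
    rw [Finset.sum_pi_single']
    simp
  refine hard_dist (ι := {A : Finset (Fin n) // A.card ≤ w}) (α := Fin b → Fin (2 * h))
    (Pt := Fin b → Equiv.Perm (Fin (2 * h)))
    (Ng := {a : Fin b × Fin (2 * h) → ZMod p // ∑ e, a e ≠ 0}) (2 ^ (2 * l)) (by positivity)
    posX (fun a => negX a.1) (2 ^ l) S E hE1 HasPart fi_pos (fun a => fi_neg a.1 a.2)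
    (fi_empty (by omega)) (SC (2 * h)) hE2 ?_
  intro z J g hg
  obtain ⟨Lg, hg1, hg2, hg3⟩ := hg
  have hmono : ∀ {L' : List (Set (Fin b → Fin (2 * h)) → Bool)},
      MProg (blockBase E z J) L' → MProg (VarB (Fin b → Fin (2 * h))) L' := by
    intro L' hL'
    induction hL' with
    | nil => exact MProg.nil
    | and _ hf hg' ih =>
      exact MProg.and ih (hf.imp_left (fun h' => hE3 z J h')) (hg'.imp_left (fun h' => hE3 z J h'))
    | or _ hf hg' ih =>
      exact MProg.or ih (hf.imp_left (fun h' => hE3 z J h')) (hg'.imp_left (fun h' => hE3 z J h'))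
  have hgV : MComp (VarB (Fin b → Fin (2 * h))) S g :=
    ⟨Lg, hmono hg1, hg2, hg3.imp_left (fun h' => hE3 z J h')⟩
  refine fi_adv posX (fun a : {a : Fin b × Fin (2 * h) → ZMod p // ∑ e, a e ≠ 0} => negX a.1)
    (2 ^ l) W hW g ?_
  rcases hd g hgV with h1 | h1
  · left
    exact h1
  · right
    have e1 : (univ.filter (fun ω : {a : Fin b × Fin (2 * h) → ZMod p // ∑ e, a e ≠ 0} =>
        g (negX ω.1) = false)).card = (univ.filter (fun a : Fin b × Fin (2 * h) → ZMod p =>
          ∑ e, a e ≠ 0 ∧ g (negX a) = false)).card := by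
      refine card_bij (fun ω _ => ω.1) ?_ ?_ ?_
      · intro ω hω
        exact mem_filter.2 ⟨mem_univ _, ω.2, (mem_filter.1 hω).2⟩
      · intro ω _ ω' _ h'
        exact Subtype.ext h'
      · intro a ha
        obtain ⟨-, ha1, ha2⟩ := mem_filter.1 ha
        exact ⟨⟨a, ha1⟩, mem_filter.2 ⟨mem_univ _, ha2⟩, rfl⟩
    have e2 : Fintype.card {a : Fin b × Fin (2 * h) → ZMod p // ∑ e, a e ≠ 0} =
        (univ.filter (fun a : Fin b × Fin (2 * h) → ZMod p => ∑ e, a e ≠ 0)).card :=
      Fintype.card_subtype _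
    rw [e1, e2]
    exact h1

end Pool.Agent.H537R3.SC
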