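import Pool.Agent.H537R3.SC.FIN

/-!
# FIN2: the parameters
-/

set_option autoImplicit false

namespace Pool.Agent.H537R3.SC

open Finset Filter Pool.Agent.H520R2 Pool.Agent.H520R2.NM Pool.Agent.H560R2

/-- the number of small sets -/
theorem fi_count (n w : ℕ) {x : ℝ} (hx0 : 0 < x) (hx1 : x ≤ 1) :
    (Fintype.card {A : Finset (Fin n) // A.card ≤ w} : ℝ) * x ^ w ≤ (1 + x) ^ n := by
  classical
  rw [Fintype.card_subtype]
  have h1 : (1 + x) ^ n = ∑ A : Finset (Fin n), x ^ A.card := by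
    have := Fintype.sum_pow_mul_eq_add_pow (Fin n) x 1
    simp only [one_pow, mul_one, Fintype.card_fin] at this
    rw [add_comm 1 x, ← this]
  rw [h1]
  calc ((univ.filter (fun A : Finset (Fin n) => A.card ≤ w)).card : ℝ) * x ^ w
      = ∑ A ∈ univ.filter (fun A : Finset (Fin n) => A.card ≤ w), x ^ w := by
        rw [sum_const, nsmul_eq_mul]
    _ ≤ ∑ A ∈ univ.filter (fun A : Finset (Fin n) => A.card ≤ w), x ^ A.card := by
        refine sum_le_sum fun A hA => ?_
        exact pow_le_pow_of_le_one hx0.le hx1 (mem_filter.1 hA).2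
    _ ≤ ∑ A : Finset (Fin n), x ^ A.card :=
        sum_le_sum_of_subset_of_nonneg (filter_subset _ _) (fun _ _ _ => by positivity)

/-- the number of small sets, to the power `A` -/
theorem fi_countA {ε : ℝ} (hε : 0 < ε) (A : ℕ) : ∃ h1 : ℕ, ∀ h : ℕ, h1 ≤ h → 0 < h → ∀ n w : ℕ,
    (w : ℝ) ≤ n / h →
    (Fintype.card {B : Finset (Fin n) // B.card ≤ w} : ℝ) ^ A ≤ 2 ^ (ε * n) := by
  obtain ⟨j, hj⟩ : ∃ j : ℕ, (1 / 2 : ℝ) ^ j * (4 * A + 1) < ε := by
    have h1 : 0 < ε / (4 * A + 1) := by positivity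
    obtain ⟨j, hj⟩ := exists_pow_lt_of_lt_one h1 (by norm_num : (1 / 2 : ℝ) < 1)
    refine ⟨j, ?_⟩
    rwa [lt_div_iff₀ (by positivity)] at hj
  obtain ⟨h1, hh1⟩ := exists_nat_ge (2 * (j * A) / ε)
  refine ⟨h1, fun h hh hh0 n w hw => ?_⟩
  have hhR : (0 : ℝ) < h := by exact_mod_cast hh0
  set x : ℝ := (1 / 2) ^ j with hx
  have hx0 : 0 < x := by positivity
  have hx1 : x ≤ 1 := pow_le_one₀ (by norm_num) (by norm_num)
  have h2 := fi_count n w hx0 hx1
  have h3 : (1 + x) ^ n ≤ 2 ^ (2 * x * n) := by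
    have h4 : 1 + x ≤ 2 ^ (2 * x) := by
      have h5 : Real.exp x ≤ 2 ^ (2 * x) := by
        rw [Real.rpow_def_of_pos two_pos]
        apply Real.exp_le_exp.2
        have : (1 : ℝ) / 2 ≤ Real.log 2 := by
          have := Real.log_two_gt_d9
          linarith
        nlinarith
      have := Real.add_one_le_exp x
      linarith
    calc (1 + x) ^ n ≤ ((2 : ℝ) ^ (2 * x)) ^ n := pow_le_pow_left₀ (by linarith) h4 _
      _ = 2 ^ (2 * x * n) := by
          rw [← Real.rpow_natCast, ← Real.rpow_mul (by norm_num)]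
  have h6 : x ^ w = 2 ^ (-(j * w : ℝ)) := by
    rw [hx, ← pow_mul, one_div, inv_pow, Real.rpow_neg (by norm_num)]
    congr 1
    rw [← Real.rpow_natCast]
    push_cast
    rfl
  have h7 : (Fintype.card {B : Finset (Fin n) // B.card ≤ w} : ℝ) ≤ 2 ^ (2 * x * n + j * w) := by
    rw [Real.rpow_add (by norm_num)]
    have h8 : (2 : ℝ) ^ (-(j * w : ℝ)) * 2 ^ (j * w : ℝ) = 1 := by
      rw [← Real.rpow_add (by norm_num)]
      simp
    calc (Fintype.card {B : Finset (Fin n) // B.card ≤ w} : ℝ)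
        = (Fintype.card {B : Finset (Fin n) // B.card ≤ w} : ℝ) * x ^ w * 2 ^ (j * w : ℝ) := by
          rw [h6, mul_assoc, h8, mul_one]
      _ ≤ _ := mul_le_mul_of_nonneg_right (h2.trans h3) (by positivity)
  calc (Fintype.card {B : Finset (Fin n) // B.card ≤ w} : ℝ) ^ A
      ≤ ((2 : ℝ) ^ (2 * x * n + j * w)) ^ A := pow_le_pow_left₀ (Nat.cast_nonneg _) h7 _
    _ = 2 ^ ((2 * x * n + j * w) * A) := by
        rw [← Real.rpow_natCast, ← Real.rpow_mul (by norm_num)]
    _ ≤ 2 ^ (ε * n) := by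
        refine Real.rpow_le_rpow_of_exponent_le (by norm_num) ?_
        have hn0 : (0 : ℝ) ≤ n := Nat.cast_nonneg _
        have e1 : 2 * x * A ≤ ε / 2 := by nlinarith
        have e2 : (j * w : ℝ) * A ≤ ε / 2 * n := by
          have e3 : (2 * (j * A) / ε : ℝ) ≤ h := hh1.trans (by exact_mod_cast hh)
          rw [div_le_iff₀ hε] at e3
          have e4 : (j * w : ℝ) * A ≤ j * (n / h) * A := by gcongr
          have e5 : (j : ℝ) * (n / h) * A = (j * A) * n / h := by ring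
          rw [e5] at e4
          refine e4.trans ?_
          rw [div_le_iff₀ hhR]
          nlinarith
        calc (2 * x * n + j * w) * A = 2 * x * A * n + (j * w : ℝ) * A := by ring
          _ ≤ ε / 2 * n + ε / 2 * n := add_le_add (mul_le_mul_of_nonneg_right e1 hn0) e2
          _ = ε * n := by ring

/-- arithmetic of the parameters -/
theorem fi_arith {ε t n l b q : ℝ} (hε0 : 0 < ε) (hε1 : ε ≤ 1) (ht : 4 ≤ t)
    (hn : 300 * t ^ 2 / ε ≤ n) (hl : l ≤ ε / (64 * t) * n + 1) (hl0 : 0 ≤ l)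
    (hq : n / t - 1 ≤ q) (hb : b = q - 6 * l) :
    2 * (l + 1) ≤ b ∧ (1 - ε / 2) * n ≤ (1 - ε / 4) * (t * b) ∧ 0 < b ∧ n / (2 * t) ≤ b := by
  have ht0 : 0 < t := by linarith
  rw [div_le_iff₀ hε0] at hn
  have hn0 : 0 < n := by
    by_contra hcon
    push Not at hcon
    nlinarith
  set y : ℝ := n / t with hy
  have hny : n = t * y := by rw [hy]; field_simp
  have hl2 : l ≤ ε / 64 * y + 1 := by
    calc l ≤ ε / (64 * t) * n + 1 := hl
      _ = ε / 64 * y + 1 := by rw [hy]; field_simp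
  have hy0 : 0 < y := by rw [hy]; positivity
  have hy1 : 300 ≤ y * ε := by
    rw [hny] at hn
    have : 300 * t ≤ y * ε := by
      by_contra hcon
      push Not at hcon
      nlinarith
    nlinarith
  have hy2 : 300 ≤ y := by nlinarith
  have hb2 : (1 - ε * (6 / 64)) * y - 7 ≤ b := by
    rw [hb]
    nlinarith
  have h1 : ε / 64 * y ≤ y / 64 := by nlinarith
  refine ⟨by nlinarith, ?_, by nlinarith, ?_⟩
  · have h2 : (1 - ε / 2) * y ≤ (1 - ε / 4) * ((1 - ε * (6 / 64)) * y - 7) := by nlinarith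
    have h3 : (1 - ε / 4) * ((1 - ε * (6 / 64)) * y - 7) ≤ (1 - ε / 4) * b :=
      mul_le_mul_of_nonneg_left hb2 (by linarith)
    calc (1 - ε / 2) * n = t * ((1 - ε / 2) * y) := by rw [hny]; ring
      _ ≤ t * ((1 - ε / 4) * b) := mul_le_mul_of_nonneg_left (h2.trans h3) ht0.le
      _ = _ := by ring
  · have : n / (2 * t) = y / 2 := by rw [hy]; field_simp
    rw [this]
    nlinarith

end Pool.Agent.H537R3.SC
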