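import Pool.Agent.H537R3.SC.FIN2

/-!
# FIN3: the main theorem
-/

set_option autoImplicit false

namespace Pool.Agent.H537R3.SC

open Finset Filter Pool.Agent.H520R2 Pool.Agent.H520R2.NM Pool.Agent.H560R2

open Classical in
/-- The hard distribution, `ε ≤ 1`. -/
theorem fi_main0 {ε : ℝ} (hε : 0 < ε) (hε1 : ε ≤ 1) (A : ℕ) :
    ∃ (k : ℕ) (δ γ : ℝ), 0 < δ ∧ δ ≤ ε ∧ 0 < γ ∧ ∀ᶠ n : ℕ in atTop,
      ∃ (Λ : Type) (_ : Fintype Λ) (_ : Nonempty Λ)
        (D : Λ → {B : Finset (Fin n) // B.card ≤ ⌊δ * n⌋₊} → Bool),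
        ∀ (N : ℕ) (C : Circuit {B : Finset (Fin n) // B.card ≤ ⌊δ * n⌋₊} N)
          (out : Wire {B : Finset (Fin n) // B.card ≤ ⌊δ * n⌋₊} N),
          (((C.fanins.map (· + 1)).prod : ℕ) : ℝ) ≤ 2 ^ (γ * n) →
          ((C.size + C.fanins.sum : ℕ) : ℝ) ≤ 2 ^ ((1 - ε) * n) *
            (Fintype.card {B : Finset (Fin n) // B.card ≤ ⌊δ * n⌋₊} : ℝ) ^ A →
          ((univ.filter (fun q =>
            (out.eval (D q) (C.vals (D q)) = true ↔ SC k (D q)))).card : ℝ) <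
            (1 / 2 + 2 ^ (-(γ * n))) * Fintype.card Λ := by
  obtain ⟨h0, hh0, hdich⟩ := dicho (δ := ε / 4) (by positivity) (by linarith)
  obtain ⟨h1, hh1⟩ := fi_countA (ε := ε / 2) (by positivity) A
  obtain ⟨h2, hh2⟩ := exists_nat_ge (1 / ε)
  obtain ⟨h, hhdef⟩ : ∃ h, h = max (max h0 h1) h2 := ⟨_, rfl⟩
  have hh0' : h0 ≤ h := hhdef ▸ (le_max_left _ _).trans (le_max_left _ _)
  have hh1' : h1 ≤ h := hhdef ▸ (le_max_right _ _).trans (le_max_left _ _)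
  have hh2' : h2 ≤ h := hhdef ▸ le_max_right _ _
  have hh : 2 ≤ h := hh0.trans hh0'
  have hhR : (2 : ℝ) ≤ h := by exact_mod_cast hh
  obtain ⟨p, hp, b0, hb0, hd⟩ := hdich h hh0'
  have hh2R : 1 / ε ≤ (h : ℝ) := hh2.trans (by exact_mod_cast hh2')
  refine ⟨2 * h, 1 / h, ε / (64 * (2 * h)), by positivity, ?_, by positivity, ?_⟩
  · rw [div_le_iff₀ (by positivity)]
    rw [div_le_iff₀ hε] at hh2R
    linarith
  have hev : ∀ᶠ n : ℕ in atTop, 300 * (2 * h : ℝ) ^ 2 / ε + 2 * (2 * h) * b0 + (2 * h) ^ 2 ≤ n := by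
    obtain ⟨n1, hn1⟩ :=
      exists_nat_ge (300 * (2 * h : ℝ) ^ 2 / ε + 2 * (2 * h) * b0 + (2 * h) ^ 2)
    filter_upwards [eventually_ge_atTop n1] with n hn
    exact hn1.trans (by exact_mod_cast hn)
  filter_upwards [hev] with n hn
  have hterm1 : (0 : ℝ) ≤ 300 * (2 * h : ℝ) ^ 2 / ε := by positivity
  have hterm2 : (0 : ℝ) ≤ 2 * (2 * h) * b0 := by positivity
  have hn300 : 300 * (2 * h : ℝ) ^ 2 / ε ≤ n := by nlinarith
  have hnb0 : 2 * (2 * h) * (b0 : ℝ) ≤ n := by nlinarith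
  have hnt : (2 * h : ℝ) ^ 2 ≤ n := by linarith
  have hn0 : (0 : ℝ) < n := lt_of_lt_of_le (by positivity) hnt
  obtain ⟨l, hldef⟩ : ∃ l, l = ⌈ε / (64 * (2 * h)) * n⌉₊ := ⟨_, rfl⟩
  have hlpos : 1 ≤ l := by
    rw [hldef]
    exact Nat.ceil_pos.2 (by positivity)
  have hl1 : ε / (64 * (2 * h)) * n ≤ l := by rw [hldef]; exact Nat.le_ceil _
  have hl2 : (l : ℝ) ≤ ε / (64 * (2 * h)) * n + 1 := by
    rw [hldef]
    exact (Nat.ceil_lt_add_one (by positivity)).le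
  have hq : (n : ℝ) / (2 * h) - 1 ≤ ((n / (2 * h) : ℕ) : ℝ) := by
    have e1 : n < 2 * h * (n / (2 * h) + 1) := Nat.lt_mul_div_succ n (by omega)
    have e2 : (n : ℝ) < 2 * h * (((n / (2 * h) : ℕ) : ℝ) + 1) := by exact_mod_cast e1
    rw [sub_le_iff_le_add, div_le_iff₀ (by positivity)]
    linarith
  obtain ⟨a1, a2, a3, a4⟩ := fi_arith (t := 2 * h) (n := n) (l := l)
    (b := ((n / (2 * h) : ℕ) : ℝ) - 6 * l) hε hε1 (by linarith) hn300 hl2 (Nat.cast_nonneg _) hq rfl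
  have hle : 6 * l ≤ n / (2 * h) := by
    have : (6 * l : ℝ) ≤ ((n / (2 * h) : ℕ) : ℝ) := by linarith
    exact_mod_cast this
  obtain ⟨b, hbdef⟩ : ∃ b, b = n / (2 * h) - 6 * l := ⟨_, rfl⟩
  have hbR : (b : ℝ) = ((n / (2 * h) : ℕ) : ℝ) - 6 * l := by
    rw [hbdef, Nat.cast_sub hle]
    push_cast
    rfl
  rw [← hbR] at a1 a2 a3 a4
  have hbb0 : b0 ≤ b := by
    have : (b0 : ℝ) ≤ b := by
      refine le_trans ?_ a4
      rw [le_div_iff₀ (by positivity)]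
      linarith
    exact_mod_cast this
  have hb1 : 1 ≤ b := by
    have : 0 < b := by exact_mod_cast a3
    omega
  have hnn : n = 2 * h * (b + 3 * (2 * l)) + n % (2 * h) := by
    have e1 : b + 3 * (2 * l) = n / (2 * h) := by omega
    rw [e1]
    exact (Nat.div_add_mod n (2 * h)).symm
  have hwR : (⌊(1 / h : ℝ) * n⌋₊ : ℝ) ≤ n / h := by
    refine (Nat.floor_le (by positivity)).trans (le_of_eq ?_)
    ring
  have hww : b + 3 * (2 * l) + n % (2 * h) ≤ ⌊(1 / h : ℝ) * n⌋₊ := by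
    apply Nat.le_floor
    have e1 : b + 3 * (2 * l) = n / (2 * h) := by omega
    have e2 : n % (2 * h) ≤ 2 * h := (Nat.mod_lt _ (by omega)).le
    have e3 : ((n / (2 * h) : ℕ) : ℝ) ≤ n / (2 * h) := by
      have := Nat.cast_div_le (α := ℝ) (m := n) (n := 2 * h)
      push_cast at this
      exact this
    have e4 : ((n % (2 * h) : ℕ) : ℝ) ≤ 2 * h := by exact_mod_cast e2
    have e5 : (2 * h : ℝ) ≤ n / (2 * h) := by
      rw [le_div_iff₀ (by positivity)]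
      linarith [sq (2 * h : ℝ)]
    have e6 : (n : ℝ) / (2 * h) + n / (2 * h) = 1 / h * n := by
      field_simp
      ring
    rw [e1]
    push_cast
    linarith
  have hcnt := hh1 h hh1' (by omega) n ⌊(1 / h : ℝ) * n⌋₊ hwR
  set NN : ℝ := (Fintype.card {B : Finset (Fin n) // B.card ≤ ⌊(1 / h : ℝ) * n⌋₊} : ℝ) with hNN
  have hNN0 : 0 ≤ NN := Nat.cast_nonneg _
  obtain ⟨S, hSdef⟩ : ∃ S, S = ⌊(2 : ℝ) ^ ((1 - ε) * n) * NN ^ A⌋₊ := ⟨_, rfl⟩
  have hS1 : (S : ℝ) ≤ 2 ^ ((1 - ε / 4) * (2 * h * b)) := by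
    calc (S : ℝ) ≤ (2 : ℝ) ^ ((1 - ε) * n) * NN ^ A := by
          rw [hSdef]
          exact Nat.floor_le (by positivity)
      _ ≤ (2 : ℝ) ^ ((1 - ε) * n) * 2 ^ (ε / 2 * n) :=
          mul_le_mul_of_nonneg_left hcnt (by positivity)
      _ = 2 ^ ((1 - ε / 2) * n) := by
          rw [← Real.rpow_add (by norm_num)]
          congr 1
          ring
      _ ≤ _ := Real.rpow_le_rpow_of_exponent_le (by norm_num) a2
  have hW : (2 * (2 ^ l : ℕ) : ℝ) ≤ (2 * h : ℝ) ^ ((b : ℝ) / 4) := by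
    calc (2 * (2 ^ l : ℕ) : ℝ) = 2 ^ ((l : ℝ) + 1) := by
          rw [Real.rpow_add (by norm_num), Real.rpow_natCast, Real.rpow_one]
          push_cast
          ring
      _ ≤ 2 ^ ((b : ℝ) / 2) := Real.rpow_le_rpow_of_exponent_le (by norm_num) (by linarith)
      _ = 4 ^ ((b : ℝ) / 4) := by
          rw [show (4 : ℝ) = 2 ^ (2 : ℝ) by norm_num, ← Real.rpow_mul (by norm_num)]
          congr 1
          norm_num
          ring
      _ ≤ _ := Real.rpow_le_rpow (by norm_num) (by linarith) (by positivity)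
  obtain ⟨Λ, hΛ1, hΛ2, D, hD⟩ := fi_dist (b := b) (h := h) (l := l) (r := n % (2 * h)) (n := n)
    (w := ⌊(1 / h : ℝ) * n⌋₊) (p := p) (S := S) hb1 hh hlpos hnn hww hW
    (fun g hg => hd b hbb0 S g hg hS1)
  refine ⟨Λ, hΛ1, hΛ2, D, ?_⟩
  intro N C out hP hsz
  have hC1 : C.size + C.fanins.sum ≤ S := by
    rw [hSdef]
    exact Nat.le_floor hsz
  have hC2 : (C.fanins.map (· + 1)).prod ≤ 2 ^ l := by
    have e1 : (((C.fanins.map (· + 1)).prod : ℕ) : ℝ) ≤ 2 ^ (l : ℝ) :=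
      hP.trans (Real.rpow_le_rpow_of_exponent_le (by norm_num) hl1)
    rw [Real.rpow_natCast] at e1
    exact_mod_cast e1
  have hC3 : 2 ^ l * (C.fanins.map (· + 1)).prod ≤ 2 ^ (2 * l) := by
    rw [two_mul, pow_add]
    exact Nat.mul_le_mul_left _ hC2
  have key := hD N C out hC1 hC3
  have key' : 2 * (2 : ℝ) ^ l * ((univ.filter (fun q =>
            (out.eval (D q) (C.vals (D q)) = true ↔ SC (2 * h) (D q)))).card : ℝ) <
        ((2 : ℝ) ^ l + 2) * Fintype.card Λ := by exact_mod_cast key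
  have h2l : (0 : ℝ) < 2 ^ l := by positivity
  have e : (1 / 2 + 1 / (2 : ℝ) ^ l) * Fintype.card Λ =
      (((2 : ℝ) ^ l + 2) * Fintype.card Λ) / (2 * (2 : ℝ) ^ l) := by
    field_simp
  have e2 : 1 / (2 : ℝ) ^ l ≤ 2 ^ (-(ε / (64 * (2 * h)) * n)) := by
    rw [one_div, ← Real.rpow_natCast, ← Real.rpow_neg (by norm_num)]
    exact Real.rpow_le_rpow_of_exponent_le (by norm_num) (by linarith)
  calc _ < (1 / 2 + 1 / (2 : ℝ) ^ l) * Fintype.card Λ := by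
        rw [e, lt_div_iff₀ (by positivity), mul_comm]
        exact key'
    _ ≤ _ := mul_le_mul_of_nonneg_right (by linarith) (Nat.cast_nonneg _)

open Classical in
/-- Averaging over the random choices of a circuit. -/
theorem fi_rand {Λ Ω : Type} [Fintype Λ] [Nonempty Λ] [Fintype Ω] (t : ℝ)
    (ok : Ω → Λ → Prop) (w : Ω → ℝ) (hw : ∀ r, 0 ≤ w r) (hw1 : ∑ r, w r = 1)
    (h : ∀ r, ((univ.filter (fun l => ok r l)).card : ℝ) < t * Fintype.card Λ) :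
    ∃ l, ∑ r ∈ univ.filter (fun r => ok r l), w r < t := by
  by_contra hcon
  push Not at hcon
  have h1 : ∑ _l : Λ, t ≤ ∑ l : Λ, ∑ r ∈ univ.filter (fun r => ok r l), w r :=
    Finset.sum_le_sum (fun l _ => hcon l)
  have h2 : ∑ l : Λ, ∑ r ∈ univ.filter (fun r => ok r l), w r =
      ∑ r : Ω, w r * ((univ.filter (fun l => ok r l)).card : ℝ) := by
    simp only [Finset.sum_filter, Finset.card_filter]
    rw [Finset.sum_comm]
    apply Finset.sum_congr rfl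
    intro r _
    push_cast
    rw [Finset.mul_sum]
    apply Finset.sum_congr rfl
    intro l _
    split_ifs <;> simp
  obtain ⟨r0, hr0⟩ : ∃ r, 0 < w r := by
    by_contra hno
    push Not at hno
    have : ∑ r, w r ≤ 0 := Finset.sum_nonpos (fun r _ => hno r)
    linarith
  have h3 : ∑ r : Ω, w r * ((univ.filter (fun l => ok r l)).card : ℝ) <
      ∑ r : Ω, w r * (t * Fintype.card Λ) := by
    apply Finset.sum_lt_sum
    · intro r _
      exact mul_le_mul_of_nonneg_left (h r).le (hw r)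
    · exact ⟨r0, Finset.mem_univ _, mul_lt_mul_of_pos_left (h r0) hr0⟩
  rw [← Finset.sum_mul, hw1, one_mul] at h3
  rw [h2, Finset.sum_const, Finset.card_univ, nsmul_eq_mul] at h1
  linarith [mul_comm t (Fintype.card Λ : ℝ)]

theorem fi_sum_inst {α : Type} [Fintype α] (q : α → Prop) (d1 d2 : DecidablePred q)
    (f : α → ℝ) : ∑ r ∈ @filter α q d1 univ, f r = ∑ r ∈ @filter α q d2 univ, f r := by
  obtain rfl : d1 = d2 := Subsingleton.elim _ _
  rfl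

open Classical in
/-- The main theorem. -/
theorem fi_main {ε : ℝ} (hε : 0 < ε) (A : ℕ) :
    ∃ (k : ℕ) (δ γ : ℝ), 0 < δ ∧ δ ≤ ε ∧ 0 < γ ∧ ∀ᶠ n : ℕ in atTop,
      (∃ (Λ : Type) (_ : Fintype Λ) (_ : Nonempty Λ)
        (D : Λ → {B : Finset (Fin n) // B.card ≤ ⌊δ * n⌋₊} → Bool),
        ∀ (N : ℕ) (C : Circuit {B : Finset (Fin n) // B.card ≤ ⌊δ * n⌋₊} N)
          (out : Wire {B : Finset (Fin n) // B.card ≤ ⌊δ * n⌋₊} N),
          (((C.fanins.map (· + 1)).prod : ℕ) : ℝ) ≤ 2 ^ (γ * n) →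
          ((C.size + C.fanins.sum : ℕ) : ℝ) ≤ 2 ^ ((1 - ε) * n) *
            (Fintype.card {B : Finset (Fin n) // B.card ≤ ⌊δ * n⌋₊} : ℝ) ^ A →
          ((univ.filter (fun q =>
            (out.eval (D q) (C.vals (D q)) = true ↔ SC k (D q)))).card : ℝ) <
            (1 / 2 + 2 ^ (-(γ * n))) * Fintype.card Λ) ∧
      ∀ (Ω : Type) [Fintype Ω] (μ : Ω → ℝ), (∀ r, 0 ≤ μ r) → ∑ r, μ r = 1 →
        ∀ (N : Ω → ℕ) (C : ∀ r, Circuit {B : Finset (Fin n) // B.card ≤ ⌊δ * n⌋₊} (N r))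
          (out : ∀ r, Wire {B : Finset (Fin n) // B.card ≤ ⌊δ * n⌋₊} (N r)),
          (∀ r, ((((C r).fanins.map (· + 1)).prod : ℕ) : ℝ) ≤ 2 ^ (γ * n)) →
          (∀ r, (((C r).size + (C r).fanins.sum : ℕ) : ℝ) ≤ 2 ^ ((1 - ε) * n) *
            (Fintype.card {B : Finset (Fin n) // B.card ≤ ⌊δ * n⌋₊} : ℝ) ^ A) →
          ∃ x : {B : Finset (Fin n) // B.card ≤ ⌊δ * n⌋₊} → Bool,
            ∑ r ∈ univ.filter (fun r => ((out r).eval x ((C r).vals x) = true ↔ SC k x)), μ r <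
              1 / 2 + 2 ^ (-(γ * n)) := by
  have hεm : 0 < min ε 1 := lt_min hε one_pos
  obtain ⟨k, δ, γ, h1, h2, h3, h4⟩ := fi_main0 hεm (min_le_right _ _) A
  refine ⟨k, δ, γ, h1, h2.trans (min_le_left _ _), h3, ?_⟩
  filter_upwards [h4] with n hn
  obtain ⟨Λ, hΛ1, hΛ2, D, hD⟩ := hn
  have hmono : (2 : ℝ) ^ ((1 - ε) * n) *
      (Fintype.card {B : Finset (Fin n) // B.card ≤ ⌊δ * n⌋₊} : ℝ) ^ A ≤
      2 ^ ((1 - min ε 1) * n) *
      (Fintype.card {B : Finset (Fin n) // B.card ≤ ⌊δ * n⌋₊} : ℝ) ^ A := by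
    refine mul_le_mul_of_nonneg_right ?_ (by positivity)
    refine Real.rpow_le_rpow_of_exponent_le (by norm_num) ?_
    refine mul_le_mul_of_nonneg_right ?_ (Nat.cast_nonneg _)
    linarith [min_le_left ε 1]
  have hD' : ∀ (N : ℕ) (C : Circuit {B : Finset (Fin n) // B.card ≤ ⌊δ * n⌋₊} N)
          (out : Wire {B : Finset (Fin n) // B.card ≤ ⌊δ * n⌋₊} N),
          (((C.fanins.map (· + 1)).prod : ℕ) : ℝ) ≤ 2 ^ (γ * n) →
          ((C.size + C.fanins.sum : ℕ) : ℝ) ≤ 2 ^ ((1 - ε) * n) *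
            (Fintype.card {B : Finset (Fin n) // B.card ≤ ⌊δ * n⌋₊} : ℝ) ^ A →
          ((univ.filter (fun q =>
            (out.eval (D q) (C.vals (D q)) = true ↔ SC k (D q)))).card : ℝ) <
            (1 / 2 + 2 ^ (-(γ * n))) * Fintype.card Λ :=
    fun N C out e1 e2 => hD N C out e1 (e2.trans hmono)
  refine ⟨⟨Λ, hΛ1, hΛ2, D, hD'⟩, ?_⟩
  intro Ω _ μ hμ hμ1 N C out hP hS
  obtain ⟨q, hq⟩ := fi_rand (1 / 2 + 2 ^ (-(γ * n)))
    (fun r q => ((out r).eval (D q) ((C r).vals (D q)) = true ↔ SC k (D q))) μ hμ hμ1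
    (fun r => lt_of_eq_of_lt (congrArg (Nat.cast : ℕ → ℝ) (card_filter_inst _ _ _ _ _))
      (hD' _ (C r) (out r) (hP r) (hS r)))
  exact ⟨D q, lt_of_eq_of_lt (fi_sum_inst _ _ _ _) hq⟩

end Pool.Agent.H537R3.SC
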