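import Pool.Agent.H537R3.SC.Defs

set_option autoImplicit false

namespace Pool.Agent.H537R3.SC

open Finset

/-- Dirichlet: a nonzero multiplier making all the residues small. -/
theorem lo_dirichlet {p k : ℕ} [Fact p.Prime] (hk : 0 < k) (hp : (2 * k) ^ k < p) {ι : Type}
    [Fintype ι] (hι : Fintype.card ι = k) (d : ι → ZMod p) :
    ∃ (w : ZMod p) (D : ι → ℤ), w ≠ 0 ∧ (∀ i, ((D i : ℤ) : ZMod p) = w * d i) ∧
      ∀ i, |D i| * (2 * k) < p := by
  classical
  have hp0 : 0 < p := (Fact.out : p.Prime).pos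
  have : NeZero p := ⟨hp0.ne'⟩
  let f : ZMod p → (ι → Fin (2 * k)) := fun u i =>
    ⟨((u * d i).val * (2 * k)) / p, by
      rw [Nat.div_lt_iff_lt_mul hp0, mul_comm (2 * k) p]
      exact Nat.mul_lt_mul_of_pos_right (ZMod.val_lt _) (by omega)⟩
  have hcard : Fintype.card (ι → Fin (2 * k)) < Fintype.card (ZMod p) := by
    rw [Fintype.card_fun, Fintype.card_fin, ZMod.card, hι]
    exact hp
  obtain ⟨u, u', huu, hf⟩ := Fintype.exists_ne_map_eq_of_card_lt f hcard
  refine ⟨u - u', fun i => ((u * d i).val : ℤ) - ((u' * d i).val : ℤ), sub_ne_zero.2 huu,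
    fun i => ?_, fun i => ?_⟩
  · push_cast
    rw [ZMod.natCast_zmod_val, ZMod.natCast_zmod_val]
    ring
  · have h1 := congrFun hf i
    simp only [f, Fin.mk.injEq] at h1
    set a := (u * d i).val
    set b := (u' * d i).val
    have ha1 := Nat.div_add_mod (a * (2 * k)) p
    have hb1 := Nat.div_add_mod (b * (2 * k)) p
    have ha2 := Nat.mod_lt (a * (2 * k)) hp0
    have hb2 := Nat.mod_lt (b * (2 * k)) hp0
    rw [h1] at ha1
    have ha3 : ((a : ℤ) * (2 * k)) = p * ((b * (2 * k) / p : ℕ) : ℤ) + ((a * (2 * k)) % p : ℕ) := by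
      exact_mod_cast ha1.symm
    have hb3 : ((b : ℤ) * (2 * k)) = p * ((b * (2 * k) / p : ℕ) : ℤ) + ((b * (2 * k)) % p : ℕ) := by
      exact_mod_cast hb1.symm
    have h2 : |(a : ℤ) - b| * (2 * k) = |((a * (2 * k) % p : ℕ) : ℤ) - ((b * (2 * k) % p : ℕ) : ℤ)| := by
      have h3 : ((a : ℤ) - b) * (2 * k) =
          ((a * (2 * k) % p : ℕ) : ℤ) - ((b * (2 * k) % p : ℕ) : ℤ) := by
        linear_combination ha3 - hb3
      rw [← h3, abs_mul, abs_of_nonneg (by positivity : (0 : ℤ) ≤ 2 * k)]
    rw [h2, abs_lt]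
    constructor
    · have : (0 : ℤ) ≤ ((a * (2 * k) % p : ℕ) : ℤ) := by positivity
      have : ((b * (2 * k) % p : ℕ) : ℤ) < p := by exact_mod_cast hb2
      linarith
    · have : (0 : ℤ) ≤ ((b * (2 * k) % p : ℕ) : ℤ) := by positivity
      have : ((a * (2 * k) % p : ℕ) : ℤ) < p := by exact_mod_cast ha2
      linarith

/-- Littlewood-Offord over the integers, for a given value of the sum. -/
theorem lo_int {ι : Type} [Fintype ι] [DecidableEq ι] (D : ι → ℤ) (hD : ∀ i, D i ≠ 0)
    (U : Finset (ι → Bool))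
    (hU : ∀ u ∈ U, ∀ v ∈ U, ∑ i, (if u i then D i else 0) = ∑ i, (if v i then D i else 0)) :
    U.card ≤ (Fintype.card ι).choose (Fintype.card ι / 2) := by
  classical
  let A : (ι → Bool) → Finset ι := fun u => univ.filter (fun i => (u i = true ↔ 0 < D i))
  have hsum : ∀ u, ∑ i ∈ A u, |D i| = ∑ i, (if u i then D i else 0) +
      ∑ i, (if D i < 0 then |D i| else 0) := by
    intro u
    rw [Finset.sum_filter, ← Finset.sum_add_distrib]
    refine Finset.sum_congr rfl (fun i _ => ?_)
    rcases lt_or_gt_of_ne (hD i) with h | h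
    · have h' : ¬ 0 < D i := not_lt.2 h.le
      by_cases hu : u i = true
      · simp [hu, h', h, abs_of_neg h]
      · simp [hu, h', h, abs_of_neg h]
    · have h' : ¬ D i < 0 := not_lt.2 h.le
      by_cases hu : u i = true
      · simp [hu, h', h, abs_of_pos h]
      · simp [hu, h', h]
  have hinj : Function.Injective A := by
    intro u v huv
    funext i
    have h1 : i ∈ A u ↔ i ∈ A v := by rw [huv]
    simp only [A, Finset.mem_filter, Finset.mem_univ, true_and] at h1
    have h2 : (u i = true) ↔ (v i = true) := by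
      by_cases h : 0 < D i
      · simpa [h] using h1
      · constructor
        · intro hu
          by_contra hv
          have : ¬ (u i = true ↔ 0 < D i) := by simp [hu, h]
          exact this (h1.2 (by simp [hv, h]))
        · intro hv
          by_contra hu
          have : ¬ (v i = true ↔ 0 < D i) := by simp [hv, h]
          exact this (h1.1 (by simp [hu, h]))
    exact Bool.eq_iff_iff.2 h2
  have hcard : (U.image A).card = U.card := Finset.card_image_of_injective _ hinj
  rw [← hcard]
  apply IsAntichain.sperner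
  intro X hX Y hY hXY hsub
  simp only [Finset.coe_image, Set.mem_image, Finset.mem_coe] at hX hY
  obtain ⟨u, hu, rfl⟩ := hX
  obtain ⟨v, hv, rfl⟩ := hY
  have hlt : ∑ i ∈ A u, |D i| < ∑ i ∈ A v, |D i| := by
    have hss : A u ⊂ A v := Finset.ssubset_iff_subset_ne.2 ⟨hsub, hXY⟩
    obtain ⟨j, hj1, hj2⟩ := Finset.exists_of_ssubset hss
    exact Finset.sum_lt_sum_of_subset hsub hj1 hj2 (abs_pos.2 (hD j)) (fun i _ _ => abs_nonneg _)
  rw [hsum u, hsum v, hU u hu v hv] at hlt
  exact lt_irrefl _ hlt

open Classical in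
/-- LO: Littlewood-Offord modulo a prime -/
theorem lo_mod {p k : ℕ} [Fact p.Prime] (hp : (2 * k) ^ k < p) {ι : Type} [Fintype ι]
    (hι : Fintype.card ι = k) (d : ι → ZMod p) (hd : ∀ i, d i ≠ 0) (z : ZMod p) :
    (univ.filter (fun u : ι → Bool => ∑ i, (if u i then d i else 0) = z)).card ≤
      k.choose (k / 2) := by
  rcases Nat.eq_zero_or_pos k with hk | hk
  · subst hk
    have : Fintype.card (ι → Bool) = 1 := by rw [Fintype.card_fun, hι]; simp
    calc _ ≤ (univ : Finset (ι → Bool)).card := Finset.card_le_card (Finset.filter_subset _ _)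
      _ = 1 := by rw [Finset.card_univ, this]
      _ ≤ _ := by simp
  obtain ⟨w, D, hw, hD, hsmall⟩ := lo_dirichlet hk hp hι d
  have hD0 : ∀ i, D i ≠ 0 := by
    intro i h
    have := hD i
    rw [h] at this
    simp only [Int.cast_zero] at this
    exact (mul_ne_zero hw (hd i)) this.symm
  rw [← hι]
  apply lo_int D hD0
  intro u hu v hv
  simp only [Finset.mem_filter, Finset.mem_univ, true_and] at hu hv
  have key : ∀ u : ι → Bool, ((∑ i, (if u i then D i else 0) : ℤ) : ZMod p) =
      w * ∑ i, (if u i then d i else 0) := by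
    intro u
    rw [Finset.mul_sum, Int.cast_sum]
    refine Finset.sum_congr rfl (fun i _ => ?_)
    split_ifs
    · exact hD i
    · simp
  have hdiff : ((∑ i, (if u i then D i else 0) - ∑ i, (if v i then D i else 0) : ℤ) : ZMod p)
      = 0 := by
    rw [Int.cast_sub, key, key, hu, hv, sub_self]
  rw [ZMod.intCast_zmod_eq_zero_iff_dvd] at hdiff
  have hb : |∑ i, (if u i then D i else 0) - ∑ i, (if v i then D i else 0)| ≤ ∑ i, |D i| := by
    rw [← Finset.sum_sub_distrib]
    refine (Finset.abs_sum_le_sum_abs _ _).trans (Finset.sum_le_sum (fun i _ => ?_))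
    by_cases h1 : u i <;> by_cases h2 : v i <;> simp [h1, h2]
  have hs : (∑ i, |D i|) * (2 * k) < k * p := by
    rw [Finset.sum_mul]
    calc ∑ i, |D i| * (2 * k) < ∑ _i : ι, (p : ℤ) := by
          apply Finset.sum_lt_sum_of_nonempty
          · rw [Finset.univ_nonempty_iff, ← Fintype.card_pos_iff, hι]
            exact hk
          · intro i _
            exact hsmall i
      _ = k * p := by rw [Finset.sum_const, Finset.card_univ, hι, nsmul_eq_mul]
  have hlt : |∑ i, (if u i then D i else 0) - ∑ i, (if v i then D i else 0)| < p := by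
    have hk' : (0 : ℤ) < k := by exact_mod_cast hk
    have h0 : 0 ≤ ∑ i, |D i| := Finset.sum_nonneg (fun i _ => abs_nonneg _)
    have : (∑ i, |D i|) * 2 < p := by
      by_contra hcon
      push Not at hcon
      nlinarith
    linarith
  have := Int.eq_zero_of_abs_lt_dvd hdiff hlt
  linarith

end Pool.Agent.H537R3.SC
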