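import Pool.Agent.H537R3.SC.CORE

/-!
# PLK: plucking large families of colourings
-/

set_option autoImplicit false

namespace Pool.Agent.H537R3.SC

open Finset

theorem card_filter_inst {α : Type} (i1 i2 : Fintype α) (q : α → Prop) (d1 d2 : DecidablePred q) :
    (@filter α q d1 (@univ α i1)).card = (@filter α q d2 (@univ α i2)).card := by
  obtain rfl : i1 = i2 := Subsingleton.elim _ _
  obtain rfl : d1 = d2 := Subsingleton.elim _ _
  rfl

open Classical in
/-- one pluck -/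
theorem pluck1 (K : Type) [Fintype K] (o : K) {ξ C : ℝ} (hξ : 0 < ξ) (hC : 0 ≤ C) :
    ∃ p0 : ℕ, ∀ (p : ℕ) [Fact p.Prime], p0 ≤ p → ∃ n0 : ℕ, ∀ (E : Type) [Fintype E],
      n0 ≤ Fintype.card E → ∀ S : Finset (E → K), (2 : ℝ) ^ (ξ * Fintype.card E) < S.card →
        ∃ S' ⊆ S, ∃ (T0 : E → K) (ρ : K → K), ρ o = o ∧ 2 ≤ S'.card ∧ (∀ T ∈ S', ρ ∘ T = T0) ∧
          ((univ.filter (fun a : E → ZMod p => Perp o a T0 ∧ ∀ T ∈ S', ¬ Perp o a T)).card : ℝ) ≤
            (p : ℝ) ^ Fintype.card E * 2 ^ (-(C * Fintype.card E)) := by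
  obtain ⟨k, p0, n1, hcore⟩ := core K o (Fintype.card K) ξ hξ (C + 1) (by linarith)
  refine ⟨p0, fun p _ hp => ?_⟩
  obtain ⟨n2, hn2⟩ := exists_nat_ge (((p : ℝ) ^ Fintype.card K) ^ (2 * k))
  refine ⟨max n1 n2, fun E _ hn S hS => ?_⟩
  set n := Fintype.card E with hndef
  have hSne : S.Nonempty := by
    rw [← card_pos]
    have : (0 : ℝ) < S.card := lt_trans (by positivity) hS
    exact_mod_cast this
  obtain ⟨S', hS'S, ρ, hS'ne, -, hρo, hSS', hconst, hrel⟩ :=
    hcore p hp E ((le_max_left _ _).trans hn) id rfl rfl (by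
      exact card_le_univ _) S hSne
  obtain ⟨T1, hT1⟩ := hS'ne
  have h2 : 2 ≤ S'.card := by
    by_contra hlt
    push Not at hlt
    have h1 : (S'.card : ℝ) ≤ 1 := by
      have : S'.card ≤ 1 := by omega
      exact_mod_cast this
    have : (S.card : ℝ) ≤ 2 ^ (ξ * n) * 1 :=
      hSS'.trans (mul_le_mul_of_nonneg_left h1 (by positivity))
    linarith
  refine ⟨S', hS'S, ρ ∘ T1, ρ, hρo, h2, fun T hT => hconst T hT T1 hT1, ?_⟩
  have hmom := moment (p := p) o S' ⟨T1, hT1⟩ ρ hρo (ρ ∘ T1) (fun T hT => hconst T hT T1 hT1) k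
    (2 ^ (-((C + 1) * n))) (by positivity) (by
      intro c hc
      have := hrel (Fin (2 * k)) (by rw [Fintype.card_fin]; omega) c
        (fun i => ⟨rfl, (hc i).2⟩) (fun _ => 0)
      rw [Fintype.card_fin] at this
      exact le_trans (Nat.cast_le.2 (le_of_eq (card_filter_inst _ _ _ _ _))) this)
  refine hmom.trans ?_
  rw [mul_assoc]
  refine mul_le_mul_of_nonneg_left ?_ (by positivity)
  have h3 : ((p : ℝ) ^ Fintype.card K) ^ (2 * k) ≤ 2 ^ (n : ℝ) := by
    refine hn2.trans ?_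
    have h4 : (n2 : ℝ) ≤ n := by exact_mod_cast (le_max_right _ _).trans hn
    refine h4.trans ?_
    rw [Real.rpow_natCast]
    exact_mod_cast (Nat.lt_two_pow_self (n := n)).le
  calc ((p : ℝ) ^ Fintype.card K) ^ (2 * k) * 2 ^ (-((C + 1) * n))
      ≤ 2 ^ (n : ℝ) * 2 ^ (-((C + 1) * n)) := mul_le_mul_of_nonneg_right h3 (by positivity)
    _ = 2 ^ (-(C * n)) := by
        rw [← Real.rpow_add (by norm_num)]
        congr 1
        ring

open Classical in
/-- plucking -/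
theorem pluck (K : Type) [Fintype K] (o : K) {ξ C : ℝ} (hξ : 0 < ξ) (hC : 0 ≤ C) :
    ∃ p0 : ℕ, ∀ (p : ℕ) [Fact p.Prime], p0 ≤ p → ∃ n0 : ℕ, ∀ (E : Type) [Fintype E],
      n0 ≤ Fintype.card E → ∀ G : Finset (E → K),
        ∃ G' : Finset (E → K), (G'.card : ℝ) ≤ 2 ^ (ξ * Fintype.card E) ∧
          (∀ T' ∈ G', ∃ T ∈ G, ∃ ρ : K → K, ρ o = o ∧ T' = ρ ∘ T) ∧
          (∀ T ∈ G, ∃ T' ∈ G', ∃ ρ : K → K, T' = ρ ∘ T) ∧
          ((univ.filter (fun a : E → ZMod p =>
            (∃ T' ∈ G', Perp o a T') ∧ ∀ T ∈ G, ¬ Perp o a T)).card : ℝ) ≤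
            G.card * ((p : ℝ) ^ Fintype.card E * 2 ^ (-(C * Fintype.card E))) := by
  obtain ⟨p0, h0⟩ := pluck1 K o hξ hC
  refine ⟨p0, fun p _ hp => ?_⟩
  obtain ⟨n0, h1⟩ := h0 p hp
  refine ⟨n0, fun E _ hn => ?_⟩
  set en : ℝ := (p : ℝ) ^ Fintype.card E * 2 ^ (-(C * Fintype.card E)) with hen
  have hen0 : 0 ≤ en := by positivity
  have key : ∀ N : ℕ, ∀ G : Finset (E → K), G.card = N →
      ∃ G' : Finset (E → K), (G'.card : ℝ) ≤ 2 ^ (ξ * Fintype.card E) ∧
          (∀ T' ∈ G', ∃ T ∈ G, ∃ ρ : K → K, ρ o = o ∧ T' = ρ ∘ T) ∧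
          (∀ T ∈ G, ∃ T' ∈ G', ∃ ρ : K → K, T' = ρ ∘ T) ∧
          ((univ.filter (fun a : E → ZMod p =>
            (∃ T' ∈ G', Perp o a T') ∧ ∀ T ∈ G, ¬ Perp o a T)).card : ℝ) ≤
            G.card * en := by
    intro N
    induction N using Nat.strong_induction_on with
    | _ N ih =>
    intro G hG
    by_cases hsmall : (G.card : ℝ) ≤ 2 ^ (ξ * Fintype.card E)
    · refine ⟨G, hsmall, fun T hT => ⟨T, hT, id, rfl, rfl⟩, fun T hT => ⟨T, hT, id, rfl⟩, ?_⟩
      have : univ.filter (fun a : E → ZMod p =>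
          (∃ T' ∈ G, Perp o a T') ∧ ∀ T ∈ G, ¬ Perp o a T) = ∅ := by
        rw [filter_eq_empty_iff]
        rintro a - ⟨⟨T, hT, h⟩, h'⟩
        exact h' T hT h
      rw [this]
      simp only [card_empty, Nat.cast_zero]
      positivity
    · push Not at hsmall
      obtain ⟨S', hS'G, T0, ρ0, hρ0, h2, hρT, hbad⟩ := h1 E hn G hsmall
      set G1 := insert T0 (G \ S') with hG1
      have hc1 : G1.card + 1 ≤ G.card := by
        have h3 : G1.card ≤ (G \ S').card + 1 := card_insert_le T0 (G \ S')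
        have h4 := card_sdiff_add_card_eq_card hS'G
        omega
      obtain ⟨G', hG'1, hG'2, hG'3, hG'4⟩ := ih G1.card (by omega) G1 rfl
      obtain ⟨T1, hT1⟩ : S'.Nonempty := card_pos.1 (by omega)
      refine ⟨G', hG'1, ?_, ?_, ?_⟩
      · intro T' hT'
        obtain ⟨T, hT, ρ, hρ, rfl⟩ := hG'2 T' hT'
        rw [hG1, mem_insert, mem_sdiff] at hT
        rcases hT with rfl | hT
        · refine ⟨T1, hS'G hT1, ρ ∘ ρ0, by simp [hρ0, hρ], ?_⟩
          rw [← hρT T1 hT1]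
          rfl
        · exact ⟨T, hT.1, ρ, hρ, rfl⟩
      · intro T hT
        by_cases hTS : T ∈ S'
        · obtain ⟨T', hT', ρ, hρ⟩ := hG'3 T0 (mem_insert_self _ _)
          refine ⟨T', hT', ρ ∘ ρ0, ?_⟩
          rw [hρ, ← hρT T hTS]
          rfl
        · exact hG'3 T (mem_insert_of_mem (mem_sdiff.2 ⟨hT, hTS⟩))
      · have hsub : univ.filter (fun a : E → ZMod p =>
            (∃ T' ∈ G', Perp o a T') ∧ ∀ T ∈ G, ¬ Perp o a T) ⊆
            univ.filter (fun a : E → ZMod p =>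
              (∃ T' ∈ G', Perp o a T') ∧ ∀ T ∈ G1, ¬ Perp o a T) ∪
            univ.filter (fun a : E → ZMod p => Perp o a T0 ∧ ∀ T ∈ S', ¬ Perp o a T) := by
          intro a ha
          rw [mem_filter] at ha
          rw [mem_union, mem_filter, mem_filter]
          by_cases h0' : Perp o a T0
          · exact Or.inr ⟨mem_univ _, h0', fun T hT => ha.2.2 T (hS'G hT)⟩
          · refine Or.inl ⟨mem_univ _, ha.2.1, fun T hT => ?_⟩
            rw [hG1, mem_insert, mem_sdiff] at hT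
            rcases hT with rfl | hT
            · exact h0'
            · exact ha.2.2 T hT.1
        have h5 := (card_le_card hsub).trans (card_union_le _ _)
        have h6 : ((univ.filter (fun a : E → ZMod p =>
            (∃ T' ∈ G', Perp o a T') ∧ ∀ T ∈ G, ¬ Perp o a T)).card : ℝ) ≤
            G1.card * en + en := by
          refine le_trans ?_ (add_le_add hG'4 hbad)
          exact_mod_cast h5
        refine h6.trans ?_
        have h7 : (G1.card : ℝ) + 1 ≤ G.card := by exact_mod_cast hc1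
        nlinarith
  exact fun G => key G.card G rfl

end Pool.Agent.H537R3.SC
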