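import Pool.Agent.H537R3.SC.Defs

set_option autoImplicit false

/-! Stubs (statements only). -/

namespace Pool.Agent.H537R3.SC

open Finset

open Classical in
/-- LO: Littlewood-Offord modulo a prime -/
theorem lo_mod {p k : ℕ} [Fact p.Prime] (hp : (2 * k) ^ k < p) {ι : Type} [Fintype ι]
    (hι : Fintype.card ι = k) (d : ι → ZMod p) (hd : ∀ i, d i ≠ 0) (z : ZMod p) :
    (univ.filter (fun u : ι → Bool => ∑ i, (if u i then d i else 0) = z)).card ≤
      k.choose (k / 2) := sorry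

/-- CB: the central binomial coefficient -/
theorem choose_half (m : ℕ) : ((2 * m).choose m : ℝ) * Real.sqrt (2 * m + 1) ≤ 4 ^ m := sorry

/-- NAT: Natarajan's lemma -/
theorem natarajan {E K : Type} [Fintype E] [Fintype K] [DecidableEq E] [DecidableEq K]
    (Y : Finset (E → K)) (d : ℕ)
    (h : ∀ (V : Finset E) (α β : E → K), d < V.card → (∀ j ∈ V, α j ≠ β j) →
      ¬ ∀ x : E → Bool, ∃ y ∈ Y, ∀ j ∈ V, y j = if x j then α j else β j)
    {x : ℝ} (hx0 : 0 < x) (hx1 : x ≤ 1) :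
    (Y.card : ℝ) * x ^ d ≤ (1 + (Fintype.card K : ℝ) ^ 2 * x) ^ Fintype.card E := sorry

/-- NAT: with the same pair of values at all the elements of the shattered set -/
theorem natarajan_pair {E K : Type} [Fintype E] [Fintype K] [DecidableEq E] [DecidableEq K]
    (Y : Finset (E → K)) (v : ℕ)
    (h : ∀ (V : Finset E) (a b : K), V.card = v → a ≠ b →
      ¬ ∀ x : E → Bool, ∃ y ∈ Y, ∀ j ∈ V, y j = if x j then a else b)
    {x : ℝ} (hx0 : 0 < x) (hx1 : x ≤ 1) :
    (Y.card : ℝ) * x ^ (Fintype.card K ^ 2 * v) ≤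
      (1 + (Fintype.card K : ℝ) ^ 2 * x) ^ Fintype.card E := sorry

open Classical in
/-- EXT: extraction of a subfamily with uniformly distributed patterns -/
theorem extract (K : Type) [Fintype K] {ξ l : ℝ} (hξ : 0 < ξ) (hl : 0 < l) :
    ∃ η : ℝ, 0 < η ∧ ∃ n0 : ℕ, ∀ (E : Type) [Fintype E] (S : Finset (E → K)) (ρ : K → K),
      n0 ≤ Fintype.card E → S.Nonempty →
      (∀ T ∈ S, ((S.filter (fun T' => ρ ∘ T' = ρ ∘ T)).card : ℝ) * 2 ^ (ξ * Fintype.card E) ≤
        S.card) →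
      ∃ (V : Finset E) (a b : K) (S₁ : Finset (E → K)), a ≠ b ∧ (∃ x, ρ x = a) ∧ (∃ x, ρ x = b) ∧
        S₁ ⊆ S ∧ S₁.Nonempty ∧
        η * Fintype.card E ≤ V.card ∧ (S.card : ℝ) ≤ 2 ^ (l * Fintype.card E) * S₁.card ∧
        (∀ T ∈ S₁, ∀ j ∈ V, ρ (T j) = a ∨ ρ (T j) = b) ∧
        ∀ x : E → Bool, 2 ^ V.card *
          (S₁.filter (fun T => ∀ j ∈ V, ρ (T j) = if x j then a else b)).card ≤ S₁.card := sorry

open Classical in
/-- MOM: the moment method -/
theorem moment {E K : Type} [Fintype E] [Fintype K] {p : ℕ} [Fact p.Prime] (o : K)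
    (S : Finset (E → K)) (hS : S.Nonempty) (ρ : K → K) (hρ : ρ o = o) (T0 : E → K)
    (hT0 : ∀ T ∈ S, ρ ∘ T = T0) (m : ℕ) (R : ℝ)
    (hrel : ∀ c : Fin (2 * m) → K → ZMod p, (∀ i, c i o = 0 ∧ c i ∘ ρ ≠ c i) →
      ((univ.filter (fun f : Fin (2 * m) → E → K =>
        (∀ i, f i ∈ S) ∧ ∀ e, ∑ i, c i (f i e) = 0)).card : ℝ) ≤ R * (S.card : ℝ) ^ (2 * m)) :
    ((univ.filter (fun a : E → ZMod p => Perp o a T0 ∧ ∀ T ∈ S, ¬ Perp o a T)).card : ℝ) ≤
      (p : ℝ) ^ Fintype.card E * ((p : ℝ) ^ Fintype.card K) ^ (2 * m) * R := sorry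

open Classical in
/-- POS: few partitions are compatible with a colouring without a large colour class -/
theorem pos_heavy {J : Type} [Fintype J] {b h : ℕ} (hb : 0 < b)
    (T : Fin b × Fin (2 * h) → J)
    (hT : ∀ y, (univ.filter (fun e => T e = y)).card ≤ b * h) :
    (univ.filter (fun σ : Fin b → Equiv.Perm (Fin (2 * h)) => Compat T σ)).card ≤
      Fintype.card J ^ (2 * h) * (h.factorial ^ 2) ^ b := sorry

open Classical in
/-- POS: few partitions are compatible with a non-constant colouring -/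
theorem pos_nontriv {J : Type} [Fintype J] {b t : ℕ} (hb : 0 < b)
    (T : Fin b × Fin t → J) (hT : ∃ e e', T e ≠ T e') :
    (univ.filter (fun σ : Fin b → Equiv.Perm (Fin t) => Compat T σ)).card ≤
      Fintype.card J ^ t * ((t - 1).factorial) ^ b := sorry

end Pool.Agent.H537R3.SC
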