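import Pool.Agent.H537R3.SC.Defs
import Pool.Agent.H560R2.Neg4

set_option autoImplicit false

/-! Stub of the encoding (statement only). -/

namespace Pool.Agent.H537R3.SC

open Finset Pool.Agent.H560R2 Pool.Agent.H520R2.NM

/-- ENC: `2 ^ L` problems are put into one Set Cover instance. -/
theorem encode {b t L r n w : ℕ} (hb : 1 ≤ b) (ht : 2 ≤ t) (hL : 1 ≤ L)
    (hn : n = t * (b + 3 * L) + r) (hw : b + 3 * L + r ≤ w) :
    ∃ E : (Fin (2 ^ L) → Set (Fin b → Fin t)) → {A : Finset (Fin n) // A.card ≤ w} → Bool,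
      (∀ y y', (∀ j, y j ⊆ y' j) → E y ≤ E y') ∧
      (∀ y, SC t (E y) ↔ ∃ j, HasPart (y j)) ∧
      ∀ (z : Fin (2 ^ L) → Set (Fin b → Fin t)) (J : Fin (2 ^ L)),
        blockBase E z J ⊆ VarB (Fin b → Fin t) := sorry

end Pool.Agent.H537R3.SC
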